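import Pool.Agent.H687R2.Pgst.PolyRun
import Pool.Agent.H757R2.PgstAnalytic
import Pool.Agent.H757R2.PgstGalois
import Pool.Agent.H467R2.Krylov
import Pool.Agent.NPC.Dec

/-!
# Pretty good state transfer is decidable in polynomial time
-/

namespace Pool.Agent.H687R2.Pgst

open Pool.Agent.NPC Pool.Agent.H687R2.LLL Polynomial

/-- The adjacency matrix of a graph on `{0, ..., n - 1}` as a list of rows of bits. -/
def code {n : ℕ} (G : SimpleGraph (Fin n)) [DecidableRel G.Adj] : List (List Bool) :=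
  List.ofFn fun i => List.ofFn fun j => decide (G.Adj i j)

/-- Pretty good state transfer. -/
def PGST {n : ℕ} (G : SimpleGraph (Fin n)) [DecidableRel G.Adj] (u v : Fin n) : Prop :=
  ∀ ε : ℝ, 0 < ε → ∃ t : ℝ,
    1 - ε < ‖(NormedSpace.exp ((Complex.I * (t : ℂ)) • G.adjMatrix ℂ) :
      Matrix (Fin n) (Fin n) ℂ) u v‖

/-- The decision problem. -/
def Problem (a : List (List Bool) × ℕ × ℕ) : Prop :=
  ∃ (n : ℕ) (G : SimpleGraph (Fin n)) (_ : DecidableRel G.Adj) (u v : Fin n),
    u ≠ v ∧ a = (code G, (u : ℕ), (v : ℕ)) ∧ PGST G u v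

/-! ### Valid inputs -/

/-- Entries of a matrix of bits. -/
def gt (L : List (List Bool)) (i j : ℕ) : Bool := (L.getD i []).getD j false

/-- Being the code of a graph with two distinct vertices. -/
def valid (a : List (List Bool) × ℕ × ℕ) : Bool :=
  ((a.1.all fun r => decide (r.length = a.1.length)) &&
    ((List.range a.1.length).all fun i => (List.range a.1.length).all fun j =>
      (gt a.1 i j == gt a.1 j i))) &&
  (((List.range a.1.length).all fun i => !(gt a.1 i i)) &&
    ((decide (a.2.1 < a.1.length) && decide (a.2.2 < a.1.length)) && !decide (a.2.1 = a.2.2)))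

theorem gt_code {n : ℕ} (G : SimpleGraph (Fin n)) [DecidableRel G.Adj] (i j : Fin n) :
    gt (code G) i j = decide (G.Adj i j) := by
  rw [gt, code, List.getD_eq_getElem (List.ofFn _) _ (by simp)]
  rw [List.getElem_ofFn, List.getD_eq_getElem _ _ (by simp)]
  simp

theorem length_code {n : ℕ} (G : SimpleGraph (Fin n)) [DecidableRel G.Adj] :
    (code G).length = n := by simp [code]

theorem valid_code {n : ℕ} (G : SimpleGraph (Fin n)) [DecidableRel G.Adj] {u v : Fin n}
    (h : u ≠ v) : valid (code G, (u : ℕ), (v : ℕ)) = true := by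
  simp only [valid, length_code, Bool.and_eq_true, List.all_eq_true, List.mem_range,
    decide_eq_true_eq, beq_iff_eq, Bool.not_eq_true', decide_eq_false_iff_not]
  refine ⟨⟨fun r hr => ?_, fun i hi j hj => ?_⟩, fun i hi => ?_, ⟨u.2, v.2⟩, fun h' => h (Fin.ext h')⟩
  · rw [code, List.mem_ofFn] at hr
    obtain ⟨i, rfl⟩ := hr
    simp
  · have h1 := gt_code G ⟨i, hi⟩ ⟨j, hj⟩
    have h2 := gt_code G ⟨j, hj⟩ ⟨i, hi⟩
    simp only at h1 h2
    rw [h1, h2]
    simp only [G.adj_comm]
  · have h1 := gt_code G ⟨i, hi⟩ ⟨i, hi⟩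
    simp only at h1
    rw [h1]
    simp

theorem exists_of_valid {a : List (List Bool) × ℕ × ℕ} (h : valid a = true) :
    ∃ (n : ℕ) (G : SimpleGraph (Fin n)) (_ : DecidableRel G.Adj) (u v : Fin n),
      u ≠ v ∧ a = (code G, (u : ℕ), (v : ℕ)) := by
  obtain ⟨L, u, v⟩ := a
  simp only [valid, Bool.and_eq_true, List.all_eq_true, List.mem_range,
    decide_eq_true_eq, beq_iff_eq, Bool.not_eq_true', decide_eq_false_iff_not] at h
  obtain ⟨⟨h1, h2⟩, h3, ⟨h4, h5⟩, h6⟩ := h
  let G : SimpleGraph (Fin L.length) :=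
    { Adj := fun i j => gt L i j = true
      symm := ⟨fun i j hij => by rw [← h2 i i.2 j j.2]; exact hij⟩
      loopless := ⟨fun i hi => by rw [h3 i i.2] at hi; exact absurd hi (by simp)⟩ }
  have hdec : DecidableRel G.Adj := fun i j => inferInstanceAs (Decidable (gt L i j = true))
  refine ⟨L.length, G, hdec, ⟨u, h4⟩, ⟨v, h5⟩, fun h' => h6 (by simpa using h'), ?_⟩
  have hcode : code G = L := by
    apply List.ext_getElem
    · simp [code]
    · intro i hi1 hi2
      apply List.ext_getElem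
      · simp only [code, List.getElem_ofFn, List.length_ofFn]
        exact (h1 _ (List.getElem_mem hi2)).symm
      · intro j hj1 hj2
        have e1 := h1 _ (List.getElem_mem hi2)
        simp only [code, List.getElem_ofFn]
        have e2 : gt L i j = L[i][j] := by
          rw [gt, List.getD_eq_getElem L _ hi2, List.getD_eq_getElem _ _ hj2]
        rw [Bool.eq_iff_iff, decide_eq_true_eq]
        change gt L i j = true ↔ _
        rw [e2]
  rw [hcode]

/-! ### The algorithm -/

/-- The integer matrix of a matrix of bits. -/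
def toA (L : List (List Bool)) : List (List ℤ) := L.map fun r => r.map fun b => bif b then 1 else 0

/-- The sum of two unit vectors. -/
def zP (n u v : ℕ) : List ℤ :=
  (List.range n).map fun j => (bif decide (j = u) then 1 else 0) + (bif decide (j = v) then 1 else 0)

/-- The difference of two unit vectors. -/
def zM (n u v : ℕ) : List ℤ :=
  (List.range n).map fun j => (bif decide (j = u) then 1 else 0) - (bif decide (j = v) then 1 else 0)

/-- Root approximations. -/
def kP (a : List (List Bool) × ℕ × ℕ) : List ℤ :=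
  NPC.PgstR.rootApprox (minP (toA a.1) (zP a.1.length a.2.1 a.2.2),
    List.replicate (pK a.1.length) ())

/-- Root approximations. -/
def kM (a : List (List Bool) × ℕ × ℕ) : List ℤ :=
  NPC.PgstR.rootApprox (minP (toA a.1) (zM a.1.length a.2.1 a.2.2),
    List.replicate (pK a.1.length) ())

/-- The algorithm on valid inputs. -/
def alg (a : List (List Bool) × ℕ × ℕ) : Bool :=
  ans a.1.length (kP a).length (kP a ++ kM a)

section Correct

variable {n : ℕ} (G : SimpleGraph (Fin n)) [DecidableRel G.Adj] (u v : Fin n)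

theorem toA_code : toA (code G) = matL (G.adjMatrix ℤ) := by
  rw [toA, code, matL, List.map_ofFn]
  congr 1
  funext i
  simp only [Function.comp_apply, List.map_ofFn]
  congr 1
  funext j
  simp only [Function.comp_apply, SimpleGraph.adjMatrix_apply]
  by_cases h : G.Adj i j <;> simp [h]

theorem range_map_eq_ofFn {β : Type} (n : ℕ) (f : ℕ → β) :
    (List.range n).map f = List.ofFn fun i : Fin n => f i := by
  apply List.ext_getElem
  · simp
  · intro i h1 h2; simp

theorem zP_eq : zP n u v = vecL (Pi.single u 1 + Pi.single v 1) := by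
  rw [zP, range_map_eq_ofFn, vecL]
  congr 1
  funext j
  simp only [Pi.add_apply, Pi.single_apply, Fin.ext_iff]
  by_cases h1 : (j : ℕ) = u <;> by_cases h2 : (j : ℕ) = v <;> simp [h1, h2]

theorem zM_eq : zM n u v = vecL (Pi.single u 1 - Pi.single v 1) := by
  rw [zM, range_map_eq_ofFn, vecL]
  congr 1
  funext j
  simp only [Pi.sub_apply, Pi.single_apply, Fin.ext_iff]
  by_cases h1 : (j : ℕ) = u <;> by_cases h2 : (j : ℕ) = v <;> simp [h1, h2]

theorem nrm_delta (n w : ℕ) (f : ℕ → ℤ) (hf : ∀ j, (f j).natAbs ≤ if j = w then 1 else 0) :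
    nrm ((List.range n).map f) ≤ 1 := by
  have h : nrm ((List.range n).map f) ≤ ∑ j ∈ Finset.range n, if j = w then 1 else 0 := by
    rw [nrm, List.map_map, sum_map_range]
    exact Finset.sum_le_sum fun j _ => hf j
  refine h.trans ?_
  rw [Finset.sum_ite_eq']
  split_ifs <;> omega

theorem nrm_zP (n u v : ℕ) : nrm (zP n u v) ≤ 2 := by
  have h : nrm (zP n u v) ≤ nrm ((List.range n).map fun j => (bif decide (j = u) then 1 else 0)) +
      nrm ((List.range n).map fun j => (bif decide (j = v) then 1 else 0)) := by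
    rw [zP, nrm, nrm, nrm, List.map_map, List.map_map, List.map_map, sum_map_range, sum_map_range,
      sum_map_range, ← Finset.sum_add_distrib]
    exact Finset.sum_le_sum fun j _ => Int.natAbs_add_le _ _
  refine h.trans (Nat.add_le_add (nrm_delta n u _ fun j => ?_) (nrm_delta n v _ fun j => ?_))
  · by_cases h : j = u <;> simp [h]
  · by_cases h : j = v <;> simp [h]

theorem nrm_zM (n u v : ℕ) : nrm (zM n u v) ≤ 2 := by
  have h : nrm (zM n u v) ≤ nrm ((List.range n).map fun j => (bif decide (j = u) then 1 else 0)) +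
      nrm ((List.range n).map fun j => (bif decide (j = v) then 1 else 0)) := by
    rw [zM, nrm, nrm, nrm, List.map_map, List.map_map, List.map_map, sum_map_range, sum_map_range,
      sum_map_range, ← Finset.sum_add_distrib]
    exact Finset.sum_le_sum fun j _ => Int.natAbs_sub_le _ _
  refine h.trans (Nat.add_le_add (nrm_delta n u _ fun j => ?_) (nrm_delta n v _ fun j => ?_))
  · by_cases h : j = u <;> simp [h]
  · by_cases h : j = v <;> simp [h]

theorem abs_adj_le (i j : Fin n) : |G.adjMatrix ℤ i j| ≤ 1 := by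
  rw [SimpleGraph.adjMatrix_apply]
  split_ifs <;> simp

/-- All the facts about an input. -/
theorem main_facts (huv : u ≠ v) : ∃ (m₀ m₁ : ℕ) (θ : Fin m₀ ⊕ Fin m₁ → ℝ)
    (P₀ P₁ : Polynomial ℤ), (kP (code G, (u : ℕ), (v : ℕ))).length = m₀ ∧
      Inst n m₀ m₁ θ P₀ P₁ (kP (code G, (u : ℕ), (v : ℕ)) ++ kM (code G, (u : ℕ), (v : ℕ))) ∧
      (alg (code G, (u : ℕ), (v : ℕ)) = true ↔ PGST G u v) := by
  have hsymm : (G.adjMatrix ℤ).IsSymm := G.isSymm_adjMatrix
  have hzP : (Pi.single u 1 + Pi.single v 1 : Fin n → ℤ) ≠ 0 := by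
    intro h
    have := congrFun h u
    simp [huv] at this
  have hzM : (Pi.single u 1 - Pi.single v 1 : Fin n → ℤ) ≠ 0 := by
    intro h
    have := congrFun h u
    simp [huv] at this
  obtain ⟨m₀, P₀, θ₀, Z₀, hm₀, hmn₀, hanti₀, hmon₀, hdeg₀, hmap₀, hb₀, hc₀, hZ₀, hev₀, hsum₀, hann₀⟩ :=
    H467R2.Krylov.krylov (G.adjMatrix ℤ) hsymm (abs_adj_le G) _ hzP
  obtain ⟨m₁, P₁, θ₁, Z₁, hm₁, hmn₁, hanti₁, hmon₁, hdeg₁, hmap₁, hb₁, hc₁, hZ₁, hev₁, hsum₁, hann₁⟩ :=
    H467R2.Krylov.krylov (G.adjMatrix ℤ) hsymm (abs_adj_le G) _ hzM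
  have hP₀ : polyOf (minP (toA (code G)) (zP n u v)) = P₀ := by
    rw [toA_code, zP_eq]
    exact minP_spec (abs_adj_le G) (by rw [← zP_eq]; exact nrm_zP _ _ _) hmn₀ hmon₀ hdeg₀ hc₀ hann₀
  have hP₁ : polyOf (minP (toA (code G)) (zM n u v)) = P₁ := by
    rw [toA_code, zM_eq]
    exact minP_spec (abs_adj_le G) (by rw [← zM_eq]; exact nrm_zM _ _ _) hmn₁ hmon₁ hdeg₁ hc₁ hann₁
  obtain ⟨hl₀, hr₀⟩ := NPC.PgstR.rootApprox_correct (minP (toA (code G)) (zP n u v)) (pK n) m₀ θ₀
    hanti₀ (by rw [← hmap₀, ← hP₀]; rfl)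
  obtain ⟨hl₁, hr₁⟩ := NPC.PgstR.rootApprox_correct (minP (toA (code G)) (zM n u v)) (pK n) m₁ θ₁
    hanti₁ (by rw [← hmap₁, ← hP₁]; rfl)
  set a : List (List Bool) × ℕ × ℕ := (code G, (u : ℕ), (v : ℕ)) with ha
  have hkP : kP a = NPC.PgstR.rootApprox (minP (toA (code G)) (zP n u v),
      List.replicate (pK n) ()) := by rw [kP, ha]; simp only [length_code]
  have hkM : kM a = NPC.PgstR.rootApprox (minP (toA (code G)) (zM n u v),
      List.replicate (pK n) ()) := by rw [kM, ha]; simp only [length_code]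
  rw [← hkP] at hl₀ hr₀
  rw [← hkM] at hl₁ hr₁
  set θ : Fin m₀ ⊕ Fin m₁ → ℝ := Sum.elim θ₀ θ₁ with hθ
  have hnr : (n : ℝ) ≤ 2 ^ n := by exact_mod_cast (Nat.lt_two_pow_self (n := n)).le
  have hb₀' : ∀ i, |θ₀ i| ≤ 2 ^ n := fun i => (hb₀ i).trans hnr
  have hb₁' : ∀ i, |θ₁ i| ≤ 2 ^ n := fun i => (hb₁ i).trans hnr
  have hI : Inst n m₀ m₁ θ P₀ P₁ (kP a ++ kM a) := by
    refine ⟨hmn₀, hmn₁, by rw [List.length_append, hl₀, hl₁], ⟨hmap₀, hmap₁⟩, ?_, ?_⟩
    · rintro (i | i)
      · exact hb₀' i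
      · exact hb₁' i
    · rintro (i | i)
      · simp only [idx, hθ, Sum.elim_inl]
        rw [List.getD_append _ _ _ _ (by rw [hl₀]; exact i.2)]
        exact hr₀ i
      · simp only [idx, hθ, Sum.elim_inr]
        rw [List.getD_append_right _ _ _ _ (by rw [hl₀]; omega), hl₀, Nat.add_sub_cancel_left]
        exact hr₁ i
  refine ⟨m₀, m₁, θ, P₀, P₁, hl₀, hI, ?_⟩
  -- the algebraic data
  obtain ⟨M, C, N, hM, hC, hN, hMC, hMθ, hM1, hker, hNrel⟩ := H757R2.PgstG.galois_core P₀ P₁ θ₀ θ₁
    hmap₀ hmap₁ hanti₀.injective hanti₁.injective n hb₀' hb₁'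
  have hE : 10 * (m₀ + m₁ + 1) ^ 3 * (n + 1) ≤ pE n := by
    unfold pE
    exact Nat.mul_le_mul_right _ (Nat.mul_le_mul_left _ (Nat.pow_le_pow_left (by omega) 3))
  have hE' : (2 : ℤ) ^ (10 * (m₀ + m₁ + 1) ^ 3 * (n + 1)) ≤ 2 ^ pE n :=
    pow_le_pow_right₀ (by norm_num) hE
  have hAlg : Alg θ (pE n) M N := by
    refine ⟨fun i j => (hN i j).trans hE', fun i => ⟨hM1 i, hMθ i⟩, hker, fun l hl j => ?_⟩
    exact hNrel l hl.1 hl.2 j
  have hVd : ∀ i j, bvand θ₀ θ₁ i j = Vd θ i j := by
    rintro (i | i) (j | j) <;> simp [bvand, Vd, bl, ix, hθ, Matrix.vandermonde_apply]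
  have hex : ∀ i j, (M i j : ℝ) = ∑ a, ∑ b, (C a b : ℝ) * (Vd θ i a * Vd θ j b) := by
    intro i j
    have h1 := congrFun (congrFun hMC i) j
    simp only [Matrix.map_apply, Matrix.mul_apply, Matrix.transpose_apply, hVd] at h1
    rw [h1]
    simp only [Finset.sum_mul]
    rw [Finset.sum_comm]
    exact Finset.sum_congr rfl fun a _ => Finset.sum_congr rfl fun b _ => by ring
  have hans := hI.ans_iff hAlg (fun i j => (hM i j).trans hE') (fun i j => (hC i j).trans hE') hex
  have halg : alg a = ans n m₀ (kP a ++ kM a) := by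
    rw [alg, hl₀, ha]; simp only [length_code]
  rw [halg, hans]
  -- the analytic criterion
  have hmapR : (G.adjMatrix ℤ).map (Int.cast : ℤ → ℝ) = G.adjMatrix ℝ := by
    ext i j
    simp only [Matrix.map_apply, SimpleGraph.adjMatrix_apply]
    split_ifs <;> simp
  have hmapC : (G.adjMatrix ℝ).map (fun x : ℝ => (x : ℂ)) = G.adjMatrix ℂ := by
    ext i j
    simp only [Matrix.map_apply, SimpleGraph.adjMatrix_apply]
    split_ifs <;> simp
  rw [hmapR] at hev₀ hev₁
  have hcrit := H757R2.PgstA.pgst_criterion (G.adjMatrix ℝ) G.isSymm_adjMatrix u v huv θ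
    (Sum.elim Z₀ Z₁) hanti₀.injective hanti₁.injective
    (by rintro (i | i); exacts [hZ₀ i, hZ₁ i])
    (by rintro (i | i); exacts [hev₀ i, hev₁ i])
    (by
      simp only [Sum.elim_inl]
      rw [hsum₀]
      funext p
      simp only [Pi.add_apply, Pi.single_apply]
      push_cast
      rfl)
    (by
      simp only [Sum.elim_inr]
      rw [hsum₁]
      funext p
      simp only [Pi.sub_apply, Pi.single_apply]
      push_cast
      rfl)
  rw [hmapC] at hcrit
  exact hcrit.symm

end Correct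

end Pool.Agent.H687R2.Pgst

namespace Pool.Agent.NPC.Poly

open Pool.Agent.H687R2.LLL Pool.Agent.H687R2.Pgst

variable {α β γ δ σ : Type} [TEnc α] [TEnc β] [TEnc γ] [TEnc δ] [TEnc σ]

theorem toA {L : α → List (List Bool)} (hL : Poly L) :
    Poly (fun a => H687R2.Pgst.toA (L a)) := by
  have h0 : Poly (fun p : (α × List Bool) × Bool => (bif p.2 then (1 : ℤ) else 0)) :=
    cond (snd id) (const 1) (const 0)
  have h1 : Poly (fun p : α × List Bool => p.2.map fun b => bif b then (1 : ℤ) else 0) :=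
    map (F := fun (_ : α × List Bool) (b : Bool) => bif b then (1 : ℤ) else 0) (snd id) h0
  exact map (F := fun (_ : α) (r : List Bool) => r.map fun b => bif b then (1 : ℤ) else 0) hL h1

theorem zP {n u v : α → ℕ} (hn : UPoly n) (hu : Poly u) (hv : Poly v) :
    Poly (fun a => H687R2.Pgst.zP (n a) (u a) (v a)) := by
  have h0 : Poly (fun p : α × ℕ => (bif decide (p.2 = u p.1) then (1 : ℤ) else 0) +
      (bif decide (p.2 = v p.1) then (1 : ℤ) else 0)) :=
    iadd (cond (decide_eq (snd id) (hu.comp (fst id))) (const 1) (const 0))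
      (cond (decide_eq (snd id) (hv.comp (fst id))) (const 1) (const 0))
  exact map (F := fun a j => (bif decide (j = u a) then (1 : ℤ) else 0) +
      (bif decide (j = v a) then (1 : ℤ) else 0)) (UPoly.range hn) h0

theorem zM {n u v : α → ℕ} (hn : UPoly n) (hu : Poly u) (hv : Poly v) :
    Poly (fun a => H687R2.Pgst.zM (n a) (u a) (v a)) := by
  have h0 : Poly (fun p : α × ℕ => (bif decide (p.2 = u p.1) then (1 : ℤ) else 0) -
      (bif decide (p.2 = v p.1) then (1 : ℤ) else 0)) :=
    isub (cond (decide_eq (snd id) (hu.comp (fst id))) (const 1) (const 0))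
      (cond (decide_eq (snd id) (hv.comp (fst id))) (const 1) (const 0))
  exact map (F := fun a j => (bif decide (j = u a) then (1 : ℤ) else 0) -
      (bif decide (j = v a) then (1 : ℤ) else 0)) (UPoly.range hn) h0

theorem gt {L : α → List (List Bool)} {i j : α → ℕ} (hL : Poly L) (hi : Poly i) (hj : Poly j) :
    Poly (fun a => H687R2.Pgst.gt (L a) (i a) (j a)) :=
  getD (getD hL hi (const [])) hj (const false)

theorem valid : Poly H687R2.Pgst.valid := by
  have hL : Poly (fun a : List (List Bool) × ℕ × ℕ => a.1) := fst id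
  have hn : UPoly (fun a : List (List Bool) × ℕ × ℕ => a.1.length) := UPoly.length hL
  have h1 : Poly (fun a : List (List Bool) × ℕ × ℕ =>
      a.1.all fun r => decide (r.length = a.1.length)) :=
    all (p := fun (a : List (List Bool) × ℕ × ℕ) r => decide (r.length = a.1.length)) hL
      (decide_eq (length (snd id)) (length (fst (fst id))))
  have h2a : Poly (fun p : ((List (List Bool) × ℕ × ℕ) × ℕ) × ℕ =>
      (H687R2.Pgst.gt p.1.1.1 p.1.2 p.2 == H687R2.Pgst.gt p.1.1.1 p.2 p.1.2)) :=
    beqBool (gt (fst (fst (fst id))) (snd (fst id)) (snd id))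
      (gt (fst (fst (fst id))) (snd id) (snd (fst id)))
  have h2b : Poly (fun p : (List (List Bool) × ℕ × ℕ) × ℕ =>
      (List.range p.1.1.length).all fun j =>
        (H687R2.Pgst.gt p.1.1 p.2 j == H687R2.Pgst.gt p.1.1 j p.2)) :=
    all (p := fun (p : (List (List Bool) × ℕ × ℕ) × ℕ) j =>
      (H687R2.Pgst.gt p.1.1 p.2 j == H687R2.Pgst.gt p.1.1 j p.2)) (range_length (fst (fst id))) h2a
  have h2 : Poly (fun a : List (List Bool) × ℕ × ℕ => (List.range a.1.length).all fun i =>
      (List.range a.1.length).all fun j =>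
        (H687R2.Pgst.gt a.1 i j == H687R2.Pgst.gt a.1 j i)) :=
    all (p := fun (a : List (List Bool) × ℕ × ℕ) i => (List.range a.1.length).all fun j =>
        (H687R2.Pgst.gt a.1 i j == H687R2.Pgst.gt a.1 j i)) (range_length hL) h2b
  have h3 : Poly (fun a : List (List Bool) × ℕ × ℕ => (List.range a.1.length).all fun i =>
      !(H687R2.Pgst.gt a.1 i i)) :=
    all (p := fun (a : List (List Bool) × ℕ × ℕ) i => !(H687R2.Pgst.gt a.1 i i))
      (range_length hL) (not (gt (fst (fst id)) (snd id) (snd id)))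
  have h4 : Poly (fun a : List (List Bool) × ℕ × ℕ => decide (a.2.1 < a.1.length)) :=
    decide_lt (fst (snd id)) (length hL)
  have h5 : Poly (fun a : List (List Bool) × ℕ × ℕ => decide (a.2.2 < a.1.length)) :=
    decide_lt (snd (snd id)) (length hL)
  have h6 : Poly (fun a : List (List Bool) × ℕ × ℕ => !decide (a.2.1 = a.2.2)) :=
    not (decide_eq (fst (snd id)) (snd (snd id)))
  exact and (and h1 h2) (and h3 (and (and h4 h5) h6))

theorem alg : Poly (fun a : {a : List (List Bool) × ℕ × ℕ // H687R2.Pgst.valid a = true} =>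
    H687R2.Pgst.alg a.1) := by
  have hid : Poly (fun a : {a : List (List Bool) × ℕ × ℕ // H687R2.Pgst.valid a = true} => a.1) :=
    val id
  have hL : Poly (fun a : {a : List (List Bool) × ℕ × ℕ // H687R2.Pgst.valid a = true} => a.1.1) :=
    fst hid
  have hn : UPoly (fun a : {a : List (List Bool) × ℕ × ℕ // H687R2.Pgst.valid a = true} =>
      a.1.1.length) := UPoly.length hL
  have hA := toA hL
  have hA1 : ∀ a : {a : List (List Bool) × ℕ × ℕ // H687R2.Pgst.valid a = true},
      ∀ r ∈ H687R2.Pgst.toA a.1.1, ∀ x ∈ r, |x| ≤ 1 := by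
    intro a r hr x hx
    rw [H687R2.Pgst.toA, List.mem_map] at hr
    obtain ⟨s, _, rfl⟩ := hr
    rw [List.mem_map] at hx
    obtain ⟨b, _, rfl⟩ := hx
    cases b <;> simp
  have hPP := minP hA (zP hn (fst (snd hid)) (snd (snd hid))) hA1 (fun a => nrm_zP _ _ _)
  have hPM := minP hA (zM hn (fst (snd hid)) (snd (snd hid))) hA1 (fun a => nrm_zM _ _ _)
  have hK : Poly (fun a : {a : List (List Bool) × ℕ × ℕ // H687R2.Pgst.valid a = true} =>
      List.replicate (pK a.1.1.length) ()) := upK hn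
  have hkP : Poly (fun a : {a : List (List Bool) × ℕ × ℕ // H687R2.Pgst.valid a = true} =>
      H687R2.Pgst.kP a.1) := by
    have := NPC.PgstR.poly_rootApprox.comp (pair hPP hK)
    exact this
  have hkM : Poly (fun a : {a : List (List Bool) × ℕ × ℕ // H687R2.Pgst.valid a = true} =>
      H687R2.Pgst.kM a.1) := by
    have := NPC.PgstR.poly_rootApprox.comp (pair hPM hK)
    exact this
  refine ans hn (length hkP) (append hkP hkM) fun a => ?_
  obtain ⟨n, G, hdec, u, v, huv, ha⟩ := exists_of_valid a.2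
  obtain ⟨m₀, m₁, θ, P₀, P₁, h1, h2, _⟩ := main_facts G u v huv
  refine ⟨m₀, m₁, θ, P₀, P₁, ?_, ?_⟩
  · rw [ha]; exact h1
  · rw [ha]; simp only [length_code]; exact h2

/-- A test on a domain, then a computation that is only polynomial-time on that domain. -/
theorem diteSub {c : α → Bool} {f : α → Bool} (hc : Poly c)
    (hf : Poly (fun a : {a // c a = true} => f a.1)) :
    Poly (fun a => c a && f a) := by
  have hg : PC (fun a : {a // toT (c a) = T.nil} => bits a.1) (bits : Bool → List Bool)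
      (fun _ => false) := PC.const false
  have hh : PC (fun a : {a // toT (c a) ≠ T.nil} => bits a.1) (bits : Bool → List Bool)
      (fun a => f a.1) := by
    obtain ⟨p, q, hpq⟩ := hf
    refine ⟨p, q, fun a => ?_⟩
    have hca : c a.1 = true := by
      have := a.2
      cases h : c a.1
      · rw [h] at this; exact absurd rfl this
      · rfl
    exact hpq ⟨a.1, hca⟩
  have h1 := PC.dite (f := fun a => toT (c a)) hc hg hh
  refine PC.congr h1 fun a => ?_
  by_cases h : c a = true
  · have e1 : toT (c a) ≠ T.nil := by rw [h]; simp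
    have e2 : (c a && f a) = f a := by rw [h, Bool.true_and]
    rw [e2]
    exact dif_neg e1
  · have h' : c a = false := by simpa using h
    have e1 : toT (c a) = T.nil := by rw [h']; rfl
    have e2 : (c a && f a) = false := by rw [h', Bool.false_and]
    rw [e2]
    exact dif_pos e1

end Pool.Agent.NPC.Poly

namespace Pool.Agent.H687R2.Pgst

open Pool.Agent.NPC

/-- Pretty good state transfer is decidable in polynomial time. -/
theorem inPP_problem : InPP Problem := by
  refine inPP_of (d := fun a => valid a && alg a) (Poly.diteSub Poly.valid Poly.alg) fun a => ?_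
  rw [Bool.and_eq_true]
  constructor
  · rintro ⟨n, G, hdec, u, v, huv, rfl, hp⟩
    obtain ⟨m₀, m₁, θ, P₀, P₁, _, _, h3⟩ := main_facts G u v huv
    exact ⟨valid_code G huv, h3.2 hp⟩
  · rintro ⟨hv, halg⟩
    obtain ⟨n, G, hdec, u, v, huv, rfl⟩ := exists_of_valid hv
    obtain ⟨m₀, m₁, θ, P₀, P₁, _, _, h3⟩ := main_facts G u v huv
    exact ⟨n, G, hdec, u, v, huv, rfl, h3.1 halg⟩

end Pool.Agent.H687R2.Pgst
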