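import Pool.Agent.H687R2.Pgst.MkX
import Pool.Agent.H757R2.PgstRoots

/-!
# The minimal polynomial of an integer vector, in polynomial time
-/

namespace Pool.Agent.H687R2.Pgst

open Pool.Agent.NPC Pool.Agent.H687R2.LLL Polynomial

/-- Matrix times vector. -/
def mulV (A : List (List ℤ)) (z : List ℤ) : List ℤ := A.map fun r => dot r z

/-- The list `[z, A z, ..., A ^ (N - 1) z]`. -/
def kryL (A : List (List ℤ)) (z : List ℤ) (N : ℕ) : List (List ℤ) :=
  ((fun s : List (List ℤ) × List ℤ => (s.1 ++ [s.2], mulV A s.2))^[N] ([], z)).1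

theorem kry_iter (A : List (List ℤ)) (z : List ℤ) (N : ℕ) :
    (fun s : List (List ℤ) × List ℤ => (s.1 ++ [s.2], mulV A s.2))^[N] ([], z) =
      ((List.range N).map fun k => (mulV A)^[k] z, (mulV A)^[N] z) := by
  induction N with
  | zero => simp
  | succ N ih =>
    rw [Function.iterate_succ_apply', ih, List.range_succ, Function.iterate_succ_apply']
    simp

theorem kryL_eq (A : List (List ℤ)) (z : List ℤ) (N : ℕ) :
    kryL A z N = (List.range N).map fun k => (mulV A)^[k] z := by
  rw [kryL, kry_iter]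

theorem natAbs_dot_le' {r : List ℤ} (h : ∀ x ∈ r, |x| ≤ 1) (z : List ℤ) :
    (dot r z).natAbs ≤ nrm z := by
  induction r generalizing z with
  | nil => simp [dot]
  | cons x r ih =>
    cases z with
    | nil => simp [dot]
    | cons y z =>
      have h1 := ih (fun y hy => h y (List.mem_cons_of_mem _ hy)) z
      have h2 := h x (by simp)
      have h3 : (x * y + dot r z).natAbs ≤ x.natAbs * y.natAbs + (dot r z).natAbs := by
        have := Int.natAbs_add_le (x * y) (dot r z)
        rwa [Int.natAbs_mul] at this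
      have h4 : x.natAbs ≤ 1 := by
        rw [Int.abs_eq_natAbs] at h2; exact_mod_cast h2
      simp only [dot, List.zipWith_cons_cons, nrm_cons, List.sum_cons] at h1 h3 ⊢
      nlinarith [Nat.mul_le_mul_right y.natAbs h4]

theorem nrm_mulV {A : List (List ℤ)} (h : ∀ r ∈ A, ∀ x ∈ r, |x| ≤ 1) (z : List ℤ) :
    nrm (mulV A z) ≤ A.length * nrm z := by
  refine (nrm_le_length_mul (B := nrm z) fun x hx => ?_).trans_eq (by simp [mulV])
  rw [mulV, List.mem_map] at hx
  obtain ⟨r, hr, rfl⟩ := hx
  exact natAbs_dot_le' (h r hr) z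

theorem nrm_kry {A : List (List ℤ)} (h : ∀ r ∈ A, ∀ x ∈ r, |x| ≤ 1) (z : List ℤ) (k : ℕ) :
    nrm ((mulV A)^[k] z) ≤ A.length ^ k * nrm z := by
  induction k with
  | zero => simp
  | succ k ih =>
    rw [Function.iterate_succ_apply', pow_succ]
    refine (nrm_mulV h _).trans ?_
    calc A.length * nrm ((mulV A)^[k] z) ≤ A.length * (A.length ^ k * nrm z) :=
          Nat.mul_le_mul_left _ ih
      _ = _ := by ring

theorem length_kry {A : List (List ℤ)} (z : List ℤ) (k : ℕ) :
    ((mulV A)^[k] z).length ≤ A.length + z.length := by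
  cases k with
  | zero => simp
  | succ k =>
    rw [Function.iterate_succ_apply']
    simp [mulV]

/-- The scaling exponent. -/
def w0 (n : ℕ) : ℕ := n * n + 2 * n + 2

/-- The bound exponent. -/
def b0 (n : ℕ) : ℕ := n * (n + 1)

/-- The size parameter. -/
def T0 (n : ℕ) : ℕ := w0 n + n * n + 1 + n

/-- The entries of the relation matrix. -/
def e0 (A : List (List ℤ)) (z : List ℤ) (i j : ℕ) : ℤ :=
  2 ^ w0 A.length * ((kryL A z (A.length + 1)).getD i []).getD j 0

/-- Relations of degree `d`. -/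
def cand (A : List (List ℤ)) (z : List ℤ) (d : ℕ) : List (List ℤ) :=
  (relShort (mkX (d + 1) A.length (e0 A z)) (T0 A.length) (4 ^ b0 A.length)).filter
    fun u => decide (¬ u.getD d 0 = 0)

/-- Signed exact division. -/
def exd (x c : ℤ) : ℤ := ofSM (decide (x < 0) ^^ decide (c < 0)) (x.natAbs / c.natAbs)

theorem exd_mul {c : ℤ} (hc : c ≠ 0) (p : ℤ) : exd (c * p) c = p := by
  unfold exd
  rw [Int.natAbs_mul, Nat.mul_div_cancel_left _ (by omega)]
  rcases lt_trichotomy p 0 with hp | hp | hp
  · rcases lt_or_gt_of_ne hc with h | h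
    · have h1 : ¬ c * p < 0 := not_lt.2 (mul_nonneg_of_nonpos_of_nonpos h.le hp.le)
      simp only [h1, h, decide_false, decide_true, ofSM]
      simp [abs_of_neg hp]
    · have h1 : c * p < 0 := mul_neg_of_pos_of_neg h hp
      have h2 : ¬ c < 0 := by omega
      simp only [h1, h2, decide_false, decide_true, ofSM]
      simp [abs_of_neg hp]
  · subst hp; simp [ofSM]
  · rcases lt_or_gt_of_ne hc with h | h
    · have h1 : c * p < 0 := mul_neg_of_neg_of_pos h hp
      simp only [h1, h, decide_true, ofSM]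
      simp; omega
    · have h1 : ¬ c * p < 0 := not_lt.2 (mul_nonneg h.le hp.le)
      have h2 : ¬ c < 0 := by omega
      simp only [h1, h2, decide_false, ofSM]
      simp; omega

/-- The minimal polynomial of a vector (list of coefficients). -/
def minP (A : List (List ℤ)) (z : List ℤ) : List ℤ :=
  match ((List.range (A.length + 1)).flatMap fun d => cand A z (min d A.length)).head? with
  | none => []
  | some u => u.map fun x => exd x (u.getD (u.length - 1) 0)

theorem head?_flatMap_range {β : Type} {f : ℕ → List β} {m N : ℕ} (hm : m < N)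
    (h0 : ∀ d < m, f d = []) (h1 : f m ≠ []) : ((List.range N).flatMap f).head? = (f m).head? := by
  obtain ⟨k, rfl⟩ : ∃ k, N = m + (k + 1) := ⟨N - m - 1, by omega⟩
  rw [List.range_add, List.flatMap_append]
  have h2 : (List.range m).flatMap f = [] := by
    rw [List.flatMap_eq_nil_iff]
    intro d hd
    exact h0 d (by simpa using hd)
  rw [h2, List.nil_append, List.range_succ_eq_map, List.map_cons, List.flatMap_cons, add_zero]
  cases hf : f m with
  | nil => exact absurd hf h1
  | cons x l => simp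

/-- A matrix as a list of rows. -/
def matL {n : ℕ} (M : Matrix (Fin n) (Fin n) ℤ) : List (List ℤ) :=
  List.ofFn fun i => List.ofFn fun j => M i j

/-- A vector as a list. -/
def vecL {n : ℕ} (v : Fin n → ℤ) : List ℤ := List.ofFn v

theorem length_matL {n : ℕ} (M : Matrix (Fin n) (Fin n) ℤ) : (matL M).length = n := by simp [matL]

theorem dot_ofFn {n : ℕ} (f g : Fin n → ℤ) : dot (List.ofFn f) (List.ofFn g) = ∑ i, f i * g i := by
  rw [dot]
  have : List.zipWith (fun x y => x * y) (List.ofFn f) (List.ofFn g) =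
      List.ofFn fun i => f i * g i := by
    apply List.ext_getElem
    · simp
    · intro i h1 h2
      simp
  rw [this, List.sum_ofFn]

theorem mulV_mat {n : ℕ} (M : Matrix (Fin n) (Fin n) ℤ) (v : Fin n → ℤ) :
    mulV (matL M) (vecL v) = vecL (M.mulVec v) := by
  rw [mulV, matL, List.map_ofFn, vecL, vecL]
  congr 1
  funext i
  simp only [Function.comp_apply]
  rw [dot_ofFn]
  rfl

theorem kry_mat {n : ℕ} (M : Matrix (Fin n) (Fin n) ℤ) (v : Fin n → ℤ) (k : ℕ) :
    (mulV (matL M))^[k] (vecL v) = vecL ((M ^ k).mulVec v) := by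
  induction k with
  | zero => simp
  | succ k ih => rw [Function.iterate_succ_apply', ih, mulV_mat, Matrix.mulVec_mulVec, pow_succ']

theorem matL_entry {n : ℕ} {M : Matrix (Fin n) (Fin n) ℤ} (h1 : ∀ i j, |M i j| ≤ 1) :
    ∀ r ∈ matL M, ∀ x ∈ r, |x| ≤ 1 := by
  intro r hr x hx
  rw [matL, List.mem_ofFn] at hr
  obtain ⟨i, rfl⟩ := hr
  rw [List.mem_ofFn] at hx
  obtain ⟨j, rfl⟩ := hx
  exact h1 i j

theorem nat_le_two_pow (n : ℕ) : n ≤ 2 ^ n := Nat.lt_two_pow_self.le

section Spec

variable {n : ℕ} {M : Matrix (Fin n) (Fin n) ℤ} {v : Fin n → ℤ}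

theorem e0_eq (i : ℕ) (hi : i ≤ n) (j : Fin n) :
    e0 (matL M) (vecL v) i j = 2 ^ w0 n * (M ^ i).mulVec v j := by
  rw [e0, length_matL, kryL_eq]
  rw [List.getD_eq_getElem (List.map _ _) _ (by simp; omega)]
  simp only [List.getElem_map, List.getElem_range]
  rw [kry_mat, vecL, List.getD_eq_getElem _ _ (by simp)]
  simp

theorem e0_le {A : List (List ℤ)} (hA : ∀ r ∈ A, ∀ x ∈ r, |x| ≤ 1) {z : List ℤ}
    (hz : nrm z ≤ 2) (i j : ℕ) :
    |e0 A z i j| ≤ 2 ^ (w0 A.length + A.length * A.length + 1) := by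
  have h1 : (((kryL A z (A.length + 1)).getD i []).getD j 0).natAbs ≤
      2 ^ (A.length * A.length + 1) := by
    by_cases hi : i < A.length + 1
    · rw [kryL_eq, List.getD_eq_getElem (List.map _ _) _ (by simpa using hi)]
      simp only [List.getElem_map, List.getElem_range]
      by_cases hj : j < ((mulV A)^[i] z).length
      · rw [List.getD_eq_getElem _ _ hj]
        refine (natAbs_le_nrm (List.getElem_mem _)).trans ((nrm_kry hA z i).trans ?_)
        have e1 : A.length ^ i ≤ 2 ^ (A.length * A.length) := by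
          calc A.length ^ i ≤ (2 ^ A.length) ^ i := Nat.pow_le_pow_left (nat_le_two_pow _) _
            _ ≤ (2 ^ A.length) ^ A.length := Nat.pow_le_pow_right Nat.one_le_two_pow (by omega)
            _ = _ := by rw [← pow_mul]
        rw [pow_succ]
        exact Nat.mul_le_mul e1 hz
      · rw [List.getD_eq_default _ _ (by omega)]; simp
    · rw [List.getD_eq_default (l := kryL A z (A.length + 1)) (n := i) _
        (by rw [kryL_eq]; simp; omega)]
      simp
  rw [e0, abs_mul, abs_of_pos (a := (2 : ℤ) ^ w0 A.length) (by positivity), add_assoc, pow_add]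
  refine mul_le_mul_of_nonneg_left ?_ (by positivity)
  rw [Int.abs_eq_natAbs]
  exact_mod_cast h1

theorem T0_ok (n : ℕ) : n * 2 ^ (w0 n + n * n + 1) < 2 ^ T0 n := by
  rw [T0, pow_add _ _ n, mul_comm]
  exact Nat.mul_lt_mul_of_pos_left Nat.lt_two_pow_self (by positivity)

theorem add_one_le_T0 {d n : ℕ} (hd : d ≤ n) : d + 1 ≤ T0 n := by
  unfold T0 w0; nlinarith

theorem polyOf_mulVec (u : List ℤ) (N : ℕ) (hN : u.length ≤ N) :
    (aeval M (polyOf u)).mulVec v = fun j => ∑ i ∈ Finset.range N, ent u i * (M ^ i).mulVec v j := by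
  funext j
  have h1 : polyOf u = ∑ i ∈ Finset.range N, C (ent u i) * X ^ i := by
    ext k
    rw [NPC.PgstR.coeff_polyOf, finsetSum_coeff]
    simp only [coeff_C_mul, coeff_X_pow, mul_ite, mul_one, mul_zero, Finset.sum_ite_eq,
      Finset.mem_range]
    split_ifs with h
    · rfl
    · rw [List.getD_eq_default _ _ (by omega)]
  rw [h1, map_sum, Matrix.sum_mulVec, Finset.sum_apply]
  refine Finset.sum_congr rfl fun i _ => ?_
  rw [map_mul, aeval_C, map_pow, aeval_X, ← Algebra.smul_def, Matrix.smul_mulVec]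
  rfl

/-- The correctness of the computation of the minimal polynomial. -/
theorem minP_spec (h1 : ∀ i j, |M i j| ≤ 1) (hz : nrm (vecL v) ≤ 2) {P : Polynomial ℤ} {m : ℕ}
    (hm : m ≤ n) (hP : P.Monic) (hdeg : P.natDegree = m)
    (hcoeff : ∀ k, |P.coeff k| ≤ ((n : ℤ) + 1) ^ n)
    (hann : ∀ Q : Polynomial ℤ, (aeval M Q).mulVec v = 0 ↔ P ∣ Q) :
    polyOf (minP (matL M) (vecL v)) = P := by
  have hA := matL_entry h1
  have he : ∀ d, ∀ i < d + 1, ∀ j < n, |e0 (matL M) (vecL v) i j| ≤ 2 ^ (w0 n + n * n + 1) := by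
    intro d i _ j _
    have := e0_le hA hz i j
    rwa [length_matL] at this
  -- exactness of the relations found
  have hrel : ∀ d ≤ n, ∀ u ∈ relShort (mkX (d + 1) n (e0 (matL M) (vecL v))) (T0 n) (4 ^ b0 n),
      u.length = d + 1 ∧ P ∣ polyOf u := by
    intro d hd u hu
    obtain ⟨g1, _, g3⟩ := relShort_mkX (he d) (T0_ok n) (add_one_le_T0 hd) (b0 n) hu
    refine ⟨g1, (hann _).1 ?_⟩
    rw [polyOf_mulVec u (d + 1) g1.le]
    funext j
    have g4 := g3 j j.2
    have g5 : ∑ i ∈ Finset.range (d + 1), ent u i * e0 (matL M) (vecL v) i j =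
        2 ^ w0 n * ∑ i ∈ Finset.range (d + 1), ent u i * (M ^ i).mulVec v j := by
      rw [Finset.mul_sum]
      refine Finset.sum_congr rfl fun i hi => ?_
      rw [e0_eq i (by simp at hi; omega) j]; ring
    rw [g5] at g4
    by_contra g6
    have g7 : 1 ≤ |∑ i ∈ Finset.range (d + 1), ent u i * (M ^ i).mulVec v j| :=
      Int.one_le_abs g6
    rw [abs_mul, abs_of_pos (a := (2 : ℤ) ^ w0 n) (by positivity)] at g4
    have g8 : (2 : ℤ) ^ (d + 1 + b0 n) < 2 ^ w0 n := by
      refine pow_lt_pow_right₀ (by norm_num) ?_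
      unfold b0 w0; nlinarith
    have g9 : (2 : ℤ) ^ w0 n ≤
        2 ^ w0 n * |∑ i ∈ Finset.range (d + 1), ent u i * (M ^ i).mulVec v j| :=
      le_mul_of_one_le_right (by positivity) g7
    omega
  have hcand : ∀ d ≤ n, ∀ u ∈ cand (matL M) (vecL v) d, u.length = d + 1 ∧ P ∣ polyOf u ∧
      u.getD d 0 ≠ 0 := by
    intro d hd u hu
    rw [cand, List.mem_filter, length_matL] at hu
    obtain ⟨g1, g2⟩ := hrel d hd u hu.1
    exact ⟨g1, g2, by simpa using hu.2⟩
  -- no relation of small degree
  have hlt : ∀ d < m, cand (matL M) (vecL v) (min d n) = [] := by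
    intro d hd
    rw [min_eq_left (by omega)]
    rw [List.eq_nil_iff_forall_not_mem]
    intro u hu
    obtain ⟨g1, g2, g3⟩ := hcand d (by omega) u hu
    have g4 : polyOf u ≠ 0 := by
      intro h0
      have := NPC.PgstR.coeff_polyOf u d
      rw [h0, coeff_zero] at this
      exact g3 this.symm
    have g5 := natDegree_le_of_dvd g2 g4
    have g6 : (polyOf u).natDegree ≤ d := by
      rw [natDegree_le_iff_coeff_eq_zero]
      intro N hN
      rw [NPC.PgstR.coeff_polyOf, List.getD_eq_default _ _ (by omega)]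
    omega
  -- a relation of degree m
  have hne : cand (matL M) (vecL v) (min m n) ≠ [] := by
    rw [min_eq_left hm]
    intro h0
    have g1 : ∀ u ∈ relShort (mkX (m + 1) n (e0 (matL M) (vecL v))) (T0 n) (4 ^ b0 n),
        ∑ i ∈ Finset.range (m + 1), (ent u i : ℤ) * (if i = m then 1 else 0) = 0 := by
      intro u hu
      have g2 : u ∉ cand (matL M) (vecL v) m := by rw [h0]; simp
      rw [cand, List.mem_filter, length_matL] at g2
      have g3 : u.getD m 0 = 0 := by
        by_contra g4
        exact g2 ⟨hu, by simpa using g4⟩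
      simp only [mul_ite, mul_one, mul_zero, Finset.sum_ite_eq', Finset.mem_range, ent, g3,
        ite_self]
    have g2 := relShort_mkX_lin (he m) (T0_ok n) (add_one_le_T0 hm) (4 ^ b0 n)
      (fun i => P.coeff i) ?_ (R := ℤ) (fun i => if i = m then 1 else 0) g1
    · simp only [Int.cast_id, mul_ite, mul_one, mul_zero, Finset.sum_ite_eq', Finset.mem_range]
        at g2
      rw [if_pos (by omega)] at g2
      have g3 : P.coeff m = 1 := by rw [← hdeg]; exact hP
      omega
    · have g3 : ∀ j ∈ Finset.range n,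
          (∑ i ∈ Finset.range (m + 1), P.coeff i * e0 (matL M) (vecL v) i j) ^ 2 = 0 := by
        intro j hj
        have hj' : j < n := by simpa using hj
        have g4 : ∑ i ∈ Finset.range (m + 1), P.coeff i * e0 (matL M) (vecL v) i j =
            2 ^ w0 n * ∑ i ∈ Finset.range (m + 1), P.coeff i * (M ^ i).mulVec v ⟨j, hj'⟩ := by
          rw [Finset.mul_sum]
          refine Finset.sum_congr rfl fun i hi => ?_
          have := e0_eq (M := M) (v := v) i (by simp at hi; omega) ⟨j, hj'⟩
          simp only at this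
          rw [this]; ring
        have g5 := congrFun ((hann P).2 dvd_rfl) ⟨j, hj'⟩
        have g6 : (aeval M P).mulVec v ⟨j, hj'⟩ =
            ∑ i ∈ Finset.range (m + 1), P.coeff i * (M ^ i).mulVec v ⟨j, hj'⟩ := by
          conv_lhs => rw [P.as_sum_range_C_mul_X_pow, hdeg]
          rw [map_sum, Matrix.sum_mulVec, Finset.sum_apply]
          refine Finset.sum_congr rfl fun i _ => ?_
          rw [map_mul, aeval_C, map_pow, aeval_X, ← Algebra.smul_def, Matrix.smul_mulVec]
          rfl
        rw [g4, ← g6, g5]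
        simp
      rw [Finset.sum_congr rfl g3, Finset.sum_const_zero, add_zero]
      have g4 : ∀ i ∈ Finset.range (m + 1), P.coeff i ^ 2 ≤ (((n : ℤ) + 1) ^ n) ^ 2 := by
        intro i _
        exact sq_le_sq' (by have := hcoeff i; rw [abs_le] at this; exact this.1)
          (by have := hcoeff i; rw [abs_le] at this; exact this.2)
      refine (Finset.sum_le_sum g4).trans ?_
      rw [Finset.sum_const, Finset.card_range, nsmul_eq_mul]
      have g5 : (n : ℤ) + 1 ≤ 2 ^ n := by
        have := Nat.lt_two_pow_self (n := n)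
        exact_mod_cast this
      have g6 : (m : ℤ) + 1 ≤ 2 ^ n := by
        have : (m : ℤ) ≤ n := by exact_mod_cast hm
        omega
      push_cast
      calc ((m : ℤ) + 1) * (((n : ℤ) + 1) ^ n) ^ 2 ≤ 2 ^ n * ((2 ^ n) ^ n) ^ 2 := by gcongr
        _ = 2 ^ (n + n * n * 2) := by
            rw [← pow_mul, ← pow_mul, ← pow_add, mul_assoc n n 2]
        _ ≤ 2 ^ (2 * b0 n) := pow_le_pow_right₀ (by norm_num) (by unfold b0; nlinarith)
        _ = 4 ^ b0 n := by rw [pow_mul]; norm_num
  -- the first candidate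
  have hhead := head?_flatMap_range (f := fun d => cand (matL M) (vecL v) (min d n))
    (N := n + 1) (m := m) (by omega) hlt hne
  unfold minP
  rw [length_matL, hhead]
  cases hc : cand (matL M) (vecL v) (min m n) with
  | nil => exact absurd hc hne
  | cons u l =>
    rw [List.head?_cons]
    simp only
    have hu : u ∈ cand (matL M) (vecL v) m := by
      have : u ∈ cand (matL M) (vecL v) (min m n) := by rw [hc]; simp
      rwa [min_eq_left hm] at this
    obtain ⟨g1, ⟨q, g2⟩, g3⟩ := hcand m hm u hu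
    -- u is a multiple of P
    have g4 : polyOf u ≠ 0 := by
      intro h0
      have := NPC.PgstR.coeff_polyOf u m
      rw [h0, coeff_zero] at this
      exact g3 this.symm
    have g6 : (polyOf u).natDegree ≤ m := by
      rw [natDegree_le_iff_coeff_eq_zero]
      intro N hN
      rw [NPC.PgstR.coeff_polyOf, List.getD_eq_default _ _ (by omega)]
    have hq0 : q ≠ 0 := by rintro rfl; rw [mul_zero] at g2; exact g4 g2
    have g7 : q.natDegree = 0 := by
      have := hP.natDegree_mul' hq0
      rw [← g2, hdeg] at this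
      omega
    obtain ⟨c, rfl⟩ : ∃ c, q = C c := ⟨_, eq_C_of_natDegree_eq_zero g7⟩
    have g8 : ∀ i, u.getD i 0 = c * P.coeff i := by
      intro i
      rw [← NPC.PgstR.coeff_polyOf, g2, mul_comm, coeff_C_mul]
    have g9 : u.getD (u.length - 1) 0 = c := by
      rw [g1, Nat.add_sub_cancel, g8]
      have : P.coeff m = 1 := by rw [← hdeg]; exact hP
      rw [this, mul_one]
    have hc0 : c ≠ 0 := by rintro rfl; simp at hq0
    ext i
    rw [NPC.PgstR.coeff_polyOf, g9]
    by_cases hi : i < u.length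
    · rw [List.getD_eq_getElem _ _ (by simpa using hi), List.getElem_map]
      have := g8 i
      rw [List.getD_eq_getElem _ _ hi] at this
      rw [this, exd_mul hc0]
    · rw [List.getD_eq_default _ _ (by simp; omega), coeff_eq_zero_of_natDegree_lt (by omega)]

end Spec

end Pool.Agent.H687R2.Pgst

namespace Pool.Agent.NPC.Poly

open Pool.Agent.H687R2.LLL Pool.Agent.H687R2.Pgst

variable {α β γ δ σ : Type} [TEnc α] [TEnc β] [TEnc γ] [TEnc δ] [TEnc σ]

theorem mulV {A : α → List (List ℤ)} {z : α → List ℤ} (hA : Poly A) (hz : Poly z) :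
    Poly (fun a => H687R2.Pgst.mulV (A a) (z a)) := by
  have h1 : Poly (fun p : α × List ℤ => H687R2.LLL.dot p.2 (z p.1)) :=
    vdot (snd id) (hz.comp (fst id))
  exact map (F := fun a r => H687R2.LLL.dot r (z a)) hA h1

theorem kryL {A : α → List (List ℤ)} {z : α → List ℤ} {N : α → ℕ} (hA : Poly A) (hz : Poly z)
    (hN : UPoly N) (h : ∀ a, ∀ r ∈ A a, ∀ x ∈ r, |x| ≤ 1) :
    Poly (fun a => H687R2.Pgst.kryL (A a) (z a) (N a)) := by
  obtain ⟨rA, hrA⟩ := hA.sz_le
  obtain ⟨rz, hrz⟩ := hz.sz_le
  obtain ⟨uN, huN⟩ := Poly.sz_le hN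
  have hF : Poly (fun p : α × (List (List ℤ) × List ℤ) =>
      ((p.2.1 ++ [p.2.2], H687R2.Pgst.mulV (A p.1) p.2.2) : List (List ℤ) × List ℤ)) :=
    pair (append (fst (snd id)) (cons (snd (snd id)) (const [])))
      (mulV (hA.comp (fst id)) (snd (snd id)))
  have hs : Poly (fun a => (([], z a) : List (List ℤ) × List ℤ)) := pair (const []) hz
  have h1 := iterLen (l := fun a => List.replicate (N a) ())
    (s := fun a => (([], z a) : List (List ℤ) × List ℤ))
    (F := fun a (s : List (List ℤ) × List ℤ) => (s.1 ++ [s.2], H687R2.Pgst.mulV (A a) s.2))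
    hN hs hF (uN * (((rA + rz) * (Polynomial.C 4 * (rA * uN + rz) + Polynomial.C 6) +
      Polynomial.C 1) + Polynomial.C 1) + Polynomial.C 1 +
      ((rA + rz) * (Polynomial.C 4 * (rA * uN + rz) + Polynomial.C 6) + Polynomial.C 1) +
      Polynomial.C 1) ?_
  · have h2 := fst h1
    simp only [List.length_replicate] at h2
    exact h2
  · intro a k hk
    rw [kry_iter, sz_pair]
    simp only [List.length_replicate] at hk
    have e1 := hrA a
    have e2 := hrz a
    have e3 := huN a
    have e4 := length_lt_sz (A a)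
    have e5 := length_lt_sz (List.replicate (N a) ())
    rw [List.length_replicate] at e5
    have e6 := length_lt_sz (z a)
    simp only [Polynomial.eval_add, Polynomial.eval_mul, Polynomial.eval_C]
    set ra := rA.eval (sz a)
    set rz' := rz.eval (sz a)
    set un := uN.eval (sz a)
    have hv : ∀ j ≤ k, sz ((H687R2.Pgst.mulV (A a))^[j] (z a)) ≤
        (ra + rz') * (4 * (ra * un + rz') + 6) + 1 := by
      intro j hj
      have f1 := nrm_kry (h a) (z a) j
      have f2 : nrm ((H687R2.Pgst.mulV (A a))^[j] (z a)) < 2 ^ (ra * un + rz') := by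
        refine lt_of_le_of_lt f1 ?_
        have g1 : (A a).length ^ j ≤ 2 ^ (ra * un) := by
          calc (A a).length ^ j ≤ (2 ^ (A a).length) ^ j := Nat.pow_le_pow_left (nat_le_two_pow _) _
            _ = 2 ^ ((A a).length * j) := by rw [← pow_mul]
            _ ≤ 2 ^ (ra * un) := Nat.pow_le_pow_right (by norm_num)
                (Nat.mul_le_mul (by omega) (by omega))
        have g2 : nrm (z a) < 2 ^ rz' := lt_of_lt_of_le (nrm_lt (z a))
          (Nat.pow_le_pow_right (by norm_num) e2)
        rw [pow_add]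
        exact lt_of_le_of_lt (Nat.mul_le_mul_right _ g1) (Nat.mul_lt_mul_of_pos_left g2 (by positivity))
      have f3 := sz_of_nrm f2
      have f4 := length_kry (A := A a) (z a) j
      exact f3.trans (Nat.add_le_add_right (Nat.mul_le_mul_right _ (by omega)) _)
    have h3 : sz ((List.range k).map fun j => (H687R2.Pgst.mulV (A a))^[j] (z a)) ≤
        k * (((ra + rz') * (4 * (ra * un + rz') + 6) + 1) + 1) + 1 := by
      refine (sz_le_length_mul _ ((ra + rz') * (4 * (ra * un + rz') + 6) + 1)
        fun x hx => ?_).trans_eq (by simp)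
      rw [List.mem_map] at hx
      obtain ⟨j, hj, rfl⟩ := hx
      exact hv j (by simp at hj; omega)
    have h4 := hv k le_rfl
    have h5 : k * (((ra + rz') * (4 * (ra * un + rz') + 6) + 1) + 1) ≤
        un * (((ra + rz') * (4 * (ra * un + rz') + 6) + 1) + 1) := Nat.mul_le_mul_right _ (by omega)
    omega

theorem ent {u : α → List ℤ} {i : α → ℕ} (hu : Poly u) (hi : Poly i) :
    Poly (fun a => (u a).getD (i a) 0) := getD hu hi (const 0)

theorem ent2 {u : α → List (List ℤ)} {i j : α → ℕ} (hu : Poly u) (hi : Poly i) (hj : Poly j) :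
    Poly (fun a => ((u a).getD (i a) []).getD (j a) 0) := getD (getD hu hi (const [])) hj (const 0)

theorem _root_.Pool.Agent.NPC.UPoly.congr {n m : α → ℕ} (hn : UPoly n) (h : ∀ a, n a = m a) :
    UPoly m := by
  have : n = m := funext h
  rwa [← this]

theorem w0 {n : α → ℕ} (hn : UPoly n) : UPoly (fun a => H687R2.Pgst.w0 (n a)) :=
  UPoly.add (UPoly.add (UPoly.mul hn hn) (UPoly.mul (UPoly.const 2) hn)) (UPoly.const 2)

theorem b0 {n : α → ℕ} (hn : UPoly n) : UPoly (fun a => H687R2.Pgst.b0 (n a)) :=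
  UPoly.mul hn (UPoly.add hn (UPoly.const 1))

theorem T0 {n : α → ℕ} (hn : UPoly n) : UPoly (fun a => H687R2.Pgst.T0 (n a)) :=
  UPoly.add (UPoly.add (UPoly.add (w0 hn) (UPoly.mul hn hn)) (UPoly.const 1)) hn

theorem exd {x c : α → ℤ} (hx : Poly x) (hc : Poly c) :
    Poly (fun a => H687R2.Pgst.exd (x a) (c a)) := idivExact hx hc

theorem minP {A : α → List (List ℤ)} {z : α → List ℤ} (hA : Poly A) (hz : Poly z)
    (h : ∀ a, ∀ r ∈ A a, ∀ x ∈ r, |x| ≤ 1) (h2 : ∀ a, nrm (z a) ≤ 2) :
    Poly (fun a => H687R2.Pgst.minP (A a) (z a)) := by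
  have hn : UPoly (fun a => (A a).length) := UPoly.length hA
  have hn1 : UPoly (fun a => (A a).length + 1) := UPoly.add hn (UPoly.const 1)
  have hkr : Poly (fun a => H687R2.Pgst.kryL (A a) (z a) ((A a).length + 1)) := kryL hA hz hn1 h
  have hpw : Poly (fun a => (2 : ℤ) ^ H687R2.Pgst.w0 (A a).length) := ipow (const 2) (w0 hn)
  -- candidates
  have hd : UPoly (fun p : α × ℕ => Min.min p.2 (A p.1).length) :=
    UPoly.of_le (min (snd id) (length (hA.comp (fst id)))) (UPoly.comp hn (fst id))
      (fun p => Nat.min_le_right _ _)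
  have he : Poly (fun p : ((α × ℕ) × ℕ) × ℕ => H687R2.Pgst.e0 (A p.1.1.1) (z p.1.1.1) p.1.2 p.2) := by
    have g1 : Poly (fun p : ((α × ℕ) × ℕ) × ℕ => (2 : ℤ) ^ H687R2.Pgst.w0 (A p.1.1.1).length) :=
      hpw.comp (fst (fst (fst id)))
    have g2 : Poly (fun p : ((α × ℕ) × ℕ) × ℕ => ((H687R2.Pgst.kryL (A p.1.1.1) (z p.1.1.1)
        ((A p.1.1.1).length + 1)).getD p.1.2 []).getD p.2 0) :=
      ent2 (hkr.comp (fst (fst (fst id)))) (snd (fst id)) (snd id)
    exact imul g1 g2
  have hrel : Poly (fun p : α × ℕ => H687R2.LLL.relShort (H687R2.LLL.mkX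
      (Min.min p.2 (A p.1).length + 1) (A p.1).length (H687R2.Pgst.e0 (A p.1) (z p.1)))
      (H687R2.Pgst.T0 (A p.1).length) (4 ^ H687R2.Pgst.b0 (A p.1).length)) := by
    have hn' : UPoly (fun p : α × ℕ => (A p.1).length) := UPoly.length (hA.comp (fst id))
    have hβ : Poly (fun p : α × ℕ => 4 ^ H687R2.Pgst.b0 (A p.1).length) :=
      npow (const 4) (b0 hn')
    refine relShort_mkX (s := fun p => H687R2.Pgst.w0 (A p.1).length +
      (A p.1).length * (A p.1).length + 1) (UPoly.add hd (UPoly.const 1)) hn' he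
      (T0 hn') hβ ?_ ?_ ?_
    · intro p i _ j _
      exact e0_le (h p.1) (h2 p.1) i j
    · intro p; exact T0_ok _
    · intro p; exact add_one_le_T0 (Nat.min_le_right _ _)
  have hcand : Poly (fun p : α × ℕ => H687R2.Pgst.cand (A p.1) (z p.1)
      (Min.min p.2 (A p.1).length)) := by
    have g1 : Poly (fun p : (α × ℕ) × List ℤ => decide (¬ p.2.getD (Min.min p.1.2
        (A p.1.1).length) 0 = 0)) :=
      decide_not (decide_eq (ent (snd id) (hd.toPoly.comp (fst id))) (const 0))
    exact filter (p := fun (p : α × ℕ) (u : List ℤ) => decide (¬ u.getD (Min.min p.2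
        (A p.1).length) 0 = 0)) hrel g1
  have hfm : Poly (fun a => ((List.range ((A a).length + 1)).flatMap fun d =>
      H687R2.Pgst.cand (A a) (z a) (Min.min d (A a).length)).head?) :=
    head? (flatMap (F := fun a d => H687R2.Pgst.cand (A a) (z a) (Min.min d (A a).length))
      (UPoly.range hn1) hcand)
  have hdiv : Poly (fun p : α × List ℤ => p.2.map fun x =>
      H687R2.Pgst.exd x (p.2.getD (p.2.length - 1) 0)) := by
    have g1 : Poly (fun q : (α × List ℤ) × ℤ => H687R2.Pgst.exd q.2
        (q.1.2.getD (q.1.2.length - 1) 0)) :=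
      exd (snd id) (ent (snd (fst id)) (sub (length (snd (fst id))) (const 1)))
    exact map (F := fun (p : α × List ℤ) x => H687R2.Pgst.exd x (p.2.getD (p.2.length - 1) 0))
      (snd id) g1
  refine (optCases (h := fun _ (u : List ℤ) => u.map fun x =>
    H687R2.Pgst.exd x (u.getD (u.length - 1) 0)) hfm (const []) hdiv).congr fun a => ?_
  unfold H687R2.Pgst.minP
  cases ((List.range ((A a).length + 1)).flatMap fun d =>
      H687R2.Pgst.cand (A a) (z a) (Min.min d (A a).length)).head? <;> rfl

end Pool.Agent.NPC.Poly
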