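import Pool.Agent.H687R2.Rel

/-!
# Matrices given by entry functions
-/

namespace Pool.Agent.H687R2.LLL

open Pool.Agent.NPC

/-- The matrix with `k` rows and `q` columns with given entries. -/
def mkX (k q : ℕ) (e : ℕ → ℕ → ℤ) : List (List ℤ) :=
  (List.range k).map fun i => (List.range q).map fun j => e i j

theorem length_mkX (k q : ℕ) (e : ℕ → ℕ → ℤ) : (mkX k q e).length = k := by simp [mkX]

theorem mkX_row (k q : ℕ) (e : ℕ → ℕ → ℤ) : ∀ r ∈ mkX k q e, r.length = q := by
  intro r hr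
  rw [mkX, List.mem_map] at hr
  obtain ⟨i, _, rfl⟩ := hr
  simp

theorem mkX_getD {k q : ℕ} (e : ℕ → ℕ → ℤ) {i j : ℕ} (hi : i < k) (hj : j < q) :
    ((mkX k q e).getD i []).getD j 0 = e i j := by
  rw [List.getD_eq_getElem (mkX k q e) _ (by rw [length_mkX]; exact hi)]
  simp only [mkX, List.getElem_map, List.getElem_range]
  rw [List.getD_eq_getElem _ _ (by simpa using hj)]
  simp

theorem form_mkX {k q : ℕ} (e : ℕ → ℕ → ℤ) (c : ℕ → ℤ) {j : ℕ} (hj : j < q) :
    form (mkX k q e) c j = ∑ i ∈ Finset.range k, c i * e i j := by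
  rw [form, length_mkX]
  exact Finset.sum_congr rfl fun i hi => by rw [mkX_getD e (by simpa using hi) hj]

theorem nrm_le_length_mul {l : List ℤ} {B : ℕ} (h : ∀ x ∈ l, x.natAbs ≤ B) :
    nrm l ≤ l.length * B := by
  induction l with
  | nil => simp
  | cons x l ih =>
    have h1 := ih fun y hy => h y (List.mem_cons_of_mem _ hy)
    have h2 := h x (by simp)
    rw [nrm_cons, List.length_cons]
    nlinarith

theorem mkX_nrm {k q s T : ℕ} {e : ℕ → ℕ → ℤ} (he : ∀ i < k, ∀ j < q, |e i j| ≤ 2 ^ s)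
    (hT : q * 2 ^ s < 2 ^ T) : ∀ r ∈ mkX k q e, nrm r < 2 ^ T := by
  intro r hr
  have hl := mkX_row k q e r hr
  rw [mkX, List.mem_map] at hr
  obtain ⟨i, hi, rfl⟩ := hr
  rw [List.mem_range] at hi
  refine lt_of_le_of_lt (nrm_le_length_mul (B := 2 ^ s) fun x hx => ?_) (by rw [hl]; exact hT)
  rw [List.mem_map] at hx
  obtain ⟨j, hj, rfl⟩ := hx
  rw [List.mem_range] at hj
  have h1 := he i hi j hj
  rw [Int.abs_eq_natAbs] at h1
  exact_mod_cast h1

theorem abs_le_of_sq {x : ℤ} {e : ℕ} (h : x ^ 2 ≤ 4 ^ e) : |x| ≤ 2 ^ e := by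
  apply abs_le_of_sq_le_sq _ (by positivity)
  rw [← pow_mul, mul_comm, pow_mul]
  exact h

section

variable {k q s T b : ℕ} {e : ℕ → ℕ → ℤ}

theorem relShort_mkX (he : ∀ i < k, ∀ j < q, |e i j| ≤ 2 ^ s) (hT : q * 2 ^ s < 2 ^ T)
    (hk : k ≤ T) (b : ℕ) {u : List ℤ} (hu : u ∈ relShort (mkX k q e) T (4 ^ b)) :
    u.length = k ∧ (∀ i, |ent u i| ≤ 2 ^ (k + b)) ∧
      ∀ j < q, |∑ i ∈ Finset.range k, ent u i * e i j| ≤ 2 ^ (k + b) := by
  obtain ⟨h1, h2⟩ := relShort_short (mkX_row k q e) (mkX_nrm he hT)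
    (by rw [length_mkX]; exact hk) (4 ^ b) hu
  rw [length_mkX] at h1 h2
  have h3 : (4 : ℤ) ^ k * ((4 ^ b : ℕ) : ℤ) = 4 ^ (k + b) := by push_cast; rw [pow_add]
  rw [h3] at h2
  have h4 : 0 ≤ ∑ j ∈ Finset.range q, form (mkX k q e) (ent u) j ^ 2 :=
    Finset.sum_nonneg fun _ _ => by positivity
  have h5 : 0 ≤ ∑ i ∈ Finset.range k, ent u i ^ 2 :=
    Finset.sum_nonneg fun _ _ => by positivity
  refine ⟨h1, fun i => ?_, fun j hj => ?_⟩
  · by_cases hi : i < k
    · refine abs_le_of_sq (le_trans ?_ (by linarith : ∑ i ∈ Finset.range k, ent u i ^ 2 ≤ _))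
      exact Finset.single_le_sum (f := fun i => ent u i ^ 2) (fun _ _ => by positivity)
        (Finset.mem_range.2 hi)
    · rw [ent, List.getD_eq_default _ _ (by omega), abs_zero]; positivity
  · rw [← form_mkX e (ent u) hj]
    refine abs_le_of_sq (le_trans ?_
      (by linarith : ∑ j ∈ Finset.range q, form (mkX k q e) (ent u) j ^ 2 ≤ _))
    exact Finset.single_le_sum (f := fun j => form (mkX k q e) (ent u) j ^ 2)
      (fun _ _ => by positivity) (Finset.mem_range.2 hj)

/-- Linear conditions satisfied by all the short relations found hold for all short relations. -/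
theorem relShort_mkX_lin (he : ∀ i < k, ∀ j < q, |e i j| ≤ 2 ^ s) (hT : q * 2 ^ s < 2 ^ T)
    (hk : k ≤ T) (β : ℕ) (c : ℕ → ℤ)
    (hc : ∑ i ∈ Finset.range k, c i ^ 2 +
      ∑ j ∈ Finset.range q, (∑ i ∈ Finset.range k, c i * e i j) ^ 2 ≤ β)
    {R : Type*} [CommRing R] (a : ℕ → R)
    (h : ∀ u ∈ relShort (mkX k q e) T β, ∑ i ∈ Finset.range k, (ent u i : R) * a i = 0) :
    ∑ i ∈ Finset.range k, (c i : R) * a i = 0 := by
  have h1 := relShort_span (mkX_row k q e) (mkX_nrm he hT) (by rw [length_mkX]; exact hk) β c (by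
    rw [length_mkX]
    refine le_trans (add_le_add_right (le_of_eq ?_) _) hc
    exact Finset.sum_congr rfl fun j hj => by rw [form_mkX e c (by simpa using hj)])
  have h2 : ∀ y ∈ Submodule.span ℤ {y : Fin (mkX k q e).length → ℤ |
      ∃ u ∈ relShort (mkX k q e) T β, y = fun i : Fin (mkX k q e).length => ent u i},
      ∑ i : Fin (mkX k q e).length, (y i : R) * a i = 0 := by
    intro y hy
    refine Submodule.span_induction
      (p := fun y _ => ∑ i : Fin (mkX k q e).length, (y i : R) * a i = 0) ?_ ?_ ?_ ?_ hy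
    · rintro _ ⟨u, hu, rfl⟩
      have := h u hu
      rw [Fin.sum_univ_eq_sum_range (fun i => (ent u i : R) * a i), length_mkX]
      exact this
    · simp
    · intro x y _ _ hx hy
      simp only [Pi.add_apply, Int.cast_add, add_mul, Finset.sum_add_distrib, hx, hy, add_zero]
    · intro z x _ hx
      simp only [Pi.smul_apply, smul_eq_mul, Int.cast_mul, mul_assoc, ← Finset.mul_sum, hx,
        mul_zero]
  have h3 := h2 _ h1
  rw [Fin.sum_univ_eq_sum_range (fun i => (c i : R) * a i), length_mkX] at h3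
  exact h3

theorem length_gsr (B : List (List ℤ)) : (gsr B).length = B.length := by
  have h : ∀ (B : List (List ℤ)) (acc : List (List ℤ × List ℤ × ℕ)),
      (B.foldl gsrStep acc).length = acc.length + B.length := by
    intro B
    induction B with
    | nil => intro acc; simp
    | cons b B ih =>
      intro acc
      rw [List.foldl_cons, ih]
      simp [gsrStep]
      omega
  simpa [gsr] using h B []

theorem length_lllStep (B : List (List ℤ)) : (lllStep B).length = B.length := by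
  unfold lllStep
  cases swapIdx (gsr B) with
  | none => simp [fsts, length_gsr]
  | some i => simp [swapL, fsts, length_gsr]

theorem length_relShort (X : List (List ℤ)) (T β : ℕ) : (relShort X T β).length ≤ X.length := by
  have h1 : ∀ t, (lllStep^[t] (aug X)).length = X.length := by
    intro t
    induction t with
    | zero => exact length_aug X
    | succ t ih => rw [Function.iterate_succ_apply', length_lllStep, ih]
  rw [relShort, List.length_map, lllShort, shortVecs, List.length_map]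
  refine (List.length_filter_le _ _).trans ?_
  rw [List.length_range, length_gsr, h1]

end

end Pool.Agent.H687R2.LLL

namespace Pool.Agent.NPC.Poly

open Pool.Agent.H687R2.LLL

variable {α β γ δ σ : Type} [TEnc α] [TEnc β] [TEnc γ] [TEnc δ] [TEnc σ]

theorem mkX {k q : α → ℕ} {e : α → ℕ → ℕ → ℤ} (hk : UPoly k) (hq : UPoly q)
    (he : Poly (fun p : (α × ℕ) × ℕ => e p.1.1 p.1.2 p.2)) :
    Poly (fun a => H687R2.LLL.mkX (k a) (q a) (e a)) := by
  have h1 : Poly (fun p : α × ℕ => (List.range (q p.1)).map fun j => e p.1 p.2 j) :=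
    map (F := fun (p : α × ℕ) j => e p.1 p.2 j) (UPoly.range (UPoly.comp hq (fst id))) he
  exact map (F := fun a i => (List.range (q a)).map fun j => e a i j) (UPoly.range hk) h1

theorem relShort_mkX {k q T β : α → ℕ} {s : α → ℕ} {e : α → ℕ → ℕ → ℤ} (hk : UPoly k)
    (hq : UPoly q) (he : Poly (fun p : (α × ℕ) × ℕ => e p.1.1 p.1.2 p.2)) (hT : UPoly T)
    (hβ : Poly β) (hb : ∀ a, ∀ i < k a, ∀ j < q a, |e a i j| ≤ 2 ^ s a)
    (hT' : ∀ a, q a * 2 ^ s a < 2 ^ T a) (hk' : ∀ a, k a ≤ T a) :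
    Poly (fun a => H687R2.LLL.relShort (H687R2.LLL.mkX (k a) (q a) (e a)) (T a) (β a)) :=
  relShort (mkX hk hq he) hT hβ (fun a => ⟨q a, mkX_row _ _ _⟩)
    (fun a => mkX_nrm (hb a) (hT' a)) (fun a => by rw [length_mkX]; exact hk' a)

end Pool.Agent.NPC.Poly
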