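import Pool.Agent.H687R2.Pgst.Run2
import Pool.Agent.H687R2.Pgst.MinPoly

/-!
# The decision procedure runs in polynomial time
-/

namespace Pool.Agent.NPC.Poly

open Pool.Agent.H687R2.LLL Pool.Agent.H687R2.Pgst

variable {α β γ δ σ : Type} [TEnc α] [TEnc β] [TEnc γ] [TEnc δ] [TEnc σ]

section Params

variable {n : α → ℕ} (hn : UPoly n)

include hn

theorem upE : UPoly (fun a => pE (n a)) := by
  have h1 : UPoly (fun a => 2 * n a + 1) := UPoly.add (UPoly.mul (UPoly.const 2) hn) (UPoly.const 1)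
  have h2 : UPoly (fun a => 10 * ((2 * n a + 1) * ((2 * n a + 1) * (2 * n a + 1))) * (n a + 1)) :=
    UPoly.mul (UPoly.mul (UPoly.const 10) (UPoly.mul h1 (UPoly.mul h1 h1)))
      (UPoly.add hn (UPoly.const 1))
  exact UPoly.congr h2 fun a => by unfold pE; ring

theorem upb1 : UPoly (fun a => pb1 (n a)) :=
  UPoly.add (UPoly.add (UPoly.add (UPoly.add (upE hn) (UPoly.mul (UPoly.mul (UPoly.const 4) hn)
    (UPoly.add hn (UPoly.const 2)))) (UPoly.mul (UPoly.const 4) hn))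
    (UPoly.mul (UPoly.const 2) hn)) (UPoly.const 2)

theorem upg : UPoly (fun a => pg (n a)) :=
  UPoly.add (UPoly.mul (UPoly.mul (UPoly.const 8) hn) hn) (upb1 hn)

theorem upK : UPoly (fun a => pK (n a)) :=
  UPoly.add (UPoly.add (UPoly.add (UPoly.add (UPoly.mul (UPoly.add (UPoly.add (UPoly.add (upg hn)
    (UPoly.mul (UPoly.const 6) hn)) (UPoly.mul (UPoly.mul (UPoly.const 4) hn) hn)) (UPoly.const 1))
    (UPoly.mul (UPoly.mul (UPoly.const 4) hn) hn)) (upg hn)) (UPoly.mul (UPoly.mul (UPoly.const 4)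
    hn) (UPoly.add hn (UPoly.const 2)))) (UPoly.mul (UPoly.const 4) hn)) (UPoly.const 2)

theorem ups1 : UPoly (fun a => ps1 (n a)) :=
  UPoly.add (UPoly.add (UPoly.add (UPoly.add (upK hn) (UPoly.mul (UPoly.mul (UPoly.const 4) hn) hn))
    (UPoly.mul (UPoly.mul (UPoly.const 4) hn) (UPoly.add hn (UPoly.const 2)))) (UPoly.const 1))
    (UPoly.add hn (UPoly.const 1))

theorem upT1 : UPoly (fun a => pT1 (n a)) :=
  UPoly.add (ups1 hn) (UPoly.add (UPoly.mul (UPoly.mul (UPoly.const 4) hn) hn)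
    (UPoly.mul (UPoly.const 4) hn))

theorem upb2 : UPoly (fun a => pb2 (n a)) :=
  UPoly.add (UPoly.add (upE hn) (UPoly.mul (UPoly.const 4) hn)) (UPoly.const 1)

theorem upw2 : UPoly (fun a => pw2 (n a)) :=
  UPoly.add (UPoly.add (UPoly.add (UPoly.mul (UPoly.const 2) hn) (UPoly.const 1)) (upb2 hn))
    (UPoly.const 1)

theorem ups2 : UPoly (fun a => ps2 (n a)) :=
  UPoly.add (UPoly.add (UPoly.add (upw2 hn) (upg hn)) (UPoly.mul (UPoly.const 2) hn))
    (UPoly.const 1)

theorem upT2 : UPoly (fun a => pT2 (n a)) :=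
  UPoly.add (ups2 hn) (UPoly.mul (UPoly.mul (UPoly.mul (UPoly.const 16) hn) hn) hn)

end Params

theorem ixL {m0 p : α → ℕ} (h0 : Poly m0) (hp : Poly p) :
    Poly (fun a => H687R2.Pgst.ixL (m0 a) (p a)) :=
  cond (decide_lt hp h0) hp (sub hp h0)

theorem beqBool {b c : α → Bool} (hb : Poly b) (hc : Poly c) : Poly (fun a => (b a == c a)) :=
  (not (xor hb hc)).congr fun a => by cases b a <;> cases c a <;> rfl

theorem vvL {n m0 : α → ℕ} {kap : α → List ℤ} {i a j b : α → ℕ} (hn : UPoly n) (h0 : Poly m0)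
    (hk : Poly kap) (hi : Poly i) (ha : Poly a) (hj : Poly j) (hb : Poly b) :
    Poly (fun x => H687R2.Pgst.vvL (n x) (m0 x) (kap x) (i x) (a x) (j x) (b x)) := by
  have hea : UPoly (fun x => Min.min (H687R2.Pgst.ixL (m0 x) (a x)) (n x)) :=
    UPoly.of_le (min (ixL h0 ha) hn.toPoly) hn fun x => Nat.min_le_right _ _
  have heb : UPoly (fun x => Min.min (H687R2.Pgst.ixL (m0 x) (b x)) (n x)) :=
    UPoly.of_le (min (ixL h0 hb) hn.toPoly) hn fun x => Nat.min_le_right _ _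
  have h1 : Poly (fun x => (decide (i x < m0 x) == decide (a x < m0 x)) &&
      (decide (j x < m0 x) == decide (b x < m0 x))) :=
    and (beqBool (decide_lt hi h0) (decide_lt ha h0)) (beqBool (decide_lt hj h0) (decide_lt hb h0))
  have h2 : Poly (fun x => (kap x).getD (i x) 0 ^ Min.min (H687R2.Pgst.ixL (m0 x) (a x)) (n x) *
      (kap x).getD (j x) 0 ^ Min.min (H687R2.Pgst.ixL (m0 x) (b x)) (n x) * 2 ^ pK (n x)) :=
    imul (imul (ipow (ent hk hi) hea) (ipow (ent hk hj) heb)) (ipow (const 2) (upK hn))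
  have h3 : Poly (fun x => 2 ^ (pK (n x) * (Min.min (H687R2.Pgst.ixL (m0 x) (a x)) (n x) +
      Min.min (H687R2.Pgst.ixL (m0 x) (b x)) (n x)))) :=
    npow (const 2) (UPoly.mul (upK hn) (UPoly.add hea heb))
  exact cond h1 (idiv h2 h3) (const 0)

theorem e1 {n m0 m : α → ℕ} {kap : α → List ℤ} {r c : α → ℕ} (hn : UPoly n) (h0 : Poly m0)
    (hm : Poly m) (hk : Poly kap) (hr : Poly r) (hc : Poly c) :
    Poly (fun x => H687R2.Pgst.e1 (n x) (m0 x) (m x) (kap x) (r x) (c x)) := by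
  have hmm : Poly (fun x => m x * m x) := mul hm hm
  have hpow : Poly (fun x => (2 : ℤ) ^ pK (n x)) := ipow (const 2) (upK hn)
  have hz : Poly (fun _ : α => (0 : ℤ)) := const 0
  have hM : Poly (fun x => bif decide (c x < m x * m x) then
      (bif decide (c x = r x) then (2 : ℤ) ^ pK (n x) else 0)
      else bif decide (c x < m x * m x + m x) then
        (bif decide (c x - m x * m x = r x / m x) then (kap x).getD (r x % m x) 0 else 0)
      else (bif decide (c x - (m x * m x + m x) = r x / m x) then (2 : ℤ) ^ pK (n x) else 0)) := by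
    refine cond (decide_lt hc hmm) (cond (decide_eq hc hr) hpow hz)
      (cond (decide_lt hc (add hmm hm)) ?_ ?_)
    · exact cond (decide_eq (sub hc hmm) (div hr hm)) (ent hk (mod hr hm)) hz
    · exact cond (decide_eq (sub hc (add hmm hm)) (div hr hm)) hpow hz
  have hv : Poly (fun x => H687R2.Pgst.vvL (n x) (m0 x) (kap x) (c x / m x)
      ((r x - m x * m x) / m x) (c x % m x) ((r x - m x * m x) % m x)) :=
    vvL hn h0 hk (div hc hm) (div (sub hr hmm) hm) (mod hc hm) (mod (sub hr hmm) hm)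
  have hC : Poly (fun x => bif decide (c x < m x * m x) then
      -H687R2.Pgst.vvL (n x) (m0 x) (kap x) (c x / m x)
      ((r x - m x * m x) / m x) (c x % m x) ((r x - m x * m x) % m x) else 0) :=
    cond (decide_lt hc hmm) (ineg hv) hz
  exact cond (decide_lt hr hmm) hM hC

theorem rho {m : α → ℕ} {S : α → List (List ℤ)} {c j : α → ℕ} (hm : Poly m) (hS : Poly S)
    (hc : Poly c) (hj : Poly j) : Poly (fun x => H687R2.Pgst.rho (m x) (S x) (c x) (j x)) :=
  ent2 hS (div hc hm) (add (mul (mod hc hm) hm) hj)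

theorem e2 {n m0 m : α → ℕ} {S : α → List (List ℤ)} {r c : α → ℕ} (hn : UPoly n) (h0 : Poly m0)
    (hm : UPoly m) (hS : Poly S) (hr : Poly r) (hc : Poly c) :
    Poly (fun x => H687R2.Pgst.e2 (n x) (m0 x) (m x) (S x) (r x) (c x)) := by
  have hpow : Poly (fun x => (2 : ℤ) ^ pw2 (n x)) := ipow (const 2) (upw2 hn)
  have g1 : Poly (fun p : α × ℕ => bif decide (p.2 < m0 p.1) then (0 : ℤ) else
      H687R2.Pgst.rho (m p.1) (S p.1) (c p.1) p.2) :=
    cond (decide_lt (snd id) (h0.comp (fst id))) (const 0)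
      (rho (hm.toPoly.comp (fst id)) (hS.comp (fst id)) (hc.comp (fst id)) (snd id))
  have g2 : Poly (fun x => ((List.range (m x)).map fun j => bif decide (j < m0 x) then (0 : ℤ) else
      H687R2.Pgst.rho (m x) (S x) (c x) j).sum) :=
    isum (map (F := fun x j => bif decide (j < m0 x) then (0 : ℤ) else
      H687R2.Pgst.rho (m x) (S x) (c x) j) (UPoly.range hm) g1)
  have g3 : Poly (fun x => -((2 : ℤ) ^ pw2 (n x) *
      (2 * H687R2.Pgst.rho (m x) (S x) (c x) (r x - 1)))) :=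
    ineg (imul hpow (imul (const 2) (rho hm.toPoly hS hc (sub hr (const 1)))))
  exact cond (decide_eq hr (const 0)) (imul hpow g2) g3

theorem S1 {n m0 : α → ℕ} {kap : α → List ℤ} (hn : UPoly n) (h0 : Poly m0) (hk : Poly kap)
    (hI : ∀ a, ∃ m₀ m₁ θ P₀ P₁, m0 a = m₀ ∧ Inst (n a) m₀ m₁ θ P₀ P₁ (kap a)) :
    Poly (fun a => H687R2.Pgst.S1 (n a) (m0 a) (kap a)) := by
  have hm : UPoly (fun a => (kap a).length) := UPoly.length hk
  have hmm : UPoly (fun a => (kap a).length * (kap a).length) := UPoly.mul hm hm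
  have he : Poly (fun p : (α × ℕ) × ℕ => H687R2.Pgst.e1 (n p.1.1) (m0 p.1.1) (kap p.1.1).length
      (kap p.1.1) p.1.2 p.2) := by
    have hn' : UPoly (fun p : (α × ℕ) × ℕ => n p.1.1) := by
      have := UPoly.comp hn (f := fun p : (α × ℕ) × ℕ => p.1.1) (fst (fst id))
      exact this
    exact e1 hn' (h0.comp (fst (fst id))) (length (hk.comp (fst (fst id))))
      (hk.comp (fst (fst id))) (snd (fst id)) (snd id)
  refine relShort_mkX (s := fun a => ps1 (n a)) (UPoly.add hmm hmm)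
    (UPoly.add hmm (UPoly.add hm hm)) he (upT1 hn) (npow (const 4) (upb1 hn)) ?_ ?_ ?_
  · intro a
    obtain ⟨m₀, m₁, θ, P₀, P₁, h1, h2⟩ := hI a
    rw [h1, h2.len]
    exact h2.e1_le
  · intro a
    obtain ⟨m₀, m₁, θ, P₀, P₁, h1, h2⟩ := hI a
    rw [h2.len]
    exact T1_ok h2.m_le
  · intro a
    obtain ⟨m₀, m₁, θ, P₀, P₁, h1, h2⟩ := hI a
    rw [h2.len]
    exact k1_ok h2.m_le

theorem ans {n m0 : α → ℕ} {kap : α → List ℤ} (hn : UPoly n) (h0 : Poly m0) (hk : Poly kap)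
    (hI : ∀ a, ∃ m₀ m₁ θ P₀ P₁, m0 a = m₀ ∧ Inst (n a) m₀ m₁ θ P₀ P₁ (kap a)) :
    Poly (fun a => H687R2.Pgst.ans (n a) (m0 a) (kap a)) := by
  have hm : UPoly (fun a => (kap a).length) := UPoly.length hk
  have hS := S1 hn h0 hk hI
  have he : Poly (fun p : (α × ℕ) × ℕ => H687R2.Pgst.e2 (n p.1.1) (m0 p.1.1) (kap p.1.1).length
      (H687R2.Pgst.S1 (n p.1.1) (m0 p.1.1) (kap p.1.1)) p.1.2 p.2) := by
    have hn' : UPoly (fun p : (α × ℕ) × ℕ => n p.1.1) := by
      have := UPoly.comp hn (f := fun p : (α × ℕ) × ℕ => p.1.1) (fst (fst id))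
      exact this
    have hm' : UPoly (fun p : (α × ℕ) × ℕ => (kap p.1.1).length) := by
      have := UPoly.comp hm (f := fun p : (α × ℕ) × ℕ => p.1.1) (fst (fst id))
      exact this
    exact e2 hn' (h0.comp (fst (fst id))) hm' (hS.comp (fst (fst id))) (snd (fst id)) (snd id)
  have hS2 : Poly (fun a => H687R2.Pgst.S2 (n a) (m0 a) (kap a).length
      (H687R2.Pgst.S1 (n a) (m0 a) (kap a))) := by
    refine relShort_mkX (s := fun a => ps2 (n a)) (UPoly.add hm (UPoly.const 1))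
      (UPoly.mul (UPoly.length hS) hm) he (upT2 hn) (npow (const 4) (upb2 hn)) ?_ ?_ ?_
    · intro a
      obtain ⟨m₀, m₁, θ, P₀, P₁, h1, h2⟩ := hI a
      rw [h1, h2.len]
      exact fun i _ j _ => h2.e2_le i j
    · intro a
      obtain ⟨m₀, m₁, θ, P₀, P₁, h1, h2⟩ := hI a
      rw [h1, h2.len]
      exact h2.T2_ok
    · intro a
      obtain ⟨m₀, m₁, θ, P₀, P₁, h1, h2⟩ := hI a
      rw [h2.len]
      exact h2.k2_ok
  exact any (p := fun _ (u : List ℤ) => decide ((u.getD 0 0).natAbs % 2 = 1)) hS2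
    (decide_eq (mod (natAbs (ent (snd id) (const 0))) (const 2)) (const 1))

end Pool.Agent.NPC.Poly
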