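import Pool.Agent.H687R2.Pgst.Stage1

/-!
# Stage 1, continued: the matrices found consist of relations
-/

namespace Pool.Agent.H687R2.Pgst

open Polynomial

theorem psum_int {m : ℕ} (P : Polynomial ℤ) (θ : Fin m → ℝ)
    (h : P.map (Int.castRingHom ℝ) = ∏ i, (X - C (θ i))) (k : ℕ) :
    ∃ z : ℤ, ∑ i, θ i ^ k = z := by
  have h1 : ∀ j, ∃ z : ℤ, MvPolynomial.aeval θ (MvPolynomial.esymm (Fin m) ℤ j) = (z : ℝ) := by
    intro j
    rw [MvPolynomial.aeval_esymm_eq_multiset_esymm]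
    by_cases hj : j ≤ m
    · have h2 := Multiset.prod_X_sub_C_coeff (Finset.univ.val.map θ) (k := m - j) (by simp)
      have h3 : (Multiset.map (fun t => X - C t) (Finset.univ.val.map θ)).prod =
          ∏ i, (X - C (θ i)) := by
        rw [Multiset.map_map]; rfl
      rw [h3, ← h, coeff_map] at h2
      have h4 : Multiset.card (Finset.univ.val.map θ) - (m - j) = j := by simp; omega
      rw [h4] at h2
      refine ⟨(-1) ^ j * P.coeff (m - j), ?_⟩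
      push_cast
      have h5 : ((P.coeff (m - j) : ℤ) : ℝ) = (-1) ^ j * (Finset.univ.val.map θ).esymm j := h2
      rw [h5, ← mul_assoc, ← pow_add, ← two_mul, pow_mul]
      simp
    · refine ⟨0, ?_⟩
      rw [Multiset.esymm, Multiset.powersetCard_eq_empty]
      · simp
      · simp; omega
  have h2 : ∀ k, ∃ z : ℤ, MvPolynomial.aeval θ (MvPolynomial.psum (Fin m) ℤ k) = (z : ℝ) := by
    intro k
    induction k using Nat.strong_induction_on with
    | _ k ih =>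
      rcases Nat.eq_zero_or_pos k with hk | hk
      · subst hk
        refine ⟨m, ?_⟩
        simp [MvPolynomial.psum]
      · rw [MvPolynomial.psum_eq_mul_esymm_sub_sum _ _ k hk]
        simp only [map_sub, map_mul, map_pow, map_neg, map_one, map_natCast, map_sum]
        have h3 : ∃ z : ℤ, ∑ x ∈ Finset.HasAntidiagonal.antidiagonal k with x.1 ∈ Set.Ioo 0 k,
            (-1 : ℝ) ^ x.1 * MvPolynomial.aeval θ (MvPolynomial.esymm (Fin m) ℤ x.1) *
              MvPolynomial.aeval θ (MvPolynomial.psum (Fin m) ℤ x.2) = (z : ℝ) := by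
          have h4 : ∀ x ∈ (Finset.HasAntidiagonal.antidiagonal k).filter (fun x => x.1 ∈ Set.Ioo 0 k), ∃ z : ℤ,
            (-1 : ℝ) ^ x.1 * MvPolynomial.aeval θ (MvPolynomial.esymm (Fin m) ℤ x.1) *
              MvPolynomial.aeval θ (MvPolynomial.psum (Fin m) ℤ x.2) = (z : ℝ) := by
            intro x hx
            simp only [Finset.mem_filter, Finset.HasAntidiagonal.mem_antidiagonal, Set.mem_Ioo] at hx
            obtain ⟨z1, hz1⟩ := h1 x.1
            obtain ⟨z2, hz2⟩ := ih x.2 (by omega)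
            refine ⟨(-1) ^ x.1 * z1 * z2, ?_⟩
            rw [hz1, hz2]; push_cast; ring
          choose! f hf using h4
          refine ⟨∑ x ∈ (Finset.HasAntidiagonal.antidiagonal k).filter (fun x => x.1 ∈ Set.Ioo 0 k), f x, ?_⟩
          push_cast
          exact Finset.sum_congr rfl hf
        obtain ⟨z, hz⟩ := h3
        obtain ⟨w, hw⟩ := h1 k
        refine ⟨(-1) ^ (k + 1) * k * w - z, ?_⟩
        rw [hz, hw]; push_cast; ring
  obtain ⟨z, hz⟩ := h2 k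
  refine ⟨z, ?_⟩
  rw [← hz]
  simp [MvPolynomial.psum]

section

variable {m₀ m₁ : ℕ}

/-- Coefficients of a linear combination of the powers. -/
def c1 (d : Fin m₀ ⊕ Fin m₁ → ℤ) (s : Bool) (a : ℕ) : ℤ :=
  ∑ a', if bl a' = s ∧ ix a' = a then d a' else 0

theorem sum_c1 (d : Fin m₀ ⊕ Fin m₁ → ℤ) (s : Bool) {N : ℕ} (hN : m₀ + m₁ ≤ N) (f : ℕ → ℝ) :
    ∑ a ∈ Finset.range N, (c1 d s a : ℝ) * f a =
      ∑ a', if bl a' = s then (d a' : ℝ) * f (ix a') else 0 := by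
  have h1 : ∀ a : ℕ, (c1 d s a : ℝ) * f a = ∑ a',
      if bl a' = s ∧ ix a' = a then (d a' : ℝ) * f a else 0 := by
    intro a
    unfold c1
    push_cast
    rw [Finset.sum_mul]
    refine Finset.sum_congr rfl fun a' _ => ?_
    split_ifs <;> simp
  simp only [h1]
  rw [Finset.sum_comm]
  refine Finset.sum_congr rfl fun a' _ => ?_
  rw [Finset.sum_eq_single (ix a')]
  · simp
  · intro b _ hb
    rw [if_neg]
    rintro ⟨_, h⟩
    exact hb h.symm
  · intro h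
    exact absurd (Finset.mem_range.2 (lt_of_lt_of_le (ix_lt a') hN)) h

theorem abs_c1_le (d : Fin m₀ ⊕ Fin m₁ → ℤ) (s : Bool) (a : ℕ) :
    |(c1 d s a : ℝ)| ≤ c1 (fun i => |d i|) s a := by
  unfold c1
  push_cast
  refine (Finset.abs_sum_le_sum_abs _ _).trans (Finset.sum_le_sum fun a' _ => ?_)
  split_ifs <;> simp

theorem exists_pz {θ : Fin m₀ ⊕ Fin m₁ → ℝ} {P₀ P₁ : Polynomial ℤ} (h : TwoPoly θ P₀ P₁)
    (b : Fin m₀ ⊕ Fin m₁) : ∃ z : ℤ, ∑ j, Vd θ j b * θ j = z := by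
  rcases b with b | b
  · obtain ⟨z, hz⟩ := psum_int P₀ _ h.h₀ (b + 1)
    refine ⟨z, ?_⟩
    rw [← hz, Fintype.sum_sum_type]
    simp [Vd, bl, ix, pow_succ]
  · obtain ⟨z, hz⟩ := psum_int P₁ _ h.h₁ (b + 1)
    refine ⟨z, ?_⟩
    rw [← hz, Fintype.sum_sum_type]
    simp [Vd, bl, ix, pow_succ]

theorem exact2 {θ : Fin m₀ ⊕ Fin m₁ → ℝ} {P₀ P₁ : Polynomial ℤ} (h : TwoPoly θ P₀ P₁)
    {K r g : ℕ} {κ : Fin m₀ ⊕ Fin m₁ → ℤ} (hr : ∀ i, |θ i| ≤ 2 ^ r)
    (hκ : ∀ i, |(2 : ℝ) ^ K * θ i - κ i| ≤ 1)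
    (hK : (g + 3 * (m₀ + m₁) + 2 * r * (m₀ + m₁) + 1) * ((m₀ + m₁) * (m₀ + m₁)) + g +
      2 * (m₀ + m₁) * (r + 2) + 2 * (m₀ + m₁) + 2 ≤ K)
    (M C : Fin m₀ ⊕ Fin m₁ → Fin m₀ ⊕ Fin m₁ → ℤ) (hM : ∀ i j, |M i j| ≤ 2 ^ g)
    (hC : ∀ i j, |C i j| ≤ 2 ^ g)
    (hex : ∀ i j, (M i j : ℝ) = ∑ a, ∑ b, (C a b : ℝ) * (Vd θ i a * Vd θ j b))
    (i : Fin m₀ ⊕ Fin m₁) (hF : |∑ j, M i j * κ j| ≤ 2 ^ g) :
    ∑ j, (M i j : ℝ) * θ j = 0 := by
  choose pz hpz using exists_pz h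
  set m := m₀ + m₁ with hm
  have hm1 : 1 ≤ m := by rcases i with i | i <;> have := i.2 <;> omega
  set d : Fin m₀ ⊕ Fin m₁ → ℤ := fun a => ∑ b, C a b * pz b with hd
  have hx0 : ∑ j, (M i j : ℝ) * θ j = ∑ a, if bl a = bl i then (d a : ℝ) * θ i ^ ix a else 0 := by
    have e1 : ∀ j, (M i j : ℝ) * θ j = ∑ a, ∑ b, Vd θ i a * ((C a b : ℝ) * (Vd θ j b * θ j)) := by
      intro j
      rw [hex, Finset.sum_mul]
      refine Finset.sum_congr rfl fun a _ => ?_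
      rw [Finset.sum_mul]
      exact Finset.sum_congr rfl fun b _ => by ring
    simp only [e1]
    rw [Finset.sum_comm]
    refine Finset.sum_congr rfl fun a _ => ?_
    rw [Finset.sum_comm]
    simp only [← Finset.mul_sum, hpz]
    unfold Vd
    by_cases h1 : bl i = bl a
    · rw [if_pos h1, if_pos h1.symm, hd]
      push_cast
      rw [mul_comm]
    · rw [if_neg h1, if_neg (Ne.symm h1), zero_mul]
  set c : ℕ → ℕ → ℤ := fun a b => if b = 0 then c1 d (bl i) a else 0 with hc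
  have hx : ∑ a ∈ Finset.range m, ∑ b ∈ Finset.range m, (c a b : ℝ) * θ i ^ a * θ i ^ b =
      ∑ j, (M i j : ℝ) * θ j := by
    rw [hx0, ← sum_c1 d (bl i) le_rfl (fun a => θ i ^ a)]
    refine Finset.sum_congr rfl fun a _ => ?_
    rw [Finset.sum_eq_single 0]
    · simp [hc]
    · intro b _ hb; simp [hc, hb]
    · intro h0; simp at h0; omega
  have e5 : (m : ℝ) ≤ 2 ^ m := by
    have := (Nat.lt_two_pow_self (n := m)).le
    exact_mod_cast this
  have e6 : (1 : ℝ) ≤ 2 ^ m := one_le_pow₀ (by norm_num)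
  have hg0 : (0 : ℝ) < 2 ^ g := by positivity
  have hR1 : (1 : ℝ) ≤ 2 ^ r := one_le_pow₀ (by norm_num)
  -- size
  have hxs : |(2 : ℝ) ^ K * ∑ j, (M i j : ℝ) * θ j| ≤ 2 ^ (g + 2 * m * (r + 2) + 2 * m + 1) := by
    have f1 : (2 : ℝ) ^ K * ∑ j, (M i j : ℝ) * θ j = ((∑ j, M i j * κ j : ℤ) : ℝ) +
        ∑ j, (M i j : ℝ) * (2 ^ K * θ j - κ j) := by
      push_cast
      rw [Finset.mul_sum, ← Finset.sum_add_distrib]
      exact Finset.sum_congr rfl fun j _ => by ring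
    have f2 : |((∑ j, M i j * κ j : ℤ) : ℝ)| ≤ 2 ^ g := by exact_mod_cast hF
    have f3 : |∑ j, (M i j : ℝ) * (2 ^ K * θ j - κ j)| ≤ m * 2 ^ g := by
      refine (sum_abs_le (B := 2 ^ g) _ fun j => ?_).trans_eq (by rw [card_II])
      rw [abs_mul]
      have : |(M i j : ℝ)| ≤ 2 ^ g := by exact_mod_cast hM i j
      calc |(M i j : ℝ)| * |2 ^ K * θ j - κ j| ≤ 2 ^ g * 1 :=
            mul_le_mul this (hκ j) (abs_nonneg _) hg0.le
        _ = 2 ^ g := mul_one _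
    rw [f1]
    refine (abs_add_le _ _).trans ((add_le_add f2 f3).trans ?_)
    have f4 : (2 : ℝ) ^ g + m * 2 ^ g ≤ 2 ^ (g + m + 1) := by
      rw [pow_succ, pow_add]
      have : (m : ℝ) * 2 ^ g ≤ 2 ^ m * 2 ^ g := by gcongr
      nlinarith
    refine f4.trans (pow_le_pow_right₀ (by norm_num) (by omega))
  -- coefficients
  set B : ℝ := 2 ^ (g + 3 * m + 2 * r * m + 1) with hB
  have hB1 : 1 ≤ B := one_le_pow₀ (by norm_num)
  have hpzb : ∀ b, |(pz b : ℝ)| ≤ m * 2 ^ (r * m) := by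
    intro b
    rw [← hpz]
    refine (sum_abs_le (B := 2 ^ (r * m)) _ fun j => ?_).trans_eq (by rw [card_II])
    unfold Vd
    split_ifs
    · rw [← pow_succ, abs_pow]
      calc |θ j| ^ (ix b + 1) ≤ (2 ^ r) ^ (ix b + 1) := pow_le_pow_left₀ (abs_nonneg _) (hr j) _
        _ ≤ (2 ^ r) ^ m := pow_le_pow_right₀ hR1 (ix_lt b)
        _ = 2 ^ (r * m) := by rw [← pow_mul]
    · rw [zero_mul, abs_zero]; positivity
  have hdb : ∀ a, |(d a : ℝ)| ≤ m * (2 ^ g * (m * 2 ^ (r * m))) := by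
    intro a
    rw [hd]
    push_cast
    refine (sum_abs_le (B := 2 ^ g * (m * 2 ^ (r * m))) _ fun b => ?_).trans_eq (by rw [card_II])
    rw [abs_mul]
    have : |(C a b : ℝ)| ≤ 2 ^ g := by exact_mod_cast hC a b
    exact mul_le_mul this (hpzb b) (abs_nonneg _) hg0.le
  have hcB : ∑ a ∈ Finset.range m, ∑ b ∈ Finset.range m,
      |(c a b : ℝ)| * (2 ^ r) ^ a * (2 ^ r) ^ b ≤ B := by
    have g1 : ∀ a ∈ Finset.range m, ∑ b ∈ Finset.range m, |(c a b : ℝ)| * (2 ^ r) ^ a * (2 ^ r) ^ b ≤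
        (c1 (fun i => |d i|) (bl i) a : ℝ) * (2 ^ r) ^ a := by
      intro a _
      rw [Finset.sum_eq_single 0]
      · simp only [hc, if_true, pow_zero, mul_one]
        exact mul_le_mul_of_nonneg_right (abs_c1_le _ _ _) (by positivity)
      · intro b _ hb; simp [hc, hb]
      · intro h0; simp at h0; omega
    refine (Finset.sum_le_sum g1).trans ?_
    rw [sum_c1 _ _ le_rfl (fun a => (2 ^ r) ^ a)]
    have g2 : ∑ a', (if bl a' = bl i then ((|d a'| : ℤ) : ℝ) * (2 ^ r) ^ ix a' else 0) ≤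
        m * ((m * (2 ^ g * (m * 2 ^ (r * m)))) * 2 ^ (r * m)) := by
      refine (le_abs_self _).trans ((sum_abs_le
        (B := (m * (2 ^ g * (m * 2 ^ (r * m)))) * 2 ^ (r * m)) _ fun a => ?_).trans_eq
        (by rw [card_II]))
      split_ifs
      · rw [abs_mul, Int.cast_abs, abs_abs, abs_of_pos (a := ((2 : ℝ) ^ r) ^ ix a) (by positivity)]
        refine mul_le_mul (hdb a) ?_ (by positivity) (by positivity)
        rw [pow_mul]; exact pow_le_pow_right₀ hR1 (ix_lt a).le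
      · rw [abs_zero]; positivity
    refine g2.trans ?_
    have g3 : (m : ℝ) * ((m * (2 ^ g * (m * 2 ^ (r * m)))) * 2 ^ (r * m)) ≤
        2 ^ m * ((2 ^ m * (2 ^ g * (2 ^ m * 2 ^ (r * m)))) * 2 ^ (r * m)) := by
      gcongr
    refine g3.trans ?_
    rw [hB]
    calc (2 : ℝ) ^ m * ((2 ^ m * (2 ^ g * (2 ^ m * 2 ^ (r * m)))) * 2 ^ (r * m)) =
          2 ^ (g + 3 * m + 2 * r * m) := by
            simp only [← pow_add]; congr 1; ring
      _ ≤ _ := pow_le_pow_right₀ (by norm_num) (by omega)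
  have hfin : |∑ j, (M i j : ℝ) * θ j| * B ^ (m * m) < 1 := by
    have e1 : |∑ j, (M i j : ℝ) * θ j| = |(2 : ℝ) ^ K * ∑ j, (M i j : ℝ) * θ j| / 2 ^ K := by
      rw [abs_mul, abs_of_pos (a := (2 : ℝ) ^ K) (by positivity)]; field_simp
    rw [e1, div_mul_eq_mul_div, div_lt_one (by positivity)]
    calc |(2 : ℝ) ^ K * ∑ j, (M i j : ℝ) * θ j| * B ^ (m * m) ≤
          2 ^ (g + 2 * m * (r + 2) + 2 * m + 1) * B ^ (m * m) :=
          mul_le_mul_of_nonneg_right hxs (by positivity)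
      _ = 2 ^ ((g + 3 * m + 2 * r * m + 1) * (m * m) + g + 2 * m * (r + 2) + 2 * m + 1) := by
          rw [hB, ← pow_mul, ← pow_add]; congr 1; ring
      _ < 2 ^ K := pow_lt_pow_right₀ (by norm_num) (by omega)
  have := liou h (R := 2 ^ r) hr m c i i hB1 hcB (by rw [hx]; exact hfin)
  rwa [hx] at this

theorem exact3 {K g : ℕ} (hK : g < K) {s : ℤ} (h : |2 ^ K * s| ≤ 2 ^ g) : s = 0 := by
  by_contra hs
  have h1 : 1 ≤ |s| := Int.one_le_abs hs
  rw [abs_mul, abs_of_pos (a := (2 : ℤ) ^ K) (by positivity)] at h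
  have h2 : (2 : ℤ) ^ g < 2 ^ K := pow_lt_pow_right₀ (by norm_num) hK
  have h3 : (2 : ℤ) ^ K ≤ 2 ^ K * |s| := le_mul_of_one_le_right (by positivity) h1
  omega

/-- The relation matrices produced by the algebraic construction have short vectors. -/
theorem complete_F1 {K r E : ℕ} {θ : Fin m₀ ⊕ Fin m₁ → ℝ} {κ : Fin m₀ ⊕ Fin m₁ → ℤ}
    (hr : ∀ i, |θ i| ≤ 2 ^ r) (hκ : ∀ i, |(2 : ℝ) ^ K * θ i - κ i| ≤ 1)
    (M C : Fin m₀ ⊕ Fin m₁ → Fin m₀ ⊕ Fin m₁ → ℤ) (hC : ∀ i j, |C i j| ≤ 2 ^ E)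
    (hex : ∀ i j, (M i j : ℝ) = ∑ a, ∑ b, (C a b : ℝ) * (Vd θ i a * Vd θ j b))
    (i j : Fin m₀ ⊕ Fin m₁) :
    |2 ^ K * M i j - ∑ a, ∑ b, C a b * vv K κ i a j b| ≤
      2 ^ (E + 2 * (m₀ + m₁) * (r + 2) + 2 * (m₀ + m₁)) := by
  set m := m₀ + m₁ with hm
  have e5 : (m : ℝ) ≤ 2 ^ m := by
    have := (Nat.lt_two_pow_self (n := m)).le
    exact_mod_cast this
  have h1 : |(2 : ℝ) ^ K * M i j - ∑ a, ∑ b, (C a b : ℝ) * vv K κ i a j b| ≤
      2 ^ (E + 2 * m * (r + 2) + 2 * m) := by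
    have e1 : (2 : ℝ) ^ K * M i j - ∑ a, ∑ b, (C a b : ℝ) * vv K κ i a j b =
        ∑ a, ∑ b, (C a b : ℝ) * (2 ^ K * (Vd θ i a * Vd θ j b) - (vv K κ i a j b : ℝ)) := by
      rw [hex]
      simp only [mul_sub, Finset.sum_sub_distrib, Finset.mul_sum]
      congr 1
      exact Finset.sum_congr rfl fun _ _ => Finset.sum_congr rfl fun _ _ => by ring
    rw [e1]
    refine (sum_abs_le (B := m * (2 ^ E * 2 ^ (2 * m * (r + 2)))) _ fun a =>
      (sum_abs_le (B := 2 ^ E * 2 ^ (2 * m * (r + 2))) _ fun b => ?_).trans_eq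
        (by rw [card_II])).trans ?_
    · rw [abs_mul]
      have f1 : |(C a b : ℝ)| ≤ 2 ^ E := by exact_mod_cast hC a b
      have f2 := vv_approx hr hκ i a j b
      rw [abs_sub_comm] at f2
      exact mul_le_mul f1 f2 (abs_nonneg _) (by positivity)
    · rw [card_II]
      calc ((m₀ + m₁ : ℕ) : ℝ) * (m * (2 ^ E * 2 ^ (2 * m * (r + 2)))) ≤
            2 ^ m * (2 ^ m * (2 ^ E * 2 ^ (2 * m * (r + 2)))) := by gcongr
        _ = _ := by simp only [← pow_add]; congr 1; ring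
  exact_mod_cast h1

theorem complete_F2 {K E : ℕ} {θ : Fin m₀ ⊕ Fin m₁ → ℝ} {κ : Fin m₀ ⊕ Fin m₁ → ℤ}
    (hκ : ∀ i, |(2 : ℝ) ^ K * θ i - κ i| ≤ 1)
    (M : Fin m₀ ⊕ Fin m₁ → Fin m₀ ⊕ Fin m₁ → ℤ) (hM : ∀ i j, |M i j| ≤ 2 ^ E)
    (i : Fin m₀ ⊕ Fin m₁) (h0 : ∑ j, (M i j : ℝ) * θ j = 0) :
    |∑ j, M i j * κ j| ≤ 2 ^ (E + (m₀ + m₁)) := by
  set m := m₀ + m₁ with hm
  have e5 : (m : ℝ) ≤ 2 ^ m := by
    have := (Nat.lt_two_pow_self (n := m)).le
    exact_mod_cast this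
  have h1 : |((∑ j, M i j * κ j : ℤ) : ℝ)| ≤ 2 ^ (E + m) := by
    have e1 : ((∑ j, M i j * κ j : ℤ) : ℝ) = -∑ j, (M i j : ℝ) * (2 ^ K * θ j - κ j) := by
      push_cast
      simp only [mul_sub, Finset.sum_sub_distrib]
      have : ∑ j, (M i j : ℝ) * (2 ^ K * θ j) = 0 := by
        have : ∑ j, (M i j : ℝ) * (2 ^ K * θ j) = 2 ^ K * ∑ j, (M i j : ℝ) * θ j := by
          rw [Finset.mul_sum]
          exact Finset.sum_congr rfl fun _ _ => by ring
        rw [this, h0, mul_zero]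
      rw [this]; ring
    rw [e1, abs_neg]
    refine (sum_abs_le (B := 2 ^ E) _ fun j => ?_).trans ?_
    · rw [abs_mul]
      have : |(M i j : ℝ)| ≤ 2 ^ E := by exact_mod_cast hM i j
      calc |(M i j : ℝ)| * |2 ^ K * θ j - κ j| ≤ 2 ^ E * 1 :=
            mul_le_mul this (hκ j) (abs_nonneg _) (by positivity)
        _ = _ := mul_one _
    · rw [card_II, pow_add, mul_comm]
      gcongr
  exact_mod_cast h1

end

end Pool.Agent.H687R2.Pgst
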