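import Mathlib

/-!
# Stage 2: lifting a parity vector to the orthogonal complement of the relation lattice
-/

namespace Pool.Agent.H687R2.Pgst

section Lift

variable {ι : Type} [Fintype ι]

/-- A vector mod 2 orthogonal to a saturated lattice lifts to an integer vector orthogonal to it. -/
theorem lift_parity (L : Submodule ℤ (ι → ℤ)) (hL : ∀ (a : ℤ) (x : ι → ℤ), a ≠ 0 → a • x ∈ L → x ∈ L)
    (χ : ι → ℤ) (h : ∀ l ∈ L, Even (∑ i, l i * χ i)) :
    ∃ w : ι → ℤ, (∀ i, Even (w i - χ i)) ∧ ∀ l ∈ L, ∑ i, l i * w i = 0 := by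
  classical
  -- the quotient is torsion-free, hence free
  have htf : Module.IsTorsionFree ℤ ((ι → ℤ) ⧸ L) := by
    refine ⟨fun a ha => ?_⟩
    have ha0 : a ≠ 0 := ha.ne_zero
    intro x y hxy
    obtain ⟨x, rfl⟩ := Submodule.Quotient.mk_surjective L x
    obtain ⟨y, rfl⟩ := Submodule.Quotient.mk_surjective L y
    have h1 : Submodule.Quotient.mk (p := L) (a • x) = Submodule.Quotient.mk (a • y) := hxy
    rw [Submodule.Quotient.eq, ← smul_sub] at h1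
    exact (Submodule.Quotient.eq L).2 (hL a _ ha0 h1)
  have hfree : Module.Free ℤ ((ι → ℤ) ⧸ L) := Module.free_of_finite_type_torsion_free'
  obtain ⟨s, hs⟩ := Module.projective_lifting_property L.mkQ (LinearMap.id)
    (Submodule.mkQ_surjective L)
  -- the functional
  let φ : (ι → ℤ) →ₗ[ℤ] ℤ := ∑ i, (χ i) • LinearMap.proj i
  have hφ : ∀ x, φ x = ∑ i, x i * χ i := by
    intro x
    simp [φ, mul_comm]
  let f : (ι → ℤ) →ₗ[ℤ] ℤ := φ.comp (s.comp L.mkQ)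
  have hf : ∀ x, f x = ∑ i, x i * f (Pi.single i 1) := by
    intro x
    conv_lhs => rw [← Finset.univ_sum_single x]
    rw [map_sum]
    refine Finset.sum_congr rfl fun i _ => ?_
    have : (Pi.single i (x i) : ι → ℤ) = x i • (Pi.single i 1 : ι → ℤ) := by
      rw [← Pi.single_smul]; simp
    rw [this, map_smul, smul_eq_mul]
  refine ⟨fun i => f (Pi.single i 1), fun i => ?_, fun l hl => ?_⟩
  · have h1 : f (Pi.single i 1) - χ i = φ (s (L.mkQ (Pi.single i 1)) - Pi.single i 1) := by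
      have : φ (Pi.single i 1) = χ i := by
        rw [hφ]; simp [Pi.single_apply]
      rw [map_sub, this]; rfl
    rw [h1, hφ]
    apply h
    have h2 : L.mkQ (s (L.mkQ (Pi.single i 1)) - Pi.single i 1) = 0 := by
      have := LinearMap.congr_fun hs (L.mkQ (Pi.single i 1))
      simp only [LinearMap.comp_apply, LinearMap.id_apply] at this
      rw [map_sub, this, sub_self]
    rwa [← LinearMap.mem_ker, Submodule.ker_mkQ] at h2
  · rw [← hf]
    have : L.mkQ l = 0 := by rwa [← LinearMap.mem_ker, Submodule.ker_mkQ]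
    simp only [f, LinearMap.comp_apply, this, map_zero]

end Lift

section Stage2

variable {m₀ m₁ : ℕ}

/-- The lattice of relations. -/
def relL (θ : Fin m₀ ⊕ Fin m₁ → ℝ) : Submodule ℤ (Fin m₀ ⊕ Fin m₁ → ℤ) where
  carrier := {l | ∑ i, l i = 0 ∧ ∑ i, (l i : ℝ) * θ i = 0}
  zero_mem' := by simp
  add_mem' := by
    rintro a b ⟨h1, h2⟩ ⟨h3, h4⟩
    refine ⟨?_, ?_⟩
    · simp only [Pi.add_apply, Finset.sum_add_distrib, h1, h3, add_zero]
    · simp only [Pi.add_apply, Int.cast_add, add_mul, Finset.sum_add_distrib, h2, h4, add_zero]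
  smul_mem' := by
    rintro c a ⟨h1, h2⟩
    refine ⟨?_, ?_⟩
    · simp only [Pi.smul_apply, smul_eq_mul, ← Finset.mul_sum, h1, mul_zero]
    · simp only [Pi.smul_apply, smul_eq_mul, Int.cast_mul, mul_assoc, ← Finset.mul_sum, h2,
        mul_zero]

theorem mem_relL {θ : Fin m₀ ⊕ Fin m₁ → ℝ} {l : Fin m₀ ⊕ Fin m₁ → ℤ} :
    l ∈ relL θ ↔ ∑ i, l i = 0 ∧ ∑ i, (l i : ℝ) * θ i = 0 := Iff.rfl

theorem relL_sat {θ : Fin m₀ ⊕ Fin m₁ → ℝ} (a : ℤ) (x : Fin m₀ ⊕ Fin m₁ → ℤ) (ha : a ≠ 0)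
    (h : a • x ∈ relL θ) : x ∈ relL θ := by
  obtain ⟨h1, h2⟩ := h
  refine ⟨?_, ?_⟩
  · simp only [Pi.smul_apply, smul_eq_mul, ← Finset.mul_sum] at h1
    exact (mul_eq_zero.1 h1).resolve_left ha
  · simp only [Pi.smul_apply, smul_eq_mul, Int.cast_mul, mul_assoc, ← Finset.mul_sum] at h2
    exact (mul_eq_zero.1 h2).resolve_left (by exact_mod_cast ha)

/-- The indicator of the second block. -/
def chi : Fin m₀ ⊕ Fin m₁ → ℤ
  | Sum.inl _ => 0
  | Sum.inr _ => 1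

theorem sum_chi (l : Fin m₀ ⊕ Fin m₁ → ℤ) : ∑ i, l i * chi i = ∑ i, l (Sum.inr i) := by
  rw [Fintype.sum_sum_type]
  simp [chi]

/-- The criterion. -/
def Crit (θ : Fin m₀ ⊕ Fin m₁ → ℝ) : Prop :=
  ∀ l : Fin m₀ ⊕ Fin m₁ → ℤ, ∑ i, l i = 0 → ∑ i, (l i : ℝ) * θ i = 0 →
    Even (∑ i, l (Sum.inr i))

/-- The algebraic data. -/
structure Alg (θ : Fin m₀ ⊕ Fin m₁ → ℝ) (E : ℕ) (M N : Fin m₀ ⊕ Fin m₁ → Fin m₀ ⊕ Fin m₁ → ℤ) :
    Prop where
  N_le : ∀ i j, |N i j| ≤ 2 ^ E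
  M_mem : ∀ i, M i ∈ relL θ
  M_ker : ∀ w : Fin m₀ ⊕ Fin m₁ → ℤ, (∀ i, ∑ j, M i j * w j = 0) →
    ∃ y : Fin m₀ ⊕ Fin m₁ → ℝ, ∀ i, (w i : ℝ) = ∑ j, (N i j : ℝ) * y j
  N_rel : ∀ l ∈ relL θ, ∀ j, ∑ i, l i * N i j = 0

theorem Alg.orth {θ : Fin m₀ ⊕ Fin m₁ → ℝ} {E : ℕ}
    {M N : Fin m₀ ⊕ Fin m₁ → Fin m₀ ⊕ Fin m₁ → ℤ} (h : Alg θ E M N)
    {w : Fin m₀ ⊕ Fin m₁ → ℤ} (hw : ∀ i, ∑ j, M i j * w j = 0) {l : Fin m₀ ⊕ Fin m₁ → ℤ}
    (hl : l ∈ relL θ) : ∑ i, l i * w i = 0 := by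
  obtain ⟨y, hy⟩ := h.M_ker w hw
  have h1 : ((∑ i, l i * w i : ℤ) : ℝ) = ∑ j, ((∑ i, l i * N i j : ℤ) : ℝ) * y j := by
    push_cast
    simp only [hy, Finset.mul_sum, Finset.sum_mul]
    rw [Finset.sum_comm]
    exact Finset.sum_congr rfl fun _ _ => Finset.sum_congr rfl fun _ _ => by ring
  simp only [h.N_rel l hl, Int.cast_zero, zero_mul, Finset.sum_const_zero] at h1
  exact_mod_cast h1

/-- From an odd solution to the criterion. -/
theorem crit_of_solution {θ : Fin m₀ ⊕ Fin m₁ → ℝ} {E : ℕ}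
    {M N : Fin m₀ ⊕ Fin m₁ → Fin m₀ ⊕ Fin m₁ → ℤ} (h : Alg θ E M N) {t : ℤ} (ht : Odd t)
    {y : Fin m₀ ⊕ Fin m₁ → ℤ}
    (hy : ∀ i, t * ∑ j, M i j * chi j - 2 * ∑ j, M i j * y j = 0) : Crit θ := by
  intro l h1 h2
  have h3 := h.orth (w := fun j => t * chi j - 2 * y j) (fun i => by
    rw [← hy i, Finset.mul_sum, Finset.mul_sum, ← Finset.sum_sub_distrib]
    exact Finset.sum_congr rfl fun j _ => by ring) (l := l) ⟨h1, h2⟩
  have h4 : ∑ i, l i * (t * chi i - 2 * y i) = t * ∑ i, l i * chi i - 2 * ∑ i, l i * y i := by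
    rw [Finset.mul_sum, Finset.mul_sum, ← Finset.sum_sub_distrib]
    exact Finset.sum_congr rfl fun j _ => by ring
  rw [h4, sum_chi] at h3
  have h5 : Even (t * ∑ i, l (Sum.inr i)) := ⟨∑ i, l i * y i, by omega⟩
  rcases Int.even_mul.1 h5 with h6 | h6
  · exact absurd h6 (Int.not_even_iff_odd.2 ht)
  · exact h6

/-- From the criterion to a bounded solution. -/
theorem solution_of_crit {θ : Fin m₀ ⊕ Fin m₁ → ℝ} {E : ℕ}
    {M N : Fin m₀ ⊕ Fin m₁ → Fin m₀ ⊕ Fin m₁ → ℤ} (h : Alg θ E M N) (hc : Crit θ) :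
    ∃ y : Fin m₀ ⊕ Fin m₁ → ℤ, (∀ i, |y i| ≤ 2 ^ (E + (m₀ + m₁) + 1)) ∧
      ∀ l ∈ relL θ, ∑ j, l j * chi j - 2 * ∑ j, l j * y j = 0 := by
  obtain ⟨w, hw1, hw2⟩ := lift_parity (relL θ) relL_sat chi (fun l hl => by
    rw [sum_chi]; exact hc l hl.1 hl.2)
  obtain ⟨y, hy⟩ := h.M_ker w fun i => hw2 _ (h.M_mem i)
  -- reduce modulo 2
  set w' : Fin m₀ ⊕ Fin m₁ → ℤ := fun i => w i - 2 * ∑ j, N i j * ⌊y j / 2⌋ with hw'
  have h1 : ∀ i, |w' i| ≤ 2 ^ (E + (m₀ + m₁) + 1) := by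
    intro i
    have e1 : (w' i : ℝ) = ∑ j, (N i j : ℝ) * (y j - 2 * ⌊y j / 2⌋) := by
      rw [hw']
      push_cast
      rw [hy, Finset.mul_sum, ← Finset.sum_sub_distrib]
      exact Finset.sum_congr rfl fun j _ => by ring
    have e2 : |(w' i : ℝ)| ≤ 2 ^ (E + (m₀ + m₁) + 1) := by
      rw [e1]
      refine (Finset.abs_sum_le_sum_abs _ _).trans ((Finset.sum_le_sum (g := fun _ =>
        (2 : ℝ) ^ E * 2) fun j _ => ?_).trans ?_)
      · rw [abs_mul]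
        have f1 : |(N i j : ℝ)| ≤ 2 ^ E := by exact_mod_cast h.N_le i j
        have f2 := Int.floor_le (y j / 2)
        have f3 := Int.lt_floor_add_one (y j / 2)
        have f4 : |y j - 2 * ⌊y j / 2⌋| ≤ 2 := by
          rw [abs_le]; constructor <;> linarith
        exact mul_le_mul f1 f4 (abs_nonneg _) (by positivity)
      · rw [Finset.sum_const, Finset.card_univ, Fintype.card_sum, Fintype.card_fin,
          Fintype.card_fin, nsmul_eq_mul]
        have e5 : ((m₀ + m₁ : ℕ) : ℝ) ≤ 2 ^ (m₀ + m₁) := by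
          have := (Nat.lt_two_pow_self (n := m₀ + m₁)).le
          exact_mod_cast this
        calc ((m₀ + m₁ : ℕ) : ℝ) * (2 ^ E * 2) ≤ 2 ^ (m₀ + m₁) * (2 ^ E * 2) := by gcongr
          _ = 2 ^ (E + (m₀ + m₁) + 1) := by rw [pow_succ, pow_add]; ring
    exact_mod_cast e2
  have h2 : ∀ i, Even (w' i - chi i) := by
    intro i
    have : w' i - chi i = (w i - chi i) - 2 * ∑ j, N i j * ⌊y j / 2⌋ := by rw [hw']; ring
    rw [this]
    exact (hw1 i).sub (even_two_mul _)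
  have h3 : ∀ l ∈ relL θ, ∑ i, l i * w' i = 0 := by
    intro l hl
    have e1 : ∑ i, l i * w' i = ∑ i, l i * w i - 2 * ∑ j, (∑ i, l i * N i j) * ⌊y j / 2⌋ := by
      rw [hw']
      simp only [mul_sub, Finset.sum_sub_distrib, Finset.mul_sum, Finset.sum_mul]
      congr 1
      rw [Finset.sum_comm]
      exact Finset.sum_congr rfl fun _ _ => Finset.sum_congr rfl fun _ _ => by ring
    rw [e1, hw2 l hl]
    simp [h.N_rel l hl]
  choose z hz using h2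
  refine ⟨fun i => -z i, fun i => ?_, fun l hl => ?_⟩
  · have e1 := h1 i
    have e2 := hz i
    have e3 : |chi (m₀ := m₀) (m₁ := m₁) i| ≤ 1 := by rcases i with i | i <;> simp [chi]
    have e4 : (1 : ℤ) ≤ 2 ^ (E + (m₀ + m₁) + 1) := one_le_pow₀ (by norm_num)
    rw [abs_neg]
    rw [abs_le] at e1 e3 ⊢
    constructor <;> omega
  · have e1 : ∑ j, l j * chi j - 2 * ∑ j, l j * -z j = ∑ j, l j * w' j := by
      rw [Finset.mul_sum, ← Finset.sum_sub_distrib]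
      refine Finset.sum_congr rfl fun j _ => ?_
      have := hz j
      have : w' j = chi j + (z j + z j) := by omega
      rw [this]; ring
    rw [e1, h3 l hl]

end Stage2

end Pool.Agent.H687R2.Pgst
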