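import Pool.Agent.H687R2.Pgst.MkX
import Pool.Agent.H687R2.Pgst.Stage1b
import Pool.Agent.H687R2.Pgst.Stage2

/-!
# Stage 1 on lists
-/

namespace Pool.Agent.H687R2.Pgst

open Pool.Agent.NPC Pool.Agent.H687R2.LLL

/-! ### Parameters -/

/-- Exponent of the bound of the algebraic data. -/
def pE (n : ℕ) : ℕ := 10 * (2 * n + 1) ^ 3 * (n + 1)

/-- Exponent of the bound of the relation vector. -/
def pb1 (n : ℕ) : ℕ := pE n + 4 * n * (n + 2) + 4 * n + 2 * n + 2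

/-- Exponent of the bound of the vectors found. -/
def pg (n : ℕ) : ℕ := 8 * n * n + pb1 n

/-- Precision. -/
def pK (n : ℕ) : ℕ := (pg n + 6 * n + 4 * n * n + 1) * (4 * n * n) + pg n + 4 * n * (n + 2) +
  4 * n + 2

/-- Exponent of the bound of the entries. -/
def ps1 (n : ℕ) : ℕ := pK n + 4 * n * n + 4 * n * (n + 2) + 1 + (n + 1)

/-- Size parameter. -/
def pT1 (n : ℕ) : ℕ := ps1 n + (4 * n * n + 4 * n)

/-! ### Indices -/

section Idx

variable {m₀ m₁ : ℕ}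

/-- The position of an index. -/
def idx : Fin m₀ ⊕ Fin m₁ → ℕ
  | Sum.inl a => a
  | Sum.inr b => m₀ + b

theorem idx_lt (x : Fin m₀ ⊕ Fin m₁) : idx x < m₀ + m₁ := by
  rcases x with x | x <;> simp [idx]; omega

theorem idx_inj {x y : Fin m₀ ⊕ Fin m₁} (h : idx x = idx y) : x = y := by
  rcases x with x | x <;> rcases y with y | y <;> simp only [idx] at h
  · congr 1; exact Fin.ext h
  · omega
  · omega
  · congr 1; exact Fin.ext (by omega)

theorem exists_idx {p : ℕ} (hp : p < m₀ + m₁) : ∃ x : Fin m₀ ⊕ Fin m₁, idx x = p := by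
  by_cases h : p < m₀
  · exact ⟨Sum.inl ⟨p, h⟩, rfl⟩
  · exact ⟨Sum.inr ⟨p - m₀, by omega⟩, by simp [idx]; omega⟩

theorem sum_idx {R : Type*} [AddCommMonoid R] (g : ℕ → R) :
    ∑ i ∈ Finset.range (m₀ + m₁), g i = ∑ x : Fin m₀ ⊕ Fin m₁, g (idx x) := by
  rw [Finset.sum_range_add, Fintype.sum_sum_type, ← Fin.sum_univ_eq_sum_range,
    ← Fin.sum_univ_eq_sum_range (fun x => g (m₀ + x))]
  rfl

theorem sum_range_mul' {R : Type*} [AddCommMonoid R] (k m : ℕ) (f : ℕ → R) :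
    ∑ r ∈ Finset.range (k * m), f r = ∑ i ∈ Finset.range k, ∑ j ∈ Finset.range m, f (i * m + j) := by
  induction k with
  | zero => simp
  | succ k ih => rw [Nat.succ_mul, Finset.sum_range_add, ih, Finset.sum_range_succ]

/-- The position of a pair. -/
def id2 (x y : Fin m₀ ⊕ Fin m₁) : ℕ := idx x * (m₀ + m₁) + idx y

theorem sum_id2 {R : Type*} [AddCommMonoid R] (f : ℕ → R) :
    ∑ r ∈ Finset.range ((m₀ + m₁) * (m₀ + m₁)), f r =
      ∑ x : Fin m₀ ⊕ Fin m₁, ∑ y : Fin m₀ ⊕ Fin m₁, f (id2 x y) := by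
  rw [sum_range_mul', sum_idx]
  exact Finset.sum_congr rfl fun x _ => sum_idx _

theorem id2_div (x y : Fin m₀ ⊕ Fin m₁) : id2 x y / (m₀ + m₁) = idx x := by
  have h1 := idx_lt y
  have h0 : 0 < m₀ + m₁ := by omega
  rw [id2, mul_comm, Nat.mul_add_div h0, Nat.div_eq_of_lt h1, add_zero]

theorem id2_mod (x y : Fin m₀ ⊕ Fin m₁) : id2 x y % (m₀ + m₁) = idx y := by
  have h1 := idx_lt y
  rw [id2, mul_comm, Nat.mul_add_mod, Nat.mod_eq_of_lt h1]

theorem id2_lt (x y : Fin m₀ ⊕ Fin m₁) : id2 x y < (m₀ + m₁) * (m₀ + m₁) := by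
  have h1 := idx_lt x
  have h2 := idx_lt y
  have : (idx x + 1) * (m₀ + m₁) ≤ (m₀ + m₁) * (m₀ + m₁) := Nat.mul_le_mul_right _ h1
  rw [id2]
  nlinarith

theorem id2_inj {x y x' y' : Fin m₀ ⊕ Fin m₁} (h : id2 x y = id2 x' y') : x = x' ∧ y = y' := by
  have h1 := id2_div x y
  have h2 := id2_mod x y
  rw [h, id2_div] at h1
  rw [h, id2_mod] at h2
  exact ⟨idx_inj h1.symm, idx_inj h2.symm⟩

/-- Summation over all the coordinates of a pair of matrices. -/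
theorem sum_rows {R : Type*} [AddCommMonoid R] (f : ℕ → R) :
    ∑ r ∈ Finset.range ((m₀ + m₁) * (m₀ + m₁) + (m₀ + m₁) * (m₀ + m₁)), f r =
      ∑ x : Fin m₀ ⊕ Fin m₁, ∑ y : Fin m₀ ⊕ Fin m₁, f (id2 x y) +
      ∑ x : Fin m₀ ⊕ Fin m₁, ∑ y : Fin m₀ ⊕ Fin m₁, f ((m₀ + m₁) * (m₀ + m₁) + id2 x y) := by
  rw [Finset.sum_range_add, sum_id2, sum_id2]

theorem sum_cols {R : Type*} [AddCommMonoid R] (f : ℕ → R) :
    ∑ r ∈ Finset.range ((m₀ + m₁) * (m₀ + m₁) + ((m₀ + m₁) + (m₀ + m₁))), f r =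
      ∑ x : Fin m₀ ⊕ Fin m₁, ∑ y : Fin m₀ ⊕ Fin m₁, f (id2 x y) +
      (∑ x : Fin m₀ ⊕ Fin m₁, f ((m₀ + m₁) * (m₀ + m₁) + idx x) +
       ∑ x : Fin m₀ ⊕ Fin m₁, f ((m₀ + m₁) * (m₀ + m₁) + ((m₀ + m₁) + idx x))) := by
  rw [Finset.sum_range_add, sum_id2, Finset.sum_range_add, sum_idx, sum_idx]

end Idx

/-! ### The relation matrix -/

/-- The index in the block. -/
def ixL (m0 p : ℕ) : ℕ := bif decide (p < m0) then p else p - m0

/-- Approximations of products of powers. -/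
def vvL (n m0 : ℕ) (kap : List ℤ) (i a j b : ℕ) : ℤ :=
  bif (decide (i < m0) == decide (a < m0)) && (decide (j < m0) == decide (b < m0)) then
    (kap.getD i 0 ^ min (ixL m0 a) n * kap.getD j 0 ^ min (ixL m0 b) n * 2 ^ pK n) /
      ((2 ^ (pK n * (min (ixL m0 a) n + min (ixL m0 b) n)) : ℕ) : ℤ)
  else 0

/-- The entries of the relation matrix. -/
def e1 (n m0 m : ℕ) (kap : List ℤ) (r c : ℕ) : ℤ :=
  bif decide (r < m * m) then
    bif decide (c < m * m) then (bif decide (c = r) then 2 ^ pK n else 0)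
    else bif decide (c < m * m + m) then
      (bif decide (c - m * m = r / m) then kap.getD (r % m) 0 else 0)
    else (bif decide (c - (m * m + m) = r / m) then 2 ^ pK n else 0)
  else
    bif decide (c < m * m) then
      -vvL n m0 kap (c / m) ((r - m * m) / m) (c % m) ((r - m * m) % m)
    else 0

/-- The vectors found in stage 1. -/
def S1 (n m0 : ℕ) (kap : List ℤ) : List (List ℤ) :=
  relShort (mkX (kap.length * kap.length + kap.length * kap.length)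
    (kap.length * kap.length + (kap.length + kap.length)) (e1 n m0 kap.length kap))
    (pT1 n) (4 ^ pb1 n)

section Spec

variable {m₀ m₁ : ℕ}

theorem lt_iff_bl (x : Fin m₀ ⊕ Fin m₁) : (decide (idx x < m₀)) = !(bl x) := by
  rcases x with x | x <;> simp [idx, bl]

theorem ixL_idx (x : Fin m₀ ⊕ Fin m₁) : ixL m₀ (idx x) = ix x := by
  rcases x with x | x <;> simp [idx, ix, ixL]

theorem ix_le {n : ℕ} (h0 : m₀ ≤ n) (h1 : m₁ ≤ n) (x : Fin m₀ ⊕ Fin m₁) : ix x ≤ n := by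
  rcases x with x | x <;> have := x.2 <;> simp [ix] <;> omega

theorem vvL_eq {n : ℕ} (h0 : m₀ ≤ n) (h1 : m₁ ≤ n) (kap : List ℤ) (i a j b : Fin m₀ ⊕ Fin m₁) :
    vvL n m₀ kap (idx i) (idx a) (idx j) (idx b) =
      vv (pK n) (fun x => kap.getD (idx x) 0) i a j b := by
  unfold vvL vv
  rw [lt_iff_bl, lt_iff_bl, lt_iff_bl, lt_iff_bl, ixL_idx, ixL_idx, min_eq_left (ix_le h0 h1 a),
    min_eq_left (ix_le h0 h1 b)]
  have key : ∀ p q : Bool, ((!p) == (!q)) = decide (p = q) := by decide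
  rw [key, key]
  by_cases e1 : bl i = bl a <;> by_cases e2 : bl j = bl b
  · simp [e1, e2]
  · simp [e2]
  · simp [e1]
  · simp [e1]

variable {n : ℕ} (h0 : m₀ ≤ n) (h1 : m₁ ≤ n) (kap : List ℤ)

theorem e1_MM (x y i j : Fin m₀ ⊕ Fin m₁) :
    e1 n m₀ (m₀ + m₁) kap (id2 x y) (id2 i j) = if i = x ∧ j = y then 2 ^ pK n else 0 := by
  unfold e1
  simp only [id2_lt, decide_true, cond_true]
  by_cases h : i = x ∧ j = y
  · obtain ⟨rfl, rfl⟩ := h
    simp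
  · have : id2 i j ≠ id2 x y := fun h' => h (id2_inj h')
    simp [h, this]

theorem e1_M2 (x y i : Fin m₀ ⊕ Fin m₁) :
    e1 n m₀ (m₀ + m₁) kap (id2 x y) ((m₀ + m₁) * (m₀ + m₁) + idx i) =
      if i = x then kap.getD (idx y) 0 else 0 := by
  unfold e1
  have g1 := idx_lt i
  simp only [id2_lt, decide_true, cond_true, id2_mod, id2_div, Nat.add_sub_cancel_left]
  rw [show decide ((m₀ + m₁) * (m₀ + m₁) + idx i < (m₀ + m₁) * (m₀ + m₁)) = false by simp,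
    show decide ((m₀ + m₁) * (m₀ + m₁) + idx i < (m₀ + m₁) * (m₀ + m₁) + (m₀ + m₁)) = true by
      simp [g1]]
  simp only [cond_true, cond_false]
  by_cases h : i = x
  · subst h; simp
  · have : idx i ≠ idx x := fun h' => h (idx_inj h')
    simp [h, this]

theorem e1_M3 (x y i : Fin m₀ ⊕ Fin m₁) :
    e1 n m₀ (m₀ + m₁) kap (id2 x y) ((m₀ + m₁) * (m₀ + m₁) + ((m₀ + m₁) + idx i)) =
      if i = x then 2 ^ pK n else 0 := by
  unfold e1
  simp only [id2_lt, decide_true, cond_true, id2_div]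
  rw [show decide ((m₀ + m₁) * (m₀ + m₁) + ((m₀ + m₁) + idx i) < (m₀ + m₁) * (m₀ + m₁)) = false by
      simp,
    show decide ((m₀ + m₁) * (m₀ + m₁) + ((m₀ + m₁) + idx i) < (m₀ + m₁) * (m₀ + m₁) + (m₀ + m₁))
      = false by simp]
  simp only [cond_false]
  rw [show (m₀ + m₁) * (m₀ + m₁) + ((m₀ + m₁) + idx i) - ((m₀ + m₁) * (m₀ + m₁) + (m₀ + m₁)) =
    idx i by omega]
  by_cases h : i = x
  · subst h; simp
  · have : idx i ≠ idx x := fun h' => h (idx_inj h')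
    simp [h, this]

include h0 h1 in
theorem e1_C1 (a b i j : Fin m₀ ⊕ Fin m₁) :
    e1 n m₀ (m₀ + m₁) kap ((m₀ + m₁) * (m₀ + m₁) + id2 a b) (id2 i j) =
      -vv (pK n) (fun x => kap.getD (idx x) 0) i a j b := by
  unfold e1
  rw [show decide ((m₀ + m₁) * (m₀ + m₁) + id2 a b < (m₀ + m₁) * (m₀ + m₁)) = false by simp]
  simp only [id2_lt, decide_true, cond_true, cond_false, Nat.add_sub_cancel_left, id2_div, id2_mod]
  rw [vvL_eq h0 h1]

theorem e1_C2 (a b : Fin m₀ ⊕ Fin m₁) {c : ℕ} (hc : (m₀ + m₁) * (m₀ + m₁) ≤ c) :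
    e1 n m₀ (m₀ + m₁) kap ((m₀ + m₁) * (m₀ + m₁) + id2 a b) c = 0 := by
  unfold e1
  rw [show decide ((m₀ + m₁) * (m₀ + m₁) + id2 a b < (m₀ + m₁) * (m₀ + m₁)) = false by simp,
    show decide (c < (m₀ + m₁) * (m₀ + m₁)) = false by simp; omega]
  rfl

/-- The matrices coded by a vector. -/
def Mu (c : ℕ → ℤ) (x y : Fin m₀ ⊕ Fin m₁) : ℤ := c (id2 x y)

/-- The coefficient matrix coded by a vector. -/
def Cu (c : ℕ → ℤ) (x y : Fin m₀ ⊕ Fin m₁) : ℤ := c ((m₀ + m₁) * (m₀ + m₁) + id2 x y)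

include h0 h1 in
theorem form1 (c : ℕ → ℤ) (i j : Fin m₀ ⊕ Fin m₁) :
    ∑ r ∈ Finset.range ((m₀ + m₁) * (m₀ + m₁) + (m₀ + m₁) * (m₀ + m₁)),
      c r * e1 n m₀ (m₀ + m₁) kap r (id2 i j) =
    2 ^ pK n * Mu c i j - ∑ a, ∑ b, Cu c a b *
      vv (pK n) (fun x => kap.getD (idx x) 0) i a j b := by
  rw [sum_rows]
  simp only [e1_MM, e1_C1 h0 h1]
  have g1 : ∑ x : Fin m₀ ⊕ Fin m₁, ∑ y : Fin m₀ ⊕ Fin m₁,
      c (id2 x y) * (if i = x ∧ j = y then 2 ^ pK n else 0) = 2 ^ pK n * Mu c i j := by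
    rw [Finset.sum_eq_single i, Finset.sum_eq_single j]
    · simp [Mu, mul_comm]
    · intro y _ hy; simp [Ne.symm hy]
    · simp
    · intro x _ hx; simp [Ne.symm hx]
    · simp
  rw [g1]
  simp only [mul_neg, Finset.sum_neg_distrib, Cu]
  ring

theorem form2 (c : ℕ → ℤ) (i : Fin m₀ ⊕ Fin m₁) :
    ∑ r ∈ Finset.range ((m₀ + m₁) * (m₀ + m₁) + (m₀ + m₁) * (m₀ + m₁)),
      c r * e1 n m₀ (m₀ + m₁) kap r ((m₀ + m₁) * (m₀ + m₁) + idx i) =
    ∑ j, Mu c i j * kap.getD (idx j) 0 := by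
  rw [sum_rows]
  simp only [e1_M2, e1_C2 kap _ _ (Nat.le_add_right _ _), mul_zero, Finset.sum_const_zero,
    add_zero]
  rw [Finset.sum_eq_single i]
  · simp [Mu]
  · intro x _ hx; simp [Ne.symm hx]
  · simp

theorem form3 (c : ℕ → ℤ) (i : Fin m₀ ⊕ Fin m₁) :
    ∑ r ∈ Finset.range ((m₀ + m₁) * (m₀ + m₁) + (m₀ + m₁) * (m₀ + m₁)),
      c r * e1 n m₀ (m₀ + m₁) kap r ((m₀ + m₁) * (m₀ + m₁) + ((m₀ + m₁) + idx i)) =
    2 ^ pK n * ∑ j, Mu c i j := by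
  rw [sum_rows]
  simp only [e1_M3, e1_C2 kap _ _ (Nat.le_add_right _ _), mul_zero, Finset.sum_const_zero,
    add_zero]
  rw [Finset.sum_eq_single i]
  · rw [Finset.mul_sum]
    exact Finset.sum_congr rfl fun y _ => by simp [Mu, mul_comm]
  · intro x _ hx; simp [Ne.symm hx]
  · simp

end Spec

end Pool.Agent.H687R2.Pgst
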