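import Pool.Agent.H687R2.Pgst.Run1

/-!
# Stage 1 on lists: soundness and completeness
-/

namespace Pool.Agent.H687R2.Pgst

open Pool.Agent.NPC Pool.Agent.H687R2.LLL

/-- An instance with its real data. -/
structure Inst (n m₀ m₁ : ℕ) (θ : Fin m₀ ⊕ Fin m₁ → ℝ) (P₀ P₁ : Polynomial ℤ)
    (kap : List ℤ) : Prop where
  h0 : m₀ ≤ n
  h1 : m₁ ≤ n
  len : kap.length = m₀ + m₁
  two : TwoPoly θ P₀ P₁
  hr : ∀ i, |θ i| ≤ 2 ^ n
  hk : ∀ x, |(2 : ℝ) ^ pK n * θ x - (kap.getD (idx x) 0 : ℤ)| ≤ 1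

section

variable {n m₀ m₁ : ℕ} {θ : Fin m₀ ⊕ Fin m₁ → ℝ} {P₀ P₁ : Polynomial ℤ} {kap : List ℤ}

theorem Inst.m_le (h : Inst n m₀ m₁ θ P₀ P₁ kap) : m₀ + m₁ ≤ 2 * n := by
  have := h.h0; have := h.h1; omega

theorem Inst.kap_le (h : Inst n m₀ m₁ θ P₀ P₁ kap) (x : Fin m₀ ⊕ Fin m₁) :
    |kap.getD (idx x) 0| ≤ 2 ^ (pK n + n + 1) := by
  have h1 := h.hk x
  have h2 := h.hr x
  have h3 : |((kap.getD (idx x) 0 : ℤ) : ℝ)| ≤ 2 ^ (pK n + n + 1) := by
    have e1 : ((kap.getD (idx x) 0 : ℤ) : ℝ) = (2 : ℝ) ^ pK n * θ x -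
        ((2 : ℝ) ^ pK n * θ x - (kap.getD (idx x) 0 : ℤ)) := by ring
    rw [e1]
    refine (abs_sub _ _).trans ?_
    have e2 : |(2 : ℝ) ^ pK n * θ x| ≤ 2 ^ (pK n + n) := by
      rw [abs_mul, abs_of_pos (a := (2 : ℝ) ^ pK n) (by positivity), pow_add]
      gcongr
    have e3 : (1 : ℝ) ≤ 2 ^ (pK n + n) := one_le_pow₀ (by norm_num)
    rw [pow_succ]
    linarith
  exact_mod_cast h3

theorem Inst.vv_le (h : Inst n m₀ m₁ θ P₀ P₁ kap) (i a j b : Fin m₀ ⊕ Fin m₁) :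
    |vv (pK n) (fun x => kap.getD (idx x) 0) i a j b| ≤
      2 ^ (pK n + 4 * n * n + 4 * n * (n + 2) + 1) := by
  have h1 := vv_approx (K := pK n) (κ := fun x => kap.getD (idx x) 0) h.hr h.hk i a j b
  have hV : ∀ i a, |Vd θ i a| ≤ 2 ^ (n * n) := by
    intro i a
    unfold Vd
    split_ifs
    · rw [abs_pow, pow_mul]
      calc |θ i| ^ ix a ≤ (2 ^ n) ^ ix a := pow_le_pow_left₀ (abs_nonneg _) (h.hr i) _
        _ ≤ (2 ^ n) ^ n := pow_le_pow_right₀ (one_le_pow₀ (by norm_num)) (ix_le h.h0 h.h1 a)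
    · rw [abs_zero]; positivity
  have h2 : |((vv (pK n) (fun x => kap.getD (idx x) 0) i a j b : ℤ) : ℝ)| ≤
      2 ^ (pK n + 4 * n * n + 4 * n * (n + 2) + 1) := by
    have e1 : ((vv (pK n) (fun x => kap.getD (idx x) 0) i a j b : ℤ) : ℝ) =
      ((vv (pK n) (fun x => kap.getD (idx x) 0) i a j b : ℤ) - 2 ^ pK n * (Vd θ i a * Vd θ j b)) +
        2 ^ pK n * (Vd θ i a * Vd θ j b) := by ring
    rw [e1]
    refine (abs_add_le _ _).trans ?_
    have e2 : |(2 : ℝ) ^ pK n * (Vd θ i a * Vd θ j b)| ≤ 2 ^ (pK n + 4 * n * n) := by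
      rw [abs_mul, abs_mul, abs_of_pos (a := (2 : ℝ) ^ pK n) (by positivity)]
      calc (2 : ℝ) ^ pK n * (|Vd θ i a| * |Vd θ j b|) ≤ 2 ^ pK n * (2 ^ (n * n) * 2 ^ (n * n)) := by
            gcongr
            · exact hV i a
            · exact hV j b
        _ = 2 ^ (pK n + (n * n + n * n)) := by rw [pow_add, pow_add]
        _ ≤ _ := pow_le_pow_right₀ (by norm_num) (by nlinarith)
    have e3 : (2 : ℝ) ^ (2 * (m₀ + m₁) * (n + 2)) ≤ 2 ^ (pK n + 4 * n * n + 4 * n * (n + 2)) := by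
      refine pow_le_pow_right₀ (by norm_num) ?_
      have := h.m_le
      have : 2 * (m₀ + m₁) * (n + 2) ≤ 4 * n * (n + 2) := Nat.mul_le_mul_right _ (by omega)
      omega
    have e4 : (2 : ℝ) ^ (pK n + 4 * n * n) ≤ 2 ^ (pK n + 4 * n * n + 4 * n * (n + 2)) :=
      pow_le_pow_right₀ (by norm_num) (by omega)
    rw [pow_succ]
    linarith
  exact_mod_cast h2

theorem pK_le_ps1 (n : ℕ) : pK n ≤ ps1 n := by unfold ps1; omega

theorem Inst.e1_le (h : Inst n m₀ m₁ θ P₀ P₁ kap) :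
    ∀ r < (m₀ + m₁) * (m₀ + m₁) + (m₀ + m₁) * (m₀ + m₁),
    ∀ c < (m₀ + m₁) * (m₀ + m₁) + ((m₀ + m₁) + (m₀ + m₁)),
      |e1 n m₀ (m₀ + m₁) kap r c| ≤ 2 ^ ps1 n := by
  intro r hr c hc
  set m := m₀ + m₁ with hm
  have hm0 : 0 < m := by
    rcases Nat.eq_zero_or_pos m with h0 | h0
    · rw [h0] at hr; simp at hr
    · exact h0
  have hpos : |(0 : ℤ)| ≤ 2 ^ ps1 n := by rw [abs_zero]; positivity
  have hKp : |(2 : ℤ) ^ pK n| ≤ 2 ^ ps1 n := by
    rw [abs_of_pos (by positivity)]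
    exact pow_le_pow_right₀ (by norm_num) (pK_le_ps1 n)
  unfold e1
  by_cases h1 : r < m * m
  · simp only [h1, decide_true, cond_true]
    by_cases h2 : c < m * m
    · simp only [h2, decide_true, cond_true]
      by_cases h3 : c = r
      · simp only [h3, decide_true, cond_true]; exact hKp
      · simp only [h3, decide_false, cond_false]; exact hpos
    · simp only [h2, decide_false, cond_false]
      by_cases h3 : c < m * m + m
      · simp only [h3, decide_true, cond_true]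
        by_cases h4 : c - m * m = r / m
        · simp only [h4, decide_true, cond_true]
          obtain ⟨x, hx⟩ := exists_idx (m₀ := m₀) (m₁ := m₁) (Nat.mod_lt r hm0)
          rw [← hm] at hx
          rw [← hx]
          refine (h.kap_le x).trans (pow_le_pow_right₀ (by norm_num) ?_)
          unfold ps1; omega
        · simp only [h4, decide_false, cond_false]; exact hpos
      · simp only [h3, decide_false, cond_false]
        by_cases h4 : c - (m * m + m) = r / m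
        · simp only [h4, decide_true, cond_true]; exact hKp
        · simp only [h4, decide_false, cond_false]; exact hpos
  · simp only [h1, decide_false, cond_false]
    by_cases h2 : c < m * m
    · simp only [h2, decide_true, cond_true]
      have g1 : r - m * m < m * m := by omega
      have f1 : (r - m * m) / m < m := Nat.div_lt_of_lt_mul g1
      have f2 : (r - m * m) % m < m := Nat.mod_lt _ hm0
      have f3 : c / m < m := Nat.div_lt_of_lt_mul h2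
      have f4 : c % m < m := Nat.mod_lt _ hm0
      obtain ⟨a, ha⟩ := exists_idx (m₀ := m₀) (m₁ := m₁) f1
      obtain ⟨b, hb⟩ := exists_idx (m₀ := m₀) (m₁ := m₁) f2
      obtain ⟨i, hi⟩ := exists_idx (m₀ := m₀) (m₁ := m₁) f3
      obtain ⟨j, hj⟩ := exists_idx (m₀ := m₀) (m₁ := m₁) f4
      rw [← ha, ← hb, ← hi, ← hj, vvL_eq h.h0 h.h1, abs_neg]
      refine (h.vv_le i a j b).trans (pow_le_pow_right₀ (by norm_num) ?_)
      unfold ps1; omega
    · simp only [h2, decide_false, cond_false]; exact hpos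

theorem T1_ok {m : ℕ} (hm : m ≤ 2 * n) : (m * m + (m + m)) * 2 ^ ps1 n < 2 ^ pT1 n := by
  rw [pT1, pow_add, mul_comm]
  refine Nat.mul_lt_mul_of_pos_left ?_ (by positivity)
  have h1 : m * m + (m + m) ≤ 4 * n * n + 4 * n := by nlinarith
  exact lt_of_le_of_lt h1 Nat.lt_two_pow_self

theorem k1_ok {m : ℕ} (hm : m ≤ 2 * n) : m * m + m * m ≤ pT1 n := by
  have h1 : m * m ≤ 4 * n * n := by nlinarith
  have h2 : 8 * n * n ≤ pg n := by unfold pg; omega
  have h3 : pg n ≤ pK n := by unfold pK; omega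
  have h4 : pK n ≤ pT1 n := by unfold pT1 ps1; omega
  have h5 : m * m + m * m ≤ 8 * n * n := by nlinarith
  omega

theorem Inst.K_ok (h : Inst n m₀ m₁ θ P₀ P₁ kap) :
    (pg n + 3 * (m₀ + m₁) + 2 * n * (m₀ + m₁) + 1) * ((m₀ + m₁) * (m₀ + m₁)) + pg n +
      2 * (m₀ + m₁) * (n + 2) + 2 * (m₀ + m₁) + 2 ≤ pK n := by
  have hm := h.m_le
  unfold pK
  have h1 : (m₀ + m₁) * (m₀ + m₁) ≤ 4 * n * n := by nlinarith
  have h2 : 2 * n * (m₀ + m₁) ≤ 4 * n * n := by nlinarith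
  have h3 : pg n + 3 * (m₀ + m₁) + 2 * n * (m₀ + m₁) + 1 ≤ pg n + 6 * n + 4 * n * n + 1 := by omega
  have h4 := Nat.mul_le_mul h3 h1
  have h5 : 2 * (m₀ + m₁) * (n + 2) ≤ 4 * n * (n + 2) := Nat.mul_le_mul_right _ (by omega)
  omega

/-- Soundness of stage 1. -/
theorem Inst.sound (h : Inst n m₀ m₁ θ P₀ P₁ kap) {u : List ℤ} (hu : u ∈ S1 n m₀ kap) :
    u.length = (m₀ + m₁) * (m₀ + m₁) + (m₀ + m₁) * (m₀ + m₁) ∧
    (∀ i, |ent u i| ≤ 2 ^ pg n) ∧ ∀ i : Fin m₀ ⊕ Fin m₁, Mu (ent u) i ∈ relL θ := by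
  rw [S1, h.len] at hu
  have hm := h.m_le
  obtain ⟨g1, g2, g3⟩ := relShort_mkX h.e1_le (T1_ok hm) (k1_ok hm) (pb1 n) hu
  have hexp : (m₀ + m₁) * (m₀ + m₁) + (m₀ + m₁) * (m₀ + m₁) + pb1 n ≤ pg n := by
    unfold pg
    have : (m₀ + m₁) * (m₀ + m₁) + (m₀ + m₁) * (m₀ + m₁) ≤ 8 * n * n := by nlinarith
    omega
  have hpow : (2 : ℤ) ^ ((m₀ + m₁) * (m₀ + m₁) + (m₀ + m₁) * (m₀ + m₁) + pb1 n) ≤ 2 ^ pg n :=
    pow_le_pow_right₀ (by norm_num) hexp
  have g2' : ∀ i, |ent u i| ≤ 2 ^ pg n := fun i => (g2 i).trans hpow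
  refine ⟨g1, g2', ?_⟩
  have hF1 : ∀ i j : Fin m₀ ⊕ Fin m₁, |2 ^ pK n * Mu (ent u) i j - ∑ a, ∑ b, Cu (ent u) a b *
      vv (pK n) (fun x => kap.getD (idx x) 0) i a j b| ≤ 2 ^ pg n := by
    intro i j
    rw [← form1 h.h0 h.h1]
    exact (g3 _ (by have := id2_lt i j; omega)).trans hpow
  have hF2 : ∀ i : Fin m₀ ⊕ Fin m₁, |∑ j, Mu (ent u) i j * kap.getD (idx j) 0| ≤ 2 ^ pg n := by
    intro i
    rw [← form2 (n := n) kap]
    exact (g3 _ (by have := idx_lt i; omega)).trans hpow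
  have hF3 : ∀ i : Fin m₀ ⊕ Fin m₁, |2 ^ pK n * ∑ j, Mu (ent u) i j| ≤ 2 ^ pg n := by
    intro i
    rw [← form3 (n := n) kap]
    exact (g3 _ (by have := idx_lt i; omega)).trans hpow
  have hex := exact1 h.two (κ := fun x => kap.getD (idx x) 0) h.hr h.hk h.K_ok (Mu (ent u))
    (Cu (ent u)) (fun _ _ => g2' _) (fun _ _ => g2' _) hF1
  intro i
  refine ⟨exact3 (K := pK n) (g := pg n) (by unfold pK; omega) (hF3 i), ?_⟩
  exact exact2 h.two (κ := fun x => kap.getD (idx x) 0) h.hr h.hk h.K_ok (Mu (ent u))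
    (Cu (ent u)) (fun _ _ => g2' _) (fun _ _ => g2' _) hex i (hF2 i)

theorem sum_sum_sq_le {m : ℕ} (hm : m = m₀ + m₁) {F : Fin m₀ ⊕ Fin m₁ → Fin m₀ ⊕ Fin m₁ → ℤ}
    {e : ℕ} (h : ∀ i j, |F i j| ≤ 2 ^ e) : ∑ i, ∑ j, F i j ^ 2 ≤ (m : ℤ) * m * 4 ^ e := by
  have h1 : ∀ i j, F i j ^ 2 ≤ 4 ^ e := by
    intro i j
    rw [← sq_abs]
    calc |F i j| ^ 2 ≤ (2 ^ e) ^ 2 := pow_le_pow_left₀ (abs_nonneg _) (h i j) 2
      _ = 4 ^ e := by rw [← pow_mul, mul_comm, pow_mul]; norm_num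
  refine (Finset.sum_le_sum fun i _ => Finset.sum_le_sum fun j _ => h1 i j).trans_eq ?_
  simp only [Finset.sum_const, Finset.card_univ, Fintype.card_sum, Fintype.card_fin,
    nsmul_eq_mul, ← hm]
  ring

theorem sum_sq_le {m : ℕ} (hm : m = m₀ + m₁) {F : Fin m₀ ⊕ Fin m₁ → ℤ}
    {e : ℕ} (h : ∀ i, |F i| ≤ 2 ^ e) : ∑ i, F i ^ 2 ≤ (m : ℤ) * 4 ^ e := by
  have h1 : ∀ i, F i ^ 2 ≤ 4 ^ e := by
    intro i
    rw [← sq_abs]
    calc |F i| ^ 2 ≤ (2 ^ e) ^ 2 := pow_le_pow_left₀ (abs_nonneg _) (h i) 2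
      _ = 4 ^ e := by rw [← pow_mul, mul_comm, pow_mul]; norm_num
  refine (Finset.sum_le_sum fun i _ => h1 i).trans_eq ?_
  simp only [Finset.sum_const, Finset.card_univ, Fintype.card_sum, Fintype.card_fin,
    nsmul_eq_mul, ← hm]

theorem cnt_le (m e : ℕ) : ((m : ℤ) * m * 4 ^ e + m * m * 4 ^ e) +
    (m * m * 4 ^ e + (m * 4 ^ e + m * 4 ^ e)) ≤ 4 ^ (e + m + 2) := by
  have t1 : (m : ℤ) ≤ 2 ^ m := by exact_mod_cast (Nat.lt_two_pow_self (n := m)).le
  have t2 : (m : ℤ) * m ≤ 4 ^ m := by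
    calc (m : ℤ) * m ≤ 2 ^ m * 2 ^ m := by gcongr
      _ = 4 ^ m := by rw [← mul_pow]; norm_num
  have t3 : (m : ℤ) ≤ 4 ^ m := by
    refine t1.trans ?_
    exact pow_le_pow_left₀ (by norm_num) (by norm_num) m
  have t4 : (4 : ℤ) ^ (e + m + 2) = 4 ^ m * 4 ^ e * 16 := by
    rw [pow_add, pow_add]; ring
  rw [t4]
  have t5 : (0 : ℤ) < 4 ^ e := by positivity
  have t6 := mul_le_mul_of_nonneg_right t2 t5.le
  have t7 := mul_le_mul_of_nonneg_right t3 t5.le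
  have t8 : (0 : ℤ) < 4 ^ m * 4 ^ e := by positivity
  linarith

/-- Completeness of stage 1. -/
theorem Inst.complete (h : Inst n m₀ m₁ θ P₀ P₁ kap)
    (M C : Fin m₀ ⊕ Fin m₁ → Fin m₀ ⊕ Fin m₁ → ℤ) (hM : ∀ i j, |M i j| ≤ 2 ^ pE n)
    (hC : ∀ i j, |C i j| ≤ 2 ^ pE n)
    (hex : ∀ i j, (M i j : ℝ) = ∑ a, ∑ b, (C a b : ℝ) * (Vd θ i a * Vd θ j b))
    (hrel : ∀ i, M i ∈ relL θ) (w : Fin m₀ ⊕ Fin m₁ → ℤ)
    (hw : ∀ u ∈ S1 n m₀ kap, ∀ i : Fin m₀ ⊕ Fin m₁, ∑ j, Mu (ent u) i j * w j = 0) :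
    ∀ i, ∑ j, M i j * w j = 0 := by
  intro i₀
  set c : ℕ → ℤ := fun r => (∑ x, ∑ y, if r = id2 x y then M x y else 0) +
    ∑ x, ∑ y, if r = (m₀ + m₁) * (m₀ + m₁) + id2 x y then C x y else 0 with hc
  have hcM : ∀ x y, c (id2 x y) = M x y := by
    intro x y
    have g1 : ∑ x', ∑ y', (if id2 x y = id2 x' y' then M x' y' else 0) = M x y := by
      rw [Finset.sum_eq_single x, Finset.sum_eq_single y]
      · simp
      · intro y' _ hy; rw [if_neg]; intro h'; exact hy (id2_inj h').2.symm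
      · simp
      · intro x' _ hx
        refine Finset.sum_eq_zero fun y' _ => ?_
        rw [if_neg]; intro h'; exact hx (id2_inj h').1.symm
      · simp
    have g2 : ∑ x', ∑ y', (if id2 x y = (m₀ + m₁) * (m₀ + m₁) + id2 x' y' then C x' y' else 0) =
        0 := by
      refine Finset.sum_eq_zero fun x' _ => Finset.sum_eq_zero fun y' _ => ?_
      rw [if_neg]
      have := id2_lt x y
      omega
    simp only [hc]
    rw [g1, g2, add_zero]
  have hcC : ∀ x y, c ((m₀ + m₁) * (m₀ + m₁) + id2 x y) = C x y := by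
    intro x y
    have g1 : ∑ x', ∑ y', (if (m₀ + m₁) * (m₀ + m₁) + id2 x y =
        (m₀ + m₁) * (m₀ + m₁) + id2 x' y' then C x' y' else 0) = C x y := by
      rw [Finset.sum_eq_single x, Finset.sum_eq_single y]
      · simp
      · intro y' _ hy; rw [if_neg]; intro h'; exact hy (id2_inj (Nat.add_left_cancel h')).2.symm
      · simp
      · intro x' _ hx
        refine Finset.sum_eq_zero fun y' _ => ?_
        rw [if_neg]; intro h'; exact hx (id2_inj (Nat.add_left_cancel h')).1.symm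
      · simp
    have g2 : ∑ x', ∑ y', (if (m₀ + m₁) * (m₀ + m₁) + id2 x y = id2 x' y' then M x' y' else 0) =
        0 := by
      refine Finset.sum_eq_zero fun x' _ => Finset.sum_eq_zero fun y' _ => ?_
      rw [if_neg]
      have := id2_lt x' y'
      omega
    simp only [hc]
    rw [g1, g2, zero_add]
  have hMu : Mu c = M := by funext x y; exact hcM x y
  have hCu : Cu c = C := by funext x y; exact hcC x y
  have hm2 := h.m_le
  set e := pE n + 2 * (m₀ + m₁) * (n + 2) + 2 * (m₀ + m₁) with he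
  have hMe : ∀ i j, |M i j| ≤ 2 ^ e := fun i j =>
    (hM i j).trans (pow_le_pow_right₀ (by norm_num) (by omega))
  have hCe : ∀ i j, |C i j| ≤ 2 ^ e := fun i j =>
    (hC i j).trans (pow_le_pow_right₀ (by norm_num) (by omega))
  have hF1 : ∀ i j, |2 ^ pK n * M i j - ∑ a, ∑ b, C a b *
      vv (pK n) (fun x => kap.getD (idx x) 0) i a j b| ≤ 2 ^ e :=
    complete_F1 h.hr h.hk M C hC hex
  have hF2 : ∀ i, |∑ j, M i j * kap.getD (idx j) 0| ≤ 2 ^ e := by
    intro i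
    refine (complete_F2 (κ := fun x => kap.getD (idx x) 0) h.hk M hM i (hrel i).2).trans
      (pow_le_pow_right₀ (by norm_num) (by omega))
  have hF3 : ∀ i, |2 ^ pK n * ∑ j, M i j| ≤ 2 ^ e := by
    intro i
    rw [(hrel i).1, mul_zero, abs_zero]; positivity
  have hnorm : ∑ r ∈ Finset.range ((m₀ + m₁) * (m₀ + m₁) + (m₀ + m₁) * (m₀ + m₁)), c r ^ 2 +
      ∑ j ∈ Finset.range ((m₀ + m₁) * (m₀ + m₁) + ((m₀ + m₁) + (m₀ + m₁))),
        (∑ r ∈ Finset.range ((m₀ + m₁) * (m₀ + m₁) + (m₀ + m₁) * (m₀ + m₁)),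
          c r * e1 n m₀ (m₀ + m₁) kap r j) ^ 2 ≤
        ((4 ^ pb1 n : ℕ) : ℤ) := by
    rw [sum_rows, sum_cols]
    simp only [form1 h.h0 h.h1, form2, form3, hMu, hCu, hcM, hcC]
    have s1 := sum_sum_sq_le rfl hMe
    have s2 := sum_sum_sq_le rfl hCe
    have s3 := sum_sum_sq_le rfl hF1
    have s4 := sum_sq_le rfl hF2
    have s5 := sum_sq_le rfl hF3
    have s6 := cnt_le (m₀ + m₁) e
    have s7 : (4 : ℤ) ^ (e + (m₀ + m₁) + 2) ≤ 4 ^ pb1 n := by
      refine pow_le_pow_right₀ (by norm_num) ?_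
      rw [he, pb1]
      have : 2 * (m₀ + m₁) * (n + 2) ≤ 4 * n * (n + 2) := Nat.mul_le_mul_right _ (by omega)
      omega
    push_cast at s1 s2 s3 s4 s5 s6 ⊢
    linarith
  -- the linear functional
  have hlin := relShort_mkX_lin h.e1_le (T1_ok h.m_le) (k1_ok h.m_le) (4 ^ pb1 n) c hnorm (R := ℤ)
    (fun r => ∑ y, if r = id2 i₀ y then w y else 0) ?_
  · rw [sum_rows] at hlin
    simp only [hcM, hcC, Int.cast_id] at hlin
    have g1 : ∑ x, ∑ y, M x y * ∑ y', (if id2 x y = id2 i₀ y' then w y' else 0) =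
        ∑ y, M i₀ y * w y := by
      rw [Finset.sum_eq_single i₀]
      · refine Finset.sum_congr rfl fun y _ => ?_
        rw [Finset.sum_eq_single y]
        · simp
        · intro y' _ hy; rw [if_neg]; intro h'; exact hy (id2_inj h').2.symm
        · simp
      · intro x _ hx
        refine Finset.sum_eq_zero fun y _ => ?_
        rw [Finset.sum_eq_zero, mul_zero]
        intro y' _
        rw [if_neg]; intro h'; exact hx (id2_inj h').1
      · simp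
    have g2 : ∑ x, ∑ y, C x y * ∑ y', (if (m₀ + m₁) * (m₀ + m₁) + id2 x y = id2 i₀ y' then w y' else 0) = 0 := by
      refine Finset.sum_eq_zero fun x _ => Finset.sum_eq_zero fun y _ => ?_
      rw [Finset.sum_eq_zero, mul_zero]
      intro y' _
      rw [if_neg]
      have := id2_lt i₀ y'
      omega
    rw [g1, g2, add_zero] at hlin
    exact hlin
  · intro u hu
    rw [sum_rows]
    have g1 : ∑ x : Fin m₀ ⊕ Fin m₁, ∑ y : Fin m₀ ⊕ Fin m₁, ((ent u (id2 x y) : ℤ) : ℤ) *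
        ∑ y', (if id2 x y = id2 i₀ y' then w y' else 0) = ∑ y, Mu (ent u) i₀ y * w y := by
      rw [Finset.sum_eq_single i₀]
      · refine Finset.sum_congr rfl fun y _ => ?_
        rw [Finset.sum_eq_single y]
        · simp [Mu]
        · intro y' _ hy; rw [if_neg]; intro h'; exact hy (id2_inj h').2.symm
        · simp
      · intro x _ hx
        refine Finset.sum_eq_zero fun y _ => ?_
        rw [Finset.sum_eq_zero, mul_zero]
        intro y' _
        rw [if_neg]; intro h'; exact hx (id2_inj h').1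
      · simp
    have g2 : ∑ x : Fin m₀ ⊕ Fin m₁, ∑ y : Fin m₀ ⊕ Fin m₁, ((ent u ((m₀ + m₁) * (m₀ + m₁) + id2 x y) : ℤ) : ℤ) *
        ∑ y', (if (m₀ + m₁) * (m₀ + m₁) + id2 x y = id2 i₀ y' then w y' else 0) = 0 := by
      refine Finset.sum_eq_zero fun x _ => Finset.sum_eq_zero fun y _ => ?_
      rw [Finset.sum_eq_zero, mul_zero]
      intro y' _
      rw [if_neg]
      have := id2_lt i₀ y'
      omega
    simp only [Int.cast_id] at g1 g2 ⊢
    rw [g1, g2, add_zero]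
    exact hw u (by rw [S1, h.len]; exact hu) i₀

end

end Pool.Agent.H687R2.Pgst
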