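import Pool.Agent.H687R2.Pgst.Run1b

/-!
# Stage 2 on lists
-/

namespace Pool.Agent.H687R2.Pgst

open Pool.Agent.NPC Pool.Agent.H687R2.LLL

/-- Exponent of the bound of the parity solution. -/
def pb2 (n : ℕ) : ℕ := pE n + 4 * n + 1

/-- Scaling exponent. -/
def pw2 (n : ℕ) : ℕ := 2 * n + 1 + pb2 n + 1

/-- Exponent of the bound of the entries. -/
def ps2 (n : ℕ) : ℕ := pw2 n + pg n + 2 * n + 1

/-- Size parameter. -/
def pT2 (n : ℕ) : ℕ := ps2 n + 16 * n * n * n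

/-- The entries of the rows of the matrices found. -/
def rho (m : ℕ) (S : List (List ℤ)) (c j : ℕ) : ℤ :=
  (S.getD (c / m) []).getD (c % m * m + j) 0

/-- The entries of the second relation matrix. -/
def e2 (n m0 m : ℕ) (S : List (List ℤ)) (r c : ℕ) : ℤ :=
  bif decide (r = 0) then
    2 ^ pw2 n * ((List.range m).map fun j => bif decide (j < m0) then 0 else rho m S c j).sum
  else -(2 ^ pw2 n * (2 * rho m S c (r - 1)))

/-- The vectors found in stage 2. -/
def S2 (n m0 m : ℕ) (S : List (List ℤ)) : List (List ℤ) :=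
  relShort (mkX (m + 1) (S.length * m) (e2 n m0 m S)) (pT2 n) (4 ^ pb2 n)

/-- The answer. -/
def ans (n m0 : ℕ) (kap : List ℤ) : Bool :=
  (S2 n m0 kap.length (S1 n m0 kap)).any fun u => decide ((u.getD 0 0).natAbs % 2 = 1)

theorem sum_map_range {R : Type*} [AddCommMonoid R] (f : ℕ → R) (m : ℕ) :
    ((List.range m).map f).sum = ∑ j ∈ Finset.range m, f j := by
  induction m with
  | zero => simp
  | succ m ih => rw [List.range_succ, List.map_append, List.sum_append, ih, Finset.sum_range_succ]; simp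

section

variable {n m₀ m₁ : ℕ} {θ : Fin m₀ ⊕ Fin m₁ → ℝ} {P₀ P₁ : Polynomial ℤ} {kap : List ℤ}

theorem rho_eq {S : List (List ℤ)} {c : ℕ} {u : List ℤ} {i : Fin m₀ ⊕ Fin m₁}
    (hu : S.getD (c / (m₀ + m₁)) [] = u) (hi : idx i = c % (m₀ + m₁)) (y : Fin m₀ ⊕ Fin m₁) :
    rho (m₀ + m₁) S c (idx y) = Mu (ent u) i y := by
  rw [rho, hu, ← hi]
  rfl

theorem form_e2 {S : List (List ℤ)} {c : ℕ} {u : List ℤ} {i : Fin m₀ ⊕ Fin m₁}
    (hu : S.getD (c / (m₀ + m₁)) [] = u) (hi : idx i = c % (m₀ + m₁)) (d : ℕ → ℤ) :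
    ∑ r ∈ Finset.range (m₀ + m₁ + 1), d r * e2 n m₀ (m₀ + m₁) S r c =
      2 ^ pw2 n * (d 0 * ∑ y, Mu (ent u) i y * chi y -
        2 * ∑ y : Fin m₀ ⊕ Fin m₁, Mu (ent u) i y * d (idx y + 1)) := by
  rw [Finset.sum_range_succ', sum_idx]
  have g1 : ∀ y : Fin m₀ ⊕ Fin m₁, d (idx y + 1) * e2 n m₀ (m₀ + m₁) S (idx y + 1) c =
      -(2 ^ pw2 n * (2 * (Mu (ent u) i y * d (idx y + 1)))) := by
    intro y
    simp only [e2, Nat.add_sub_cancel]
    rw [show decide (idx y + 1 = 0) = false by simp, cond_false, rho_eq hu hi]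
    ring
  have g2 : e2 n m₀ (m₀ + m₁) S 0 c = 2 ^ pw2 n * ∑ y, Mu (ent u) i y * chi y := by
    simp only [e2, decide_true, cond_true]
    rw [sum_map_range, sum_idx]
    congr 1
    refine Finset.sum_congr rfl fun y _ => ?_
    rw [lt_iff_bl, rho_eq hu hi]
    rcases y with y | y <;> simp [bl, chi]
  simp only [g1, g2, Finset.sum_neg_distrib, ← Finset.mul_sum]
  ring

theorem Inst.rho_le (h : Inst n m₀ m₁ θ P₀ P₁ kap) (c j : ℕ) :
    |rho (m₀ + m₁) (S1 n m₀ kap) c j| ≤ 2 ^ pg n := by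
  unfold rho
  by_cases hc : c / (m₀ + m₁) < (S1 n m₀ kap).length
  · rw [List.getD_eq_getElem (S1 n m₀ kap) _ hc]
    exact (h.sound (List.getElem_mem hc)).2.1 _
  · rw [List.getD_eq_default (l := S1 n m₀ kap) _ (by omega)]
    simp

theorem Inst.e2_le (h : Inst n m₀ m₁ θ P₀ P₁ kap) (r c : ℕ) :
    |e2 n m₀ (m₀ + m₁) (S1 n m₀ kap) r c| ≤ 2 ^ ps2 n := by
  have hm := h.m_le
  have h2n : ((2 * n : ℕ) : ℤ) ≤ 2 ^ (2 * n) := by
    exact_mod_cast (Nat.lt_two_pow_self (n := 2 * n)).le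
  unfold e2
  by_cases hr : r = 0
  · simp only [hr, decide_true, cond_true]
    rw [abs_mul, abs_of_pos (a := (2 : ℤ) ^ pw2 n) (by positivity), sum_map_range]
    have g1 : |∑ j ∈ Finset.range (m₀ + m₁), (bif decide (j < m₀) then 0
        else rho (m₀ + m₁) (S1 n m₀ kap) c j)| ≤ ((m₀ + m₁ : ℕ) : ℤ) * 2 ^ pg n := by
      refine (Finset.abs_sum_le_sum_abs _ _).trans ((Finset.sum_le_sum (g := fun _ => 2 ^ pg n)
        fun j _ => ?_).trans_eq (by simp))
      by_cases hj : j < m₀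
      · simp only [hj, decide_true, cond_true, abs_zero]; positivity
      · simp only [hj, decide_false, cond_false]; exact h.rho_le c j
    calc (2 : ℤ) ^ pw2 n * |∑ j ∈ Finset.range (m₀ + m₁), (bif decide (j < m₀) then 0
        else rho (m₀ + m₁) (S1 n m₀ kap) c j)| ≤ 2 ^ pw2 n * (2 ^ (2 * n) * 2 ^ pg n) := by
          refine mul_le_mul_of_nonneg_left (g1.trans ?_) (by positivity)
          refine mul_le_mul_of_nonneg_right (le_trans ?_ h2n) (by positivity)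
          exact_mod_cast hm
      _ = 2 ^ (pw2 n + (2 * n + pg n)) := by rw [pow_add, pow_add]
      _ ≤ _ := pow_le_pow_right₀ (by norm_num) (by unfold ps2; omega)
  · simp only [hr, decide_false, cond_false]
    rw [abs_neg, abs_mul, abs_mul, abs_of_pos (a := (2 : ℤ) ^ pw2 n) (by positivity)]
    calc (2 : ℤ) ^ pw2 n * (|2| * |rho (m₀ + m₁) (S1 n m₀ kap) c (r - 1)|) ≤
          2 ^ pw2 n * (2 * 2 ^ pg n) := by
          refine mul_le_mul_of_nonneg_left ?_ (by positivity)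
          rw [abs_of_pos (by norm_num : (0 : ℤ) < 2)]
          exact mul_le_mul_of_nonneg_left (h.rho_le _ _) (by norm_num)
      _ = 2 ^ (pw2 n + (1 + pg n)) := by rw [pow_add, pow_add, pow_one]
      _ ≤ _ := pow_le_pow_right₀ (by norm_num) (by unfold ps2; omega)

theorem Inst.q2_le (h : Inst n m₀ m₁ θ P₀ P₁ kap) :
    (S1 n m₀ kap).length * (m₀ + m₁) ≤ 16 * n * n * n := by
  have hm := h.m_le
  have h1 : (S1 n m₀ kap).length ≤ (m₀ + m₁) * (m₀ + m₁) + (m₀ + m₁) * (m₀ + m₁) := by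
    rw [S1, h.len]
    exact (length_relShort _ _ _).trans_eq (length_mkX _ _ _)
  have h2 : (m₀ + m₁) * (m₀ + m₁) + (m₀ + m₁) * (m₀ + m₁) ≤ 8 * n * n := by nlinarith
  calc (S1 n m₀ kap).length * (m₀ + m₁) ≤ (8 * n * n) * (2 * n) :=
        Nat.mul_le_mul (h1.trans h2) hm
    _ = _ := by ring

theorem Inst.T2_ok (h : Inst n m₀ m₁ θ P₀ P₁ kap) :
    (S1 n m₀ kap).length * (m₀ + m₁) * 2 ^ ps2 n < 2 ^ pT2 n := by
  rw [pT2, pow_add, mul_comm]
  exact Nat.mul_lt_mul_of_pos_left (lt_of_le_of_lt h.q2_le Nat.lt_two_pow_self) (by positivity)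

theorem Inst.k2_ok (h : Inst n m₀ m₁ θ P₀ P₁ kap) : m₀ + m₁ + 1 ≤ pT2 n := by
  have := h.m_le
  unfold pT2 ps2; omega

/-- The forms of the vectors found in stage 2 vanish. -/
theorem Inst.sound2 (h : Inst n m₀ m₁ θ P₀ P₁ kap) {v : List ℤ}
    (hv : v ∈ S2 n m₀ (m₀ + m₁) (S1 n m₀ kap)) {u : List ℤ} (hu : u ∈ S1 n m₀ kap)
    (i : Fin m₀ ⊕ Fin m₁) :
    ent v 0 * ∑ y, Mu (ent u) i y * chi y -
      2 * ∑ y : Fin m₀ ⊕ Fin m₁, Mu (ent u) i y * ent v (idx y + 1) = 0 := by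
  have hm := h.m_le
  obtain ⟨_, _, g3⟩ := relShort_mkX (fun i _ j _ => h.e2_le i j) h.T2_ok h.k2_ok (pb2 n) hv
  obtain ⟨p, hp, rfl⟩ := List.getElem_of_mem hu
  have hi := idx_lt i
  have hm0 : 0 < m₀ + m₁ := by omega
  have e1 : (p * (m₀ + m₁) + idx i) / (m₀ + m₁) = p := by
    rw [mul_comm, Nat.mul_add_div hm0, Nat.div_eq_of_lt hi, add_zero]
  have e2' : (p * (m₀ + m₁) + idx i) % (m₀ + m₁) = idx i := by
    rw [mul_comm, Nat.mul_add_mod, Nat.mod_eq_of_lt hi]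
  have g4 := g3 (p * (m₀ + m₁) + idx i) (by
    have : (p + 1) * (m₀ + m₁) ≤ (S1 n m₀ kap).length * (m₀ + m₁) := Nat.mul_le_mul_right _ hp
    nlinarith)
  rw [form_e2 (u := (S1 n m₀ kap)[p]) (i := i)
    (by rw [e1, List.getD_eq_getElem (S1 n m₀ kap) _ hp]) e2'.symm] at g4
  by_contra g6
  have g7 := Int.one_le_abs g6
  rw [abs_mul, abs_of_pos (a := (2 : ℤ) ^ pw2 n) (by positivity)] at g4
  have g8 : (2 : ℤ) ^ (m₀ + m₁ + 1 + pb2 n) < 2 ^ pw2 n := by
    refine pow_lt_pow_right₀ (by norm_num) ?_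
    unfold pw2; omega
  have g9 := le_mul_of_one_le_right (a := (2 : ℤ) ^ pw2 n) (by positivity) g7
  exact absurd (g9.trans (g4.trans g8.le)) (by
    intro h'
    have := lt_of_le_of_lt (g9.trans g4) g8
    exact lt_irrefl _ this)

/-- Correctness of the decision procedure. -/
theorem Inst.ans_iff (h : Inst n m₀ m₁ θ P₀ P₁ kap)
    {M C N : Fin m₀ ⊕ Fin m₁ → Fin m₀ ⊕ Fin m₁ → ℤ} (hA : Alg θ (pE n) M N)
    (hM : ∀ i j, |M i j| ≤ 2 ^ pE n) (hC : ∀ i j, |C i j| ≤ 2 ^ pE n)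
    (hex : ∀ i j, (M i j : ℝ) = ∑ a, ∑ b, (C a b : ℝ) * (Vd θ i a * Vd θ j b)) :
    ans n m₀ kap = true ↔ Crit θ := by
  have hodd : ∀ t : ℤ, t.natAbs % 2 = 1 ↔ Odd t := by
    intro t; rw [Int.odd_iff]; omega
  unfold ans
  rw [h.len, List.any_eq_true]
  constructor
  · rintro ⟨v, hv, hodd'⟩
    rw [decide_eq_true_eq, hodd] at hodd'
    set y : Fin m₀ ⊕ Fin m₁ → ℤ := fun x => ent v (idx x + 1) with hy
    have h1 : ∀ i, ∑ j, M i j * (ent v 0 * chi j - 2 * y j) = 0 := by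
      refine h.complete M C hM hC hex hA.M_mem _ fun u hu i => ?_
      rw [← h.sound2 hv hu i, Finset.mul_sum, Finset.mul_sum, ← Finset.sum_sub_distrib]
      exact Finset.sum_congr rfl fun j _ => by simp only [hy]; ring
    refine crit_of_solution hA (t := ent v 0) hodd' (y := y) fun i => ?_
    rw [← h1 i, Finset.mul_sum, Finset.mul_sum, ← Finset.sum_sub_distrib]
    exact Finset.sum_congr rfl fun j _ => by ring
  · intro hc
    obtain ⟨y, hy1, hy2⟩ := solution_of_crit hA hc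
    -- the short vector
    set d : ℕ → ℤ := fun r => if r = 0 then 1 else ∑ x, if r = idx x + 1 then y x else 0 with hd
    have hd0 : d 0 = 1 := by simp [hd]
    have hdy : ∀ x : Fin m₀ ⊕ Fin m₁, d (idx x + 1) = y x := by
      intro x
      have g1 : ∑ x', (if idx x + 1 = idx x' + 1 then y x' else 0) = y x := by
        rw [Finset.sum_eq_single x]
        · simp
        · intro x' _ hx
          rw [if_neg]; intro h'; exact hx (idx_inj (by omega)).symm
        · simp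
      simp only [hd]
      rw [if_neg (by omega)]
      exact g1
    by_contra hno
    push Not at hno
    have heven : ∀ v ∈ S2 n m₀ (m₀ + m₁) (S1 n m₀ kap), ((ent v 0 : ℤ) : ZMod 2) = 0 := by
      intro v hv
      have g1 := hno v hv
      rw [ne_eq, decide_eq_true_eq, hodd, Int.not_odd_iff_even] at g1
      exact (ZMod.intCast_zmod_eq_zero_iff_dvd _ 2).2 (by exact_mod_cast g1.two_dvd)
    have hlin := relShort_mkX_lin (fun i _ j _ => h.e2_le i j) h.T2_ok h.k2_ok (4 ^ pb2 n) d ?_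
      (R := ZMod 2) (fun r => if r = 0 then 1 else 0) (fun v hv => by
        have g1 := heven v hv
        rw [Finset.sum_eq_single 0]
        · simp [g1]
        · intro r _ hr; simp [hr]
        · simp)
    · rw [Finset.sum_eq_single 0] at hlin
      · simp [hd0] at hlin
      · intro r _ hr; simp [hr]
      · simp
    · -- the norm
      have hz : ∀ c ∈ Finset.range ((S1 n m₀ kap).length * (m₀ + m₁)),
          (∑ r ∈ Finset.range (m₀ + m₁ + 1),
            d r * e2 n m₀ (m₀ + m₁) (S1 n m₀ kap) r c) ^ 2 = 0 := by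
        intro c hc'
        have hc2 : c < (S1 n m₀ kap).length * (m₀ + m₁) := by simpa using hc'
        have hm0 : 0 < m₀ + m₁ := by
          rcases Nat.eq_zero_or_pos (m₀ + m₁) with h0 | h0
          · rw [h0] at hc2; simp at hc2
          · exact h0
        have hp : c / (m₀ + m₁) < (S1 n m₀ kap).length :=
          Nat.div_lt_of_lt_mul (by rw [mul_comm]; exact hc2)
        obtain ⟨i, hi⟩ := exists_idx (m₀ := m₀) (m₁ := m₁) (Nat.mod_lt c hm0)
        rw [form_e2 (u := (S1 n m₀ kap)[c / (m₀ + m₁)]) (i := i)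
          (by rw [List.getD_eq_getElem (S1 n m₀ kap) _ hp]) hi]
        simp only [hd0, hdy, one_mul]
        have g1 := hy2 _ ((h.sound (List.getElem_mem hp)).2.2 i)
        rw [g1]; simp
      rw [Finset.sum_congr rfl hz, Finset.sum_const_zero, add_zero, Finset.sum_range_succ',
        sum_idx]
      simp only [hdy, hd0]
      have g1 := sum_sq_le rfl hy1
      have hm := h.m_le
      have g2 : ((m₀ + m₁ : ℕ) : ℤ) + 1 ≤ 4 ^ (m₀ + m₁) := by
        have : m₀ + m₁ + 1 ≤ 4 ^ (m₀ + m₁) := Nat.lt_pow_self (by norm_num)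
        exact_mod_cast this
      have g3 : (1 : ℤ) ≤ 4 ^ (pE n + (m₀ + m₁) + 1) := one_le_pow₀ (by norm_num)
      push_cast
      push_cast at g1 g2
      calc ∑ x, y x ^ 2 + 1 ^ 2 ≤ ((m₀ : ℤ) + m₁) * 4 ^ (pE n + (m₀ + m₁) + 1) +
            4 ^ (pE n + (m₀ + m₁) + 1) := by linarith
        _ = ((m₀ : ℤ) + m₁ + 1) * 4 ^ (pE n + (m₀ + m₁) + 1) := by ring
        _ ≤ 4 ^ (m₀ + m₁) * 4 ^ (pE n + (m₀ + m₁) + 1) := by gcongr
        _ = 4 ^ (m₀ + m₁ + (pE n + (m₀ + m₁) + 1)) := (pow_add _ _ _).symm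
        _ ≤ 4 ^ pb2 n := pow_le_pow_right₀ (by norm_num) (by unfold pb2; omega)

end

end Pool.Agent.H687R2.Pgst
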