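import Pool.Agent.H707R2.Liouville

/-!
# Stage 1: recognising equivariant matrices of relations from approximations
-/

namespace Pool.Agent.H687R2.Pgst

open Polynomial

/-- Index of an element within its block. -/
def ix {m₀ m₁ : ℕ} : Fin m₀ ⊕ Fin m₁ → ℕ
  | Sum.inl a => a
  | Sum.inr a => a

/-- The block of an element. -/
def bl {m₀ m₁ : ℕ} : Fin m₀ ⊕ Fin m₁ → Bool
  | Sum.inl _ => false
  | Sum.inr _ => true

section

variable {m₀ m₁ : ℕ}

theorem ix_lt (i : Fin m₀ ⊕ Fin m₁) : ix i < m₀ + m₁ := by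
  rcases i with i | i <;> simp [ix] <;> omega

/-- The block Vandermonde matrix. -/
noncomputable def Vd (θ : Fin m₀ ⊕ Fin m₁ → ℝ) (i a : Fin m₀ ⊕ Fin m₁) : ℝ :=
  if bl i = bl a then θ i ^ ix a else 0

/-- Integer approximations of `2 ^ K * V i a * V j b`. -/
def vv (K : ℕ) (κ : Fin m₀ ⊕ Fin m₁ → ℤ) (i a j b : Fin m₀ ⊕ Fin m₁) : ℤ :=
  if bl i = bl a ∧ bl j = bl b then
    (κ i ^ ix a * κ j ^ ix b * 2 ^ K) / ((2 ^ (K * (ix a + ix b)) : ℕ) : ℤ) else 0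

theorem abs_pow_sub_le {x y ρ : ℝ} (hρ : 1 ≤ ρ) (hx : |x| ≤ ρ) (hy : |y| ≤ ρ) (a : ℕ) :
    |x ^ a - y ^ a| ≤ a * ρ ^ a * |x - y| := by
  induction a with
  | zero => simp
  | succ a ih =>
    have e : x ^ (a + 1) - y ^ (a + 1) = x * (x ^ a - y ^ a) + (x - y) * y ^ a := by ring
    have h0 : (0 : ℝ) ≤ ρ := by linarith
    have h1 : |x * (x ^ a - y ^ a)| ≤ ρ * (a * ρ ^ a * |x - y|) := by
      rw [abs_mul]
      exact mul_le_mul hx ih (abs_nonneg _) h0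
    have h2 : |(x - y) * y ^ a| ≤ |x - y| * ρ ^ (a + 1) := by
      rw [abs_mul, abs_pow]
      refine mul_le_mul_of_nonneg_left ?_ (abs_nonneg _)
      exact (pow_le_pow_left₀ (abs_nonneg _) hy a).trans (pow_le_pow_right₀ hρ (by omega))
    rw [e]
    refine (abs_add_le _ _).trans ?_
    push_cast
    rw [pow_succ] at h2 ⊢
    nlinarith

theorem two_mul_add_one_le (m : ℕ) : (2 * m + 1 : ℝ) ≤ 2 ^ (2 * m) := by
  have : 2 * m + 1 ≤ 2 ^ (2 * m) := by
    have := Nat.lt_two_pow_self (n := 2 * m)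
    omega
  exact_mod_cast this

theorem vv_approx {K r : ℕ} {θ : Fin m₀ ⊕ Fin m₁ → ℝ} {κ : Fin m₀ ⊕ Fin m₁ → ℤ}
    (hr : ∀ i, |θ i| ≤ 2 ^ r) (hκ : ∀ i, |(2 : ℝ) ^ K * θ i - κ i| ≤ 1)
    (i a j b : Fin m₀ ⊕ Fin m₁) :
    |(vv K κ i a j b : ℝ) - 2 ^ K * (Vd θ i a * Vd θ j b)| ≤
      2 ^ (2 * (m₀ + m₁) * (r + 2)) := by
  unfold vv Vd
  by_cases h1 : bl i = bl a
  · by_cases h2 : bl j = bl b
    · simp only [h1, h2, and_self, if_true]
      set A := ix a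
      set B := ix b
      have hA : A < m₀ + m₁ := ix_lt a
      have hB : B < m₀ + m₁ := ix_lt b
      set t : ℝ := 2 ^ K with ht
      have ht1 : 1 ≤ t := one_le_pow₀ (by norm_num)
      have ht0 : 0 < t := by linarith
      set x : ℝ := κ i / t with hx
      set y : ℝ := κ j / t with hy
      have hxθ : |x - θ i| ≤ 1 / t := by
        have : x - θ i = -(2 ^ K * θ i - κ i) / t := by rw [hx, ht]; field_simp; ring
        rw [this, abs_div, abs_neg, abs_of_pos ht0]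
        exact div_le_div_of_nonneg_right (hκ i) ht0.le
      have hyθ : |y - θ j| ≤ 1 / t := by
        have : y - θ j = -(2 ^ K * θ j - κ j) / t := by rw [hy, ht]; field_simp; ring
        rw [this, abs_div, abs_neg, abs_of_pos ht0]
        exact div_le_div_of_nonneg_right (hκ j) ht0.le
      have h1t : 1 / t ≤ 1 := by rw [div_le_one ht0]; exact ht1
      set ρ : ℝ := 2 ^ (r + 1) with hρ
      have hρ1 : 1 ≤ ρ := one_le_pow₀ (by norm_num)
      have hr1 : (1 : ℝ) ≤ 2 ^ r := one_le_pow₀ (by norm_num)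
      have hρ2 : (2 : ℝ) ^ r + 1 ≤ ρ := by rw [hρ, pow_succ]; linarith
      have bx : |x| ≤ ρ := by
        have : x = θ i + (x - θ i) := by ring
        rw [this]
        refine (abs_add_le _ _).trans ?_
        have := hr i
        linarith
      have bi : |θ i| ≤ ρ := by have := hr i; linarith
      have by' : |y| ≤ ρ := by
        have : y = θ j + (y - θ j) := by ring
        rw [this]
        refine (abs_add_le _ _).trans ?_
        have := hr j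
        linarith
      have bj : |θ j| ≤ ρ := by have := hr j; linarith
      have e1 := abs_pow_sub_le hρ1 bx bi A
      have e2 := abs_pow_sub_le hρ1 by' bj B
      -- the difference of the products
      have e3 : |x ^ A * y ^ B - θ i ^ A * θ j ^ B| ≤ (A + B) * ρ ^ (A + B) * (1 / t) := by
        have e : x ^ A * y ^ B - θ i ^ A * θ j ^ B =
            (x ^ A - θ i ^ A) * y ^ B + θ i ^ A * (y ^ B - θ j ^ B) := by ring
        rw [e]
        refine (abs_add_le _ _).trans ?_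
        rw [abs_mul, abs_mul, abs_pow, abs_pow]
        have f1 : |x ^ A - θ i ^ A| * |y| ^ B ≤ (A * ρ ^ A * (1 / t)) * ρ ^ B := by
          refine mul_le_mul (e1.trans ?_) (pow_le_pow_left₀ (abs_nonneg _) by' B) (by positivity)
            (by positivity)
          exact mul_le_mul_of_nonneg_left hxθ (by positivity)
        have f2 : |θ i| ^ A * |y ^ B - θ j ^ B| ≤ ρ ^ A * (B * ρ ^ B * (1 / t)) := by
          refine mul_le_mul (pow_le_pow_left₀ (abs_nonneg _) bi A) (e2.trans ?_) (abs_nonneg _)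
            (by positivity)
          exact mul_le_mul_of_nonneg_left hyθ (by positivity)
        calc _ ≤ (A * ρ ^ A * (1 / t)) * ρ ^ B + ρ ^ A * (B * ρ ^ B * (1 / t)) := add_le_add f1 f2
          _ = _ := by rw [pow_add]; ring
      -- the floor
      have e4 : |((((κ i ^ A * κ j ^ B * 2 ^ K) / ((2 ^ (K * (A + B)) : ℕ) : ℤ) : ℤ)) : ℝ) -
          t * (x ^ A * y ^ B)| ≤ 1 := by
        have hd : (0 : ℤ) < ((2 ^ (K * (A + B)) : ℕ) : ℤ) := by positivity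
        have g1 := Int.ediv_mul_le (κ i ^ A * κ j ^ B * 2 ^ K) hd.ne'
        have g2 := Int.lt_ediv_add_one_mul_self (κ i ^ A * κ j ^ B * 2 ^ K) hd
        set z := (κ i ^ A * κ j ^ B * 2 ^ K) / ((2 ^ (K * (A + B)) : ℕ) : ℤ)
        have g3 : ((z * ((2 ^ (K * (A + B)) : ℕ) : ℤ) : ℤ) : ℝ) ≤
          ((κ i ^ A * κ j ^ B * 2 ^ K : ℤ) : ℝ) := by exact_mod_cast g1
        have g4 : ((κ i ^ A * κ j ^ B * 2 ^ K : ℤ) : ℝ) <
          (((z + 1) * ((2 ^ (K * (A + B)) : ℕ) : ℤ) : ℤ) : ℝ) := by exact_mod_cast g2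
        push_cast at g3 g4
        have hd' : (0 : ℝ) < 2 ^ (K * (A + B)) := by positivity
        have g5 : t * (x ^ A * y ^ B) = (κ i : ℝ) ^ A * κ j ^ B * 2 ^ K / 2 ^ (K * (A + B)) := by
          rw [hx, hy, div_pow, div_pow, pow_mul, pow_add, ← ht]
          field_simp
        rw [g5, abs_le]
        constructor
        · have : (κ i : ℝ) ^ A * κ j ^ B * 2 ^ K / 2 ^ (K * (A + B)) ≤ z + 1 := by
            rw [div_le_iff₀ hd']; exact g4.le
          linarith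
        · have : (z : ℝ) ≤ (κ i : ℝ) ^ A * κ j ^ B * 2 ^ K / 2 ^ (K * (A + B)) := by
            rw [le_div_iff₀ hd']; exact g3
          linarith
      have e5 : |t * (x ^ A * y ^ B) - t * (θ i ^ A * θ j ^ B)| ≤ (A + B) * ρ ^ (A + B) := by
        rw [← mul_sub, abs_mul, abs_of_pos ht0]
        calc t * |x ^ A * y ^ B - θ i ^ A * θ j ^ B| ≤ t * ((A + B) * ρ ^ (A + B) * (1 / t)) :=
              mul_le_mul_of_nonneg_left e3 ht0.le
          _ = _ := by field_simp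
      have e6 : ((A : ℝ) + B) * ρ ^ (A + B) ≤
          (2 * ((m₀ + m₁ : ℕ) : ℝ)) * ρ ^ (2 * (m₀ + m₁)) := by
        refine mul_le_mul ?_ (pow_le_pow_right₀ hρ1 (by omega)) (by positivity) (by positivity)
        have : A + B ≤ 2 * (m₀ + m₁) := by omega
        exact_mod_cast this
      have e7 : (2 * ((m₀ + m₁ : ℕ) : ℝ)) * ρ ^ (2 * (m₀ + m₁)) + 1 ≤
          2 ^ (2 * (m₀ + m₁) * (r + 2)) := by
        have k1 := two_mul_add_one_le (m₀ + m₁)
        have k2 : (2 : ℝ) ^ (2 * (m₀ + m₁) * (r + 2)) = 2 ^ (2 * (m₀ + m₁)) *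
            ρ ^ (2 * (m₀ + m₁)) := by
          rw [hρ, ← pow_mul, ← pow_add]; congr 1; ring
        rw [k2]
        have k3 : 1 ≤ ρ ^ (2 * (m₀ + m₁)) := one_le_pow₀ hρ1
        nlinarith
      calc |((((κ i ^ A * κ j ^ B * 2 ^ K) / ((2 ^ (K * (A + B)) : ℕ) : ℤ) : ℤ)) : ℝ) -
            t * (θ i ^ A * θ j ^ B)| = |(((((κ i ^ A * κ j ^ B * 2 ^ K) /
              ((2 ^ (K * (A + B)) : ℕ) : ℤ) : ℤ)) : ℝ) - t * (x ^ A * y ^ B)) +
              (t * (x ^ A * y ^ B) - t * (θ i ^ A * θ j ^ B))| := by congr 1; ring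
        _ ≤ _ := (abs_add_le _ _).trans (by linarith)
    · simp only [h2, and_false, if_false, mul_zero, Int.cast_zero, sub_zero, abs_zero]
      positivity
  · simp only [h1, false_and, if_false, zero_mul, mul_zero, Int.cast_zero, sub_zero, abs_zero]
    positivity

/-! ### The Liouville argument -/

/-- The data of the two polynomials. -/
structure TwoPoly (θ : Fin m₀ ⊕ Fin m₁ → ℝ) (P₀ P₁ : Polynomial ℤ) : Prop where
  h₀ : P₀.map (Int.castRingHom ℝ) = ∏ i, (X - C (θ (Sum.inl i)))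
  h₁ : P₁.map (Int.castRingHom ℝ) = ∏ i, (X - C (θ (Sum.inr i)))

theorem liou {θ : Fin m₀ ⊕ Fin m₁ → ℝ} {P₀ P₁ : Polynomial ℤ} (h : TwoPoly θ P₀ P₁)
    {R : ℝ} (hR : ∀ i, |θ i| ≤ R) (N : ℕ) (c : ℕ → ℕ → ℤ) (i j : Fin m₀ ⊕ Fin m₁) {B : ℝ}
    (hB : 1 ≤ B)
    (hcB : ∑ a ∈ Finset.range N, ∑ b ∈ Finset.range N, |(c a b : ℝ)| * R ^ a * R ^ b ≤ B)
    (hx : |∑ a ∈ Finset.range N, ∑ b ∈ Finset.range N, (c a b : ℝ) * θ i ^ a * θ j ^ b|
      * B ^ ((m₀ + m₁) * (m₀ + m₁)) < 1) :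
    ∑ a ∈ Finset.range N, ∑ b ∈ Finset.range N, (c a b : ℝ) * θ i ^ a * θ j ^ b = 0 := by
  have key : ∀ s t : ℕ, s ≤ m₀ + m₁ → t ≤ m₀ + m₁ →
      |∑ a ∈ Finset.range N, ∑ b ∈ Finset.range N, (c a b : ℝ) * θ i ^ a * θ j ^ b|
        * B ^ (s * t) < 1 := by
    intro s t hs ht
    refine lt_of_le_of_lt (mul_le_mul_of_nonneg_left ?_ (abs_nonneg _)) hx
    exact pow_le_pow_right₀ hB (Nat.mul_le_mul hs ht)
  rcases i with i | i <;> rcases j with j | j
  · exact liouville P₀ P₀ (fun i => θ (Sum.inl i)) (fun i => θ (Sum.inl i)) h.h₀ h.h₀ R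
      (fun _ => hR _) (fun _ => hR _) N c i j B hB hcB (key _ _ (by omega) (by omega))
  · exact liouville P₀ P₁ (fun i => θ (Sum.inl i)) (fun i => θ (Sum.inr i)) h.h₀ h.h₁ R
      (fun _ => hR _) (fun _ => hR _) N c i j B hB hcB (key _ _ (by omega) (by omega))
  · exact liouville P₁ P₀ (fun i => θ (Sum.inr i)) (fun i => θ (Sum.inl i)) h.h₁ h.h₀ R
      (fun _ => hR _) (fun _ => hR _) N c i j B hB hcB (key _ _ (by omega) (by omega))
  · exact liouville P₁ P₁ (fun i => θ (Sum.inr i)) (fun i => θ (Sum.inr i)) h.h₁ h.h₁ R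
      (fun _ => hR _) (fun _ => hR _) N c i j B hB hcB (key _ _ (by omega) (by omega))

/-- The coefficient function of a block of a matrix. -/
def cc (C : Fin m₀ ⊕ Fin m₁ → Fin m₀ ⊕ Fin m₁ → ℤ) (s t : Bool) (a b : ℕ) : ℤ :=
  ∑ a', ∑ b', if (bl a' = s ∧ ix a' = a) ∧ (bl b' = t ∧ ix b' = b) then C a' b' else 0

theorem sum_cc (C : Fin m₀ ⊕ Fin m₁ → Fin m₀ ⊕ Fin m₁ → ℤ) (s t : Bool) {N : ℕ}
    (hN : m₀ + m₁ ≤ N) (f : ℕ → ℕ → ℝ) :
    ∑ a ∈ Finset.range N, ∑ b ∈ Finset.range N, (cc C s t a b : ℝ) * f a b =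
      ∑ a', ∑ b', if bl a' = s ∧ bl b' = t then (C a' b' : ℝ) * f (ix a') (ix b') else 0 := by
  have h1 : ∀ a b : ℕ, (cc C s t a b : ℝ) * f a b = ∑ a', ∑ b',
      if (bl a' = s ∧ ix a' = a) ∧ (bl b' = t ∧ ix b' = b) then (C a' b' : ℝ) * f a b else 0 := by
    intro a b
    unfold cc
    push_cast
    rw [Finset.sum_mul]
    refine Finset.sum_congr rfl fun a' _ => ?_
    rw [Finset.sum_mul]
    refine Finset.sum_congr rfl fun b' _ => ?_
    split_ifs <;> simp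
  simp only [h1]
  have h2 : ∀ a ∈ Finset.range N, ∑ b ∈ Finset.range N, ∑ a', ∑ b',
      (if (bl a' = s ∧ ix a' = a) ∧ (bl b' = t ∧ ix b' = b) then (C a' b' : ℝ) * f a b else 0) =
      ∑ a', ∑ b', ∑ b ∈ Finset.range N,
      (if (bl a' = s ∧ ix a' = a) ∧ (bl b' = t ∧ ix b' = b) then (C a' b' : ℝ) * f a b else 0) := by
    intro a _
    rw [Finset.sum_comm]
    refine Finset.sum_congr rfl fun a' _ => ?_
    rw [Finset.sum_comm]
  rw [Finset.sum_congr rfl h2, Finset.sum_comm]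
  refine Finset.sum_congr rfl fun a' _ => ?_
  rw [Finset.sum_comm]
  refine Finset.sum_congr rfl fun b' _ => ?_
  rw [Finset.sum_eq_single (ix a'), Finset.sum_eq_single (ix b')]
  · simp
  · intro b _ hb
    rw [if_neg]
    rintro ⟨_, _, h⟩
    exact hb h.symm
  · intro h
    exact absurd (Finset.mem_range.2 (lt_of_lt_of_le (ix_lt b') hN)) h
  · intro a _ ha
    refine Finset.sum_eq_zero fun b _ => ?_
    rw [if_neg]
    rintro ⟨⟨_, h⟩, _⟩
    exact ha h.symm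
  · intro h
    exact absurd (Finset.mem_range.2 (lt_of_lt_of_le (ix_lt a') hN)) h

theorem abs_cc_le (C : Fin m₀ ⊕ Fin m₁ → Fin m₀ ⊕ Fin m₁ → ℤ) (s t : Bool) (a b : ℕ) :
    |(cc C s t a b : ℝ)| ≤ cc (fun i j => |C i j|) s t a b := by
  unfold cc
  push_cast
  refine (Finset.abs_sum_le_sum_abs _ _).trans (Finset.sum_le_sum fun a' _ => ?_)
  refine (Finset.abs_sum_le_sum_abs _ _).trans (Finset.sum_le_sum fun b' _ => ?_)
  split_ifs <;> simp

theorem Vd_mul (θ : Fin m₀ ⊕ Fin m₁ → ℝ) (C : Fin m₀ ⊕ Fin m₁ → Fin m₀ ⊕ Fin m₁ → ℤ)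
    (i j : Fin m₀ ⊕ Fin m₁) : ∑ a', ∑ b', (C a' b' : ℝ) * (Vd θ i a' * Vd θ j b') =
    ∑ a', ∑ b', if bl a' = bl i ∧ bl b' = bl j then
      (C a' b' : ℝ) * (θ i ^ ix a' * θ j ^ ix b') else 0 := by
  refine Finset.sum_congr rfl fun a' _ => Finset.sum_congr rfl fun b' _ => ?_
  unfold Vd
  by_cases h1 : bl i = bl a' <;> by_cases h2 : bl j = bl b'
  · simp [h1, h2]
  · simp [h2, Ne.symm h2]
  · simp [h1, Ne.symm h1]
  · simp [h2, Ne.symm h2]

theorem sum_abs_le {ι : Type*} [Fintype ι] (f : ι → ℝ) {B : ℝ} (h : ∀ i, |f i| ≤ B) :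
    |∑ i, f i| ≤ Fintype.card ι * B := by
  refine (Finset.abs_sum_le_sum_abs _ _).trans ((Finset.sum_le_sum fun i _ => h i).trans ?_)
  simp

theorem card_II : (Fintype.card (Fin m₀ ⊕ Fin m₁) : ℝ) = ((m₀ + m₁ : ℕ) : ℝ) := by
  rw [Fintype.card_sum, Fintype.card_fin, Fintype.card_fin]

/-- The entries of `M` are exactly given by `C`. -/
theorem exact1 {θ : Fin m₀ ⊕ Fin m₁ → ℝ} {P₀ P₁ : Polynomial ℤ} (h : TwoPoly θ P₀ P₁)
    {K r g : ℕ} {κ : Fin m₀ ⊕ Fin m₁ → ℤ} (hr : ∀ i, |θ i| ≤ 2 ^ r)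
    (hκ : ∀ i, |(2 : ℝ) ^ K * θ i - κ i| ≤ 1)
    (hK : (g + 3 * (m₀ + m₁) + 2 * r * (m₀ + m₁) + 1) * ((m₀ + m₁) * (m₀ + m₁)) + g +
      2 * (m₀ + m₁) * (r + 2) + 2 * (m₀ + m₁) + 2 ≤ K)
    (M C : Fin m₀ ⊕ Fin m₁ → Fin m₀ ⊕ Fin m₁ → ℤ) (hM : ∀ i j, |M i j| ≤ 2 ^ g)
    (hC : ∀ i j, |C i j| ≤ 2 ^ g)
    (hF : ∀ i j, |2 ^ K * M i j - ∑ a, ∑ b, C a b * vv K κ i a j b| ≤ 2 ^ g)
    (i j : Fin m₀ ⊕ Fin m₁) :
    (M i j : ℝ) = ∑ a, ∑ b, (C a b : ℝ) * (Vd θ i a * Vd θ j b) := by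
  set m := m₀ + m₁ with hm
  set D := 2 * m * (r + 2) with hD
  have hm1 : 1 ≤ m := by rcases i with i | i <;> have := i.2 <;> omega
  -- the coefficient function
  set c : ℕ → ℕ → ℤ := fun a b => (if a = 0 ∧ b = 0 then M i j else 0) - cc C (bl i) (bl j) a b
    with hc
  have hsum : ∀ f : ℕ → ℕ → ℝ, ∑ a ∈ Finset.range m, ∑ b ∈ Finset.range m, (c a b : ℝ) * f a b =
      M i j * f 0 0 - ∑ a', ∑ b', if bl a' = bl i ∧ bl b' = bl j then
        (C a' b' : ℝ) * f (ix a') (ix b') else 0 := by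
    intro f
    rw [← sum_cc C (bl i) (bl j) le_rfl f]
    have h1 : ∀ a b : ℕ, (c a b : ℝ) * f a b = (if a = 0 then (if b = 0 then (M i j : ℝ) * f a b
        else 0) else 0) - (cc C (bl i) (bl j) a b : ℝ) * f a b := by
      intro a b
      simp only [hc]
      push_cast
      by_cases ha : a = 0 <;> by_cases hb : b = 0 <;> simp [ha, hb, sub_mul]
    simp only [h1, Finset.sum_sub_distrib]
    congr 1
    rw [Finset.sum_eq_single 0, Finset.sum_eq_single 0]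
    · simp
    · intro b _ hb; simp [hb]
    · intro h0; simp at h0; omega
    · intro a _ ha; simp [ha]
    · intro h0; simp at h0; omega
  have hx := hsum fun a b => θ i ^ a * θ j ^ b
  simp only [pow_zero, mul_one] at hx
  rw [← Vd_mul] at hx
  set x := (M i j : ℝ) - ∑ a', ∑ b', (C a' b' : ℝ) * (Vd θ i a' * Vd θ j b') with hxd
  -- size of x
  have hxs : |(2 : ℝ) ^ K * x| ≤ 2 ^ (g + D + 2 * m + 1) := by
    have e1 : (2 : ℝ) ^ K * x = (2 ^ K * M i j - ∑ a, ∑ b, (C a b : ℝ) * vv K κ i a j b) +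
        ∑ a, ∑ b, (C a b : ℝ) * ((vv K κ i a j b : ℝ) - 2 ^ K * (Vd θ i a * Vd θ j b)) := by
      rw [hxd]
      simp only [mul_sub, Finset.sum_sub_distrib, Finset.mul_sum]
      have : ∑ a', ∑ b', (2 : ℝ) ^ K * ((C a' b' : ℝ) * (Vd θ i a' * Vd θ j b')) =
          ∑ a', ∑ b', (C a' b' : ℝ) * (2 ^ K * (Vd θ i a' * Vd θ j b')) :=
        Finset.sum_congr rfl fun _ _ => Finset.sum_congr rfl fun _ _ => by ring
      rw [this]
      ring
    have e2 : |(2 : ℝ) ^ K * M i j - ∑ a, ∑ b, (C a b : ℝ) * vv K κ i a j b| ≤ 2 ^ g := by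
      exact_mod_cast hF i j
    have e3 : |∑ a, ∑ b, (C a b : ℝ) * ((vv K κ i a j b : ℝ) - 2 ^ K * (Vd θ i a * Vd θ j b))| ≤
        (m : ℝ) * (m * (2 ^ g * 2 ^ D)) := by
      refine (sum_abs_le _ fun a => (sum_abs_le (B := 2 ^ g * 2 ^ D) _ fun b => ?_)).trans_eq ?_
      · rw [abs_mul]
        refine mul_le_mul ?_ (vv_approx hr hκ i a j b) (abs_nonneg _) (by positivity)
        exact_mod_cast hC a b
      · rw [card_II]
    rw [e1]
    refine (abs_add_le _ _).trans ((add_le_add e2 e3).trans ?_)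
    have e4 : (m : ℝ) ≤ 2 ^ m := by
      have := (Nat.lt_two_pow_self (n := m)).le
      exact_mod_cast this
    have e5 : (1 : ℝ) ≤ 2 ^ m := one_le_pow₀ (by norm_num)
    have e6 : (1 : ℝ) ≤ 2 ^ D := one_le_pow₀ (by norm_num)
    have e7 : (0 : ℝ) < 2 ^ g := by positivity
    have e8 : (2 : ℝ) ^ (g + D + 2 * m + 1) = 2 ^ g * 2 ^ D * (2 ^ m * 2 ^ m) * 2 := by
      rw [pow_succ, pow_add, pow_add, two_mul, pow_add]
    rw [e8]
    have e9 : (m : ℝ) * (m * (2 ^ g * 2 ^ D)) ≤ 2 ^ m * (2 ^ m * (2 ^ g * 2 ^ D)) := by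
      gcongr
    have e10 : (1 : ℝ) ≤ 2 ^ m * 2 ^ m := by nlinarith
    have e11 : (2 : ℝ) ^ g ≤ 2 ^ g * (2 ^ D * (2 ^ m * 2 ^ m)) := by
      refine le_mul_of_one_le_right e7.le ?_
      nlinarith
    nlinarith
  -- bound of the coefficients
  set B : ℝ := 2 ^ (g + 3 * m + 2 * r * m + 1) with hB
  have hB1 : 1 ≤ B := one_le_pow₀ (by norm_num)
  have hR1 : (1 : ℝ) ≤ 2 ^ r := one_le_pow₀ (by norm_num)
  have hcB : ∑ a ∈ Finset.range m, ∑ b ∈ Finset.range m,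
      |(c a b : ℝ)| * (2 ^ r) ^ a * (2 ^ r) ^ b ≤ B := by
    have e1 : ∀ a ∈ Finset.range m, ∀ b ∈ Finset.range m,
        |(c a b : ℝ)| * (2 ^ r) ^ a * (2 ^ r) ^ b ≤
        (((if a = 0 ∧ b = 0 then |M i j| else 0) + cc (fun i j => |C i j|) (bl i) (bl j) a b : ℤ) : ℝ)
          * ((2 ^ r) ^ a * (2 ^ r) ^ b) := by
      intro a _ b _
      rw [mul_assoc]
      refine mul_le_mul_of_nonneg_right ?_ (by positivity)
      simp only [hc]
      push_cast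
      refine (abs_sub _ _).trans (add_le_add ?_ (abs_cc_le _ _ _ _ _))
      split_ifs <;> simp
    refine (Finset.sum_le_sum fun a ha => Finset.sum_le_sum fun b hb => e1 a ha b hb).trans ?_
    have e2 : ∑ a ∈ Finset.range m, ∑ b ∈ Finset.range m,
        (((if a = 0 ∧ b = 0 then |M i j| else 0) + cc (fun i j => |C i j|) (bl i) (bl j) a b : ℤ) : ℝ)
          * ((2 ^ r) ^ a * (2 ^ r) ^ b) = |(M i j : ℝ)| +
        ∑ a', ∑ b', if bl a' = bl i ∧ bl b' = bl j then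
        ((|C a' b'| : ℤ) : ℝ) * ((2 ^ r) ^ (ix a') * (2 ^ r) ^ (ix b')) else 0 := by
      rw [← sum_cc (fun i j => |C i j|) (bl i) (bl j) le_rfl
        (fun a b => (2 ^ r) ^ a * (2 ^ r) ^ b)]
      have h1 : ∀ a b : ℕ, (((if a = 0 ∧ b = 0 then |M i j| else 0) +
          cc (fun i j => |C i j|) (bl i) (bl j) a b : ℤ) : ℝ) * ((2 ^ r) ^ a * (2 ^ r) ^ b) =
          (if a = 0 then (if b = 0 then |(M i j : ℝ)| else 0) else 0) +
          (cc (fun i j => |C i j|) (bl i) (bl j) a b : ℝ) * ((2 ^ r) ^ a * (2 ^ r) ^ b) := by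
        intro a b
        push_cast
        by_cases ha : a = 0 <;> by_cases hb : b = 0 <;> simp [ha, hb, add_mul]
      simp only [h1, Finset.sum_add_distrib]
      congr 1
      rw [Finset.sum_eq_single 0, Finset.sum_eq_single 0]
      · simp
      · intro b _ hb; simp [hb]
      · intro h0; simp at h0; omega
      · intro a _ ha; simp [ha]
      · intro h0; simp at h0; omega
    rw [e2]
    have e3 : |(M i j : ℝ)| ≤ 2 ^ g := by exact_mod_cast hM i j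
    have e4 : ∑ a', ∑ b', (if bl a' = bl i ∧ bl b' = bl j then
        ((|C a' b'| : ℤ) : ℝ) * ((2 ^ r) ^ (ix a') * (2 ^ r) ^ (ix b')) else 0) ≤
        (m : ℝ) * (m * (2 ^ g * (2 ^ (r * m) * 2 ^ (r * m)))) := by
      refine (le_abs_self _).trans ((sum_abs_le _ fun a => (sum_abs_le
        (B := 2 ^ g * (2 ^ (r * m) * 2 ^ (r * m))) _ fun b => ?_)).trans_eq ?_)
      · split_ifs
        · rw [abs_mul, abs_of_pos (a := (2 ^ r : ℝ) ^ (ix a) * (2 ^ r) ^ (ix b)) (by positivity)]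
          have f1 : |((|C a b| : ℤ) : ℝ)| ≤ 2 ^ g := by
            rw [Int.cast_abs, abs_abs]; exact_mod_cast hC a b
          have f2 : ((2 : ℝ) ^ r) ^ (ix a) ≤ 2 ^ (r * m) := by
            rw [pow_mul]; exact pow_le_pow_right₀ hR1 (ix_lt a).le
          have f3 : ((2 : ℝ) ^ r) ^ (ix b) ≤ 2 ^ (r * m) := by
            rw [pow_mul]; exact pow_le_pow_right₀ hR1 (ix_lt b).le
          gcongr
        · rw [abs_zero]; positivity
      · rw [card_II]
    refine (add_le_add e3 e4).trans ?_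
    have e5 : (m : ℝ) ≤ 2 ^ m := by
      have := (Nat.lt_two_pow_self (n := m)).le
      exact_mod_cast this
    have e6 : (1 : ℝ) ≤ 2 ^ m := one_le_pow₀ (by norm_num)
    have e7 : (1 : ℝ) ≤ 2 ^ (r * m) := one_le_pow₀ (by norm_num)
    have e8 : (0 : ℝ) < 2 ^ g := by positivity
    have e9 : B = 2 ^ g * (2 ^ (r * m) * 2 ^ (r * m)) * (2 ^ m * 2 ^ m * 2 ^ m) * 2 := by
      rw [hB, show g + 3 * m + 2 * r * m + 1 = g + (r * m + r * m) + (m + m + m) + 1 by ring,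
        pow_succ, pow_add, pow_add, pow_add, pow_add, pow_add]
    rw [e9]
    have e10 : (m : ℝ) * (m * (2 ^ g * (2 ^ (r * m) * 2 ^ (r * m)))) ≤
      2 ^ m * (2 ^ m * (2 ^ g * (2 ^ (r * m) * 2 ^ (r * m)))) := by gcongr
    have e11 : (1 : ℝ) ≤ 2 ^ (r * m) * 2 ^ (r * m) := by nlinarith
    have e12 : (1 : ℝ) ≤ 2 ^ m * 2 ^ m := by nlinarith
    have e13 : (2 : ℝ) ^ g ≤ 2 ^ g * (2 ^ (r * m) * 2 ^ (r * m)) * (2 ^ m * 2 ^ m * 2 ^ m) := by
      have : (1 : ℝ) ≤ (2 ^ (r * m) * 2 ^ (r * m)) * (2 ^ m * 2 ^ m * 2 ^ m) := by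
        have : (1 : ℝ) ≤ 2 ^ m * 2 ^ m * 2 ^ m := by nlinarith
        nlinarith
      calc (2 : ℝ) ^ g = 2 ^ g * 1 := by ring
        _ ≤ 2 ^ g * ((2 ^ (r * m) * 2 ^ (r * m)) * (2 ^ m * 2 ^ m * 2 ^ m)) := by gcongr
        _ = _ := by ring
    have e14 : (2 : ℝ) ^ m * (2 ^ m * (2 ^ g * (2 ^ (r * m) * 2 ^ (r * m)))) ≤
        2 ^ g * (2 ^ (r * m) * 2 ^ (r * m)) * (2 ^ m * 2 ^ m * 2 ^ m) := by
      calc (2 : ℝ) ^ m * (2 ^ m * (2 ^ g * (2 ^ (r * m) * 2 ^ (r * m)))) =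
            2 ^ g * (2 ^ (r * m) * 2 ^ (r * m)) * (2 ^ m * 2 ^ m * 1) := by ring
        _ ≤ _ := by gcongr
    linarith
  have hfin : |x| * B ^ (m * m) < 1 := by
    have e1 : |x| = |(2 : ℝ) ^ K * x| / 2 ^ K := by
      rw [abs_mul, abs_of_pos (a := (2 : ℝ) ^ K) (by positivity)]; field_simp
    rw [e1, div_mul_eq_mul_div, div_lt_one (by positivity)]
    calc |(2 : ℝ) ^ K * x| * B ^ (m * m) ≤ 2 ^ (g + D + 2 * m + 1) * B ^ (m * m) :=
          mul_le_mul_of_nonneg_right hxs (by positivity)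
      _ = 2 ^ ((g + 3 * m + 2 * r * m + 1) * (m * m) + g + D + 2 * m + 1) := by
          rw [hB, ← pow_mul, ← pow_add]; congr 1; ring
      _ < 2 ^ K := pow_lt_pow_right₀ (by norm_num) (by omega)
  have := liou h (R := 2 ^ r) hr m c i j hB1 hcB (by
    simp only [mul_assoc] at hx ⊢
    rw [hx]; exact hfin)
  simp only [mul_assoc] at hx this
  rw [hx] at this
  linarith

end

end Pool.Agent.H687R2.Pgst
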