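import Mathlib
import Pool.Agent.NPC.Num

namespace Pool.Agent.H687R2.Pgst

open Pool.Agent.NPC

/-! ### Task ANALYTIC -/

theorem pgst_criterion {n : ℕ} (A : Matrix (Fin n) (Fin n) ℝ) (hA : A.IsSymm) (u v : Fin n)
    (huv : u ≠ v) {m₀ m₁ : ℕ} (θ : Fin m₀ ⊕ Fin m₁ → ℝ) (z : Fin m₀ ⊕ Fin m₁ → Fin n → ℝ)
    (h0 : Function.Injective fun i => θ (Sum.inl i)) (h1 : Function.Injective fun i => θ (Sum.inr i))
    (hz : ∀ i, z i ≠ 0) (hev : ∀ i, A.mulVec (z i) = θ i • z i)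
    (hp : ∑ i, z (Sum.inl i) = Pi.single u 1 + Pi.single v 1)
    (hm : ∑ i, z (Sum.inr i) = Pi.single u 1 - Pi.single v 1) :
    (∀ ε : ℝ, 0 < ε → ∃ t : ℝ,
      1 - ε < ‖(NormedSpace.exp ((Complex.I * (t : ℂ)) • A.map (fun x : ℝ => (x : ℂ))) :
        Matrix (Fin n) (Fin n) ℂ) u v‖) ↔
    ∀ l : Fin m₀ ⊕ Fin m₁ → ℤ, ∑ i, l i = 0 → ∑ i, (l i : ℝ) * θ i = 0 →
      Even (∑ i, l (Sum.inr i)) := by
  sorry

/-! ### Task LIOUVILLE -/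

theorem liouville {m m' : ℕ} (P Q : Polynomial ℤ) (θ : Fin m → ℝ) (θ' : Fin m' → ℝ)
    (hP : P.map (Int.castRingHom ℝ) = ∏ i, (Polynomial.X - Polynomial.C (θ i)))
    (hQ : Q.map (Int.castRingHom ℝ) = ∏ i, (Polynomial.X - Polynomial.C (θ' i)))
    (R : ℝ) (hR : ∀ i, |θ i| ≤ R) (hR' : ∀ i, |θ' i| ≤ R)
    (N : ℕ) (c : ℕ → ℕ → ℤ) (i : Fin m) (j : Fin m') (B : ℝ) (hB : 1 ≤ B)
    (hcB : ∑ a ∈ Finset.range N, ∑ b ∈ Finset.range N, |(c a b : ℝ)| * R ^ a * R ^ b ≤ B)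
    (hx : |∑ a ∈ Finset.range N, ∑ b ∈ Finset.range N, (c a b : ℝ) * θ i ^ a * θ' j ^ b|
      * B ^ (m * m') < 1) :
    ∑ a ∈ Finset.range N, ∑ b ∈ Finset.range N, (c a b : ℝ) * θ i ^ a * θ' j ^ b = 0 := by
  sorry

/-! ### Task ROOTS -/

/-- The integer polynomial with a given list of coefficients (constant term first). -/
noncomputable def polyOf : List ℤ → Polynomial ℤ
  | [] => 0
  | a :: l => Polynomial.C a + Polynomial.X * polyOf l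

theorem exists_rootApprox : ∃ f : List ℤ × List Unit → List ℤ, Poly f ∧
    ∀ (P : List ℤ) (K m : ℕ) (θ : Fin m → ℝ), StrictAnti θ →
      (polyOf P).map (Int.castRingHom ℝ) = ∏ i, (Polynomial.X - Polynomial.C (θ i)) →
      (f (P, List.replicate K ())).length = m ∧
      ∀ i : Fin m, |(2 : ℝ) ^ K * θ i - ((f (P, List.replicate K ())).getD i 0 : ℝ)| ≤ 1 := by
  sorry

end Pool.Agent.H687R2.Pgst
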