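import Mathlib

/-! # Two more purely mathematical tasks (stubs; replace by proofs in your own files) -/

namespace Pool.Agent.H687R2.Pgst

open Polynomial

/-! ### Task KRYLOV -/

theorem krylov {n : ℕ} (A : Matrix (Fin n) (Fin n) ℤ) (hA : A.IsSymm) (h1 : ∀ i j, |A i j| ≤ 1)
    (z : Fin n → ℤ) (hz : z ≠ 0) :
    ∃ (m : ℕ) (P : Polynomial ℤ) (θ : Fin m → ℝ) (Z : Fin m → Fin n → ℝ),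
      0 < m ∧ m ≤ n ∧ StrictAnti θ ∧ P.Monic ∧ P.natDegree = m ∧
      P.map (Int.castRingHom ℝ) = ∏ i, (X - C (θ i)) ∧
      (∀ i, |θ i| ≤ n) ∧ (∀ k, |P.coeff k| ≤ ((n : ℤ) + 1) ^ n) ∧
      (∀ i, Z i ≠ 0) ∧ (∀ i, (A.map (Int.cast : ℤ → ℝ)).mulVec (Z i) = θ i • Z i) ∧
      (∑ i, Z i = fun p => (z p : ℝ)) ∧
      (∀ Q : Polynomial ℤ, (aeval A Q).mulVec z = 0 ↔ P ∣ Q) := by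
  sorry

/-! ### Task GALOIS -/

/-- The block Vandermonde matrix. -/
noncomputable def bvand {m₀ m₁ : ℕ} (θ₀ : Fin m₀ → ℝ) (θ₁ : Fin m₁ → ℝ) :
    Matrix (Fin m₀ ⊕ Fin m₁) (Fin m₀ ⊕ Fin m₁) ℝ :=
  Matrix.fromBlocks (Matrix.vandermonde θ₀) 0 0 (Matrix.vandermonde θ₁)

theorem galois_core {m₀ m₁ : ℕ} (P₀ P₁ : Polynomial ℤ) (θ₀ : Fin m₀ → ℝ) (θ₁ : Fin m₁ → ℝ)
    (h₀ : P₀.map (Int.castRingHom ℝ) = ∏ i, (X - C (θ₀ i)))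
    (h₁ : P₁.map (Int.castRingHom ℝ) = ∏ i, (X - C (θ₁ i)))
    (inj₀ : Function.Injective θ₀) (inj₁ : Function.Injective θ₁)
    (r : ℕ) (hr₀ : ∀ i, |θ₀ i| ≤ 2 ^ r) (hr₁ : ∀ i, |θ₁ i| ≤ 2 ^ r) :
    ∃ M C N : Matrix (Fin m₀ ⊕ Fin m₁) (Fin m₀ ⊕ Fin m₁) ℤ,
      (∀ i j, |M i j| ≤ 2 ^ (10 * (m₀ + m₁ + 1) ^ 3 * (r + 1))) ∧
      (∀ i j, |C i j| ≤ 2 ^ (10 * (m₀ + m₁ + 1) ^ 3 * (r + 1))) ∧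
      (∀ i j, |N i j| ≤ 2 ^ (10 * (m₀ + m₁ + 1) ^ 3 * (r + 1))) ∧
      (M.map (Int.cast : ℤ → ℝ) =
        bvand θ₀ θ₁ * C.map (Int.cast : ℤ → ℝ) * (bvand θ₀ θ₁).transpose) ∧
      (∀ i, ∑ j, (M i j : ℝ) * Sum.elim θ₀ θ₁ j = 0) ∧ (∀ i, ∑ j, M i j = 0) ∧
      (∀ w : Fin m₀ ⊕ Fin m₁ → ℤ, (∀ i, ∑ j, M i j * w j = 0) →
        ∃ y : Fin m₀ ⊕ Fin m₁ → ℝ, ∀ i, (w i : ℝ) = ∑ j, (N i j : ℝ) * y j) ∧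
      (∀ l : Fin m₀ ⊕ Fin m₁ → ℤ, ∑ i, l i = 0 → ∑ i, (l i : ℝ) * Sum.elim θ₀ θ₁ i = 0 →
        ∀ j, ∑ i, l i * N i j = 0) := by
  sorry

end Pool.Agent.H687R2.Pgst
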